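import Pool.Agent.helper36.LT.Defs

set_option autoImplicit false

namespace Pool.Agent.helper36.LT

open Pool.Agent.helper34

/-- the alternating product `a b a b …` with `n` factors -/
def alt {M : Type} [Monoid M] (a b : M) : ℕ → M
  | 0 => 1
  | n + 1 => a * alt b a n

/-- the relations of the Artin group -/
def artinRels {S : Type} (M : CoxeterMatrix S) : Set (FreeGroup S) :=
  Set.range fun p : S × S => alt (FreeGroup.of p.1) (FreeGroup.of p.2) (M.M p.1 p.2) *
    (alt (FreeGroup.of p.2) (FreeGroup.of p.1) (M.M p.1 p.2))⁻¹

/-- the Artin group (Artin-Tits group) of a Coxeter matrix (`M s t = 0` means no relation) -/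
abbrev Artin {S : Type} (M : CoxeterMatrix S) : Type := PresentedGroup (artinRels M)

/-- the standard generators -/
def gen {S : Type} (M : CoxeterMatrix S) (s : S) : Artin M := PresentedGroup.of s

/-- the matrix of the transvection `x ↦ x + ω(e_s, x) e_s` -/
def trv {S : Type} [DecidableEq S] (ω : S → S → ℝ) (s : S) : Matrix S S ℝ :=
  Matrix.of fun i j => (if i = j then 1 else 0) + (if i = s then ω s j else 0)

/-- the skew symmetric form -/
structure Form {S : Type} (M : CoxeterMatrix S) (ω : S → S → ℝ) : Prop where
  skew : ∀ s t, ω t s = - ω s t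
  val : ∀ s t, s ≠ t → ω s t = 2 * Real.cos (Real.pi / M.M s t) ∨
    ω s t = - (2 * Real.cos (Real.pi / M.M s t))

/-- the chamber system of the Artin group -/
def artinRel {S : Type} (M : CoxeterMatrix S) (T : Set S) (b c : Artin M) : Prop :=
  b⁻¹ * c ∈ Subgroup.closure (gen M '' T)

end Pool.Agent.helper36.LT
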