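import Pool.Agent.helper36.LT.ArtinDefs

set_option autoImplicit false

/-!
# The chamber system of an Artin group is simply connected
-/

namespace Pool.Agent.helper36.LT

open Pool.Agent.helper34

namespace ArtinSC

variable {S B : Type}

theorem fin_append (b : B) (l m : List (Set S × B)) : fin b (l ++ m) = fin (fin b l) m := by
  induction l generalizing b with
  | nil => rfl
  | cons x l ih => exact ih x.2

theorem hom_append_left (X : Sys S B) (b : B) (l m n : List (Set S × B))
    (h : Hom X (fin b l) m n) : Hom X b (l ++ m) (l ++ n) := by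
  induction l generalizing b with
  | nil => exact h
  | cons x l ih => exact Hom.cons b x _ _ (ih x.2 h)

variable (M : CoxeterMatrix S)

/-- the element of the Artin group of a word -/
def ev (w : List (S × Bool)) : Artin M := PresentedGroup.mk (artinRels M) (FreeGroup.mk w)

theorem ev_nil : ev M [] = 1 := by
  unfold ev
  rw [← FreeGroup.one_eq_mk, map_one]

theorem ev_append (w v : List (S × Bool)) : ev M (w ++ v) = ev M w * ev M v := by
  unfold ev
  rw [← FreeGroup.mul_mk, map_mul]

theorem ev_cons (x : S × Bool) (v : List (S × Bool)) : ev M (x :: v) = ev M [x] * ev M v :=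
  ev_append M [x] v

theorem ev_true (s : S) : ev M [(s, true)] = gen M s := rfl

theorem ev_false (s : S) : ev M [(s, false)] = (gen M s)⁻¹ := by
  rw [eq_inv_iff_mul_eq_one, ← ev_true M s, ← ev_append]
  unfold ev
  rw [show FreeGroup.mk ([(s, false)] ++ [(s, true)]) = 1 from ?_, map_one]
  rw [FreeGroup.one_eq_mk]
  exact Quot.sound (FreeGroup.Red.Step.not (L₁ := []) (L₂ := []) (x := s) (b := false))

/-- the gallery of a word -/
def gw : Artin M → List (S × Bool) → List (Set S × Artin M)
  | _, [] => []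
  | b, x :: w => ({x.1}, b * ev M [x]) :: gw (b * ev M [x]) w

theorem fin_gw (b : Artin M) (w : List (S × Bool)) : fin b (gw M b w) = b * ev M w := by
  induction w generalizing b with
  | nil =>
    rw [ev_nil, mul_one]
    rfl
  | cons x w ih =>
    rw [ev_cons, ← mul_assoc]
    exact ih _

theorem gw_append (b : Artin M) (w v : List (S × Bool)) :
    gw M b (w ++ v) = gw M b w ++ gw M (b * ev M w) v := by
  induction w generalizing b with
  | nil =>
    rw [ev_nil, mul_one]
    rfl
  | cons x w ih =>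
    rw [ev_cons, ← mul_assoc]
    exact congrArg (List.cons ({x.1}, b * ev M [x])) (ih (b * ev M [x]))

theorem ev_mem (T : Set S) (w : List (S × Bool)) (hw : ∀ x ∈ w, x.1 ∈ T) :
    ev M w ∈ Subgroup.closure (gen M '' T) := by
  induction w with
  | nil => rw [ev_nil]; exact one_mem _
  | cons x w ih =>
    rw [ev_cons]
    refine mul_mem ?_ (ih fun y hy => hw y (List.mem_cons_of_mem _ hy))
    have hx : gen M x.1 ∈ Subgroup.closure (gen M '' T) :=
      Subgroup.subset_closure ⟨x.1, hw x List.mem_cons_self, rfl⟩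
    obtain ⟨s, e⟩ := x
    cases e
    · rw [ev_false]; exact inv_mem hx
    · rw [ev_true]; exact hx

theorem exists_word (T : Set S) (g : Artin M) (hg : g ∈ Subgroup.closure (gen M '' T)) :
    ∃ w : List (S × Bool), (∀ x ∈ w, x.1 ∈ T) ∧ ev M w = g := by
  induction hg using Subgroup.closure_induction with
  | mem x hx =>
    obtain ⟨s, hs, rfl⟩ := hx
    refine ⟨[(s, true)], ?_, ev_true M s⟩
    intro x hx
    rw [List.mem_singleton] at hx
    rw [hx]; exact hs
  | one => exact ⟨[], fun x hx => absurd hx (List.not_mem_nil), ev_nil M⟩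
  | mul x y _ _ hx hy =>
    obtain ⟨w, hw, rfl⟩ := hx
    obtain ⟨v, hv, rfl⟩ := hy
    refine ⟨w ++ v, ?_, ev_append M w v⟩
    intro x hx
    rcases List.mem_append.1 hx with h | h
    · exact hw x h
    · exact hv x h
  | inv x _ hx =>
    obtain ⟨w, hw, rfl⟩ := hx
    refine ⟨FreeGroup.invRev w, ?_, ?_⟩
    · intro x hx
      unfold FreeGroup.invRev at hx
      rw [List.mem_reverse, List.mem_map] at hx
      obtain ⟨y, hy, rfl⟩ := hx
      exact hw y hy
    · unfold ev
      rw [← FreeGroup.inv_mk, map_inv]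

variable (X : Sys S (Artin M)) (hX : X.r = artinRel M)

include hX in
theorem rel_iff (T : Set S) (b c : Artin M) :
    X.r T b c ↔ b⁻¹ * c ∈ Subgroup.closure (gen M '' T) := by
  rw [hX]; rfl

include hX in
theorem rel_word (T : Set S) (b : Artin M) (w : List (S × Bool)) (hw : ∀ x ∈ w, x.1 ∈ T) :
    X.r T b (b * ev M w) := by
  rw [rel_iff M X hX, inv_mul_cancel_left]
  exact ev_mem M T w hw

include hX in
theorem isGal_gw (b : Artin M) (w : List (S × Bool)) : IsGal X b (gw M b w) := by
  induction w generalizing b with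
  | nil => trivial
  | cons x w ih =>
    refine ⟨Or.inr (Or.inl ⟨x.1, rfl⟩), ?_, ih _⟩
    refine rel_word M X hX _ b [x] ?_
    intro y hy
    rw [List.mem_singleton] at hy
    rw [hy]; exact rfl

include hX in
/-- the gallery of a word in the letters of `T` is homotopic to one step of type `T` -/
theorem hom_word (T : Set S) (hT : IsTy T) (b : Artin M) (w : List (S × Bool))
    (hw : ∀ x ∈ w, x.1 ∈ T) : Hom X b (gw M b w) [(T, b * ev M w)] := by
  induction w generalizing b with
  | nil =>
    rw [ev_nil, mul_one]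
    exact Hom.symm _ _ _ (Hom.triv b T [] hT)
  | cons x w ih =>
    have h1 : ∀ y ∈ [x], y.1 ∈ T := by
      intro y hy
      rw [List.mem_singleton] at hy
      rw [hy]; exact hw x List.mem_cons_self
    have h2 : ∀ y ∈ w, y.1 ∈ T := fun y hy => hw y (List.mem_cons_of_mem _ hy)
    have h3 := ih (b * ev M [x]) h2
    rw [mul_assoc, ← ev_cons] at h3
    refine Hom.trans _ _ ((T, b * ev M [x]) :: gw M (b * ev M [x]) w) _ ?_ ?_
    · refine Hom.sub b _ _ _ _ (Or.inr (Or.inl ⟨x.1, rfl⟩)) hT ?_ ?_
      · intro y hy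
        rw [Set.mem_singleton_iff] at hy
        rw [hy]; exact hw x List.mem_cons_self
      · refine rel_word M X hX _ b [x] ?_
        intro y hy
        rw [List.mem_singleton] at hy
        rw [hy]; exact rfl
    · refine Hom.trans _ _ _ _ (Hom.cons b (T, b * ev M [x]) _ _ h3) ?_
      refine Hom.comp b _ _ T [] hT (rel_word M X hX T b [x] h1) ?_
      have h4 := rel_word M X hX T (b * ev M [x]) w h2
      rw [mul_assoc, ← ev_cons] at h4
      exact h4

include hX in
/-- every gallery is homotopic to the gallery of a word -/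
theorem hom_gal (b : Artin M) (l : List (Set S × Artin M)) (hl : IsGal X b l) :
    ∃ w, Hom X b l (gw M b w) ∧ b * ev M w = fin b l := by
  induction l generalizing b with
  | nil => exact ⟨[], Hom.refl _ _, by rw [ev_nil, mul_one]; rfl⟩
  | cons x l ih =>
    obtain ⟨T, c⟩ := x
    obtain ⟨hT, hr, hl'⟩ := hl
    obtain ⟨w, hw, hwe⟩ := ih c hl'
    rw [rel_iff M X hX] at hr
    obtain ⟨v, hv, hve⟩ := exists_word M T _ hr
    simp only at hve
    have hc : b * ev M v = c := by rw [hve, mul_inv_cancel_left]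
    refine ⟨v ++ w, ?_, ?_⟩
    · rw [gw_append, hc]
      refine Hom.trans _ _ _ _ (Hom.cons b (T, c) _ _ hw) ?_
      have h1 := hom_word M X hX T hT b v hv
      rw [hc] at h1
      have h2 : ∀ (l m n : List (Set S × Artin M)), Hom X b l m → Hom X b (l ++ n) (m ++ n) := by
        intro l m n h
        clear hl' hw hwe hr hve hc h1 hv ih
        induction h with
        | refl b l => exact Hom.refl _ _
        | symm b l m _ ih => exact Hom.symm _ _ _ ih
        | trans b l m n' _ _ ih1 ih2 => exact Hom.trans _ _ _ _ ih1 ih2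
        | cons b x l m _ ih => exact Hom.cons _ _ _ _ ih
        | triv b T l hT => exact Hom.triv b T _ hT
        | comp b c d T l hT h h' => exact Hom.comp b c d T _ hT h h'
        | sub b c T T' l hT hT' hTT h => exact Hom.sub b c T T' _ hT hT' hTT h
      exact Hom.symm _ _ _ (h2 _ [(T, c)] (gw M c w) h1)
    · rw [ev_append, ← mul_assoc, hc, hwe]
      rfl

theorem ev_pair (s : S) (e : Bool) : ev M [(s, e)] * ev M [(s, !e)] = 1 := by
  rw [← ev_append]
  unfold ev
  rw [show FreeGroup.mk ([(s, e)] ++ [(s, !e)]) = 1 from ?_, map_one]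
  rw [FreeGroup.one_eq_mk]
  exact Quot.sound (FreeGroup.Red.Step.not (L₁ := []) (L₂ := []) (x := s) (b := e))

include hX in
theorem red_step (b : Artin M) (w v : List (S × Bool)) (h : FreeGroup.Red.Step w v) :
    Hom X b (gw M b w) (gw M b v) := by
  obtain @⟨L₁, L₂, s, e⟩ := h
  rw [gw_append, gw_append]
  refine hom_append_left X b _ _ _ ?_
  rw [fin_gw]
  generalize b * ev M L₁ = c
  have h0 : c * ev M [(s, e)] * ev M [(s, !e)] = c := by
    rw [mul_assoc, ev_pair, mul_one]
  have h1 : gw M c ((s, e) :: (s, !e) :: L₂) =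
      ({s}, c * ev M [(s, e)]) :: ({s}, c) :: gw M c L₂ := by
    show ({s}, c * ev M [(s, e)]) :: ({s}, c * ev M [(s, e)] * ev M [(s, !e)]) ::
      gw M (c * ev M [(s, e)] * ev M [(s, !e)]) L₂ = _
    rw [h0]
  have hs : ∀ e' : Bool, ∀ y ∈ [(s, e')], y.1 ∈ ({s} : Set S) := by
    intro e' y hy
    rw [List.mem_singleton] at hy
    rw [hy]; exact rfl
  have hT : IsTy ({s} : Set S) := Or.inr (Or.inl ⟨s, rfl⟩)
  rw [h1]
  refine Hom.trans _ _ _ _ (Hom.comp c _ c {s} _ hT (rel_word M X hX _ _ _ (hs e)) ?_)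
    (Hom.triv c {s} _ hT)
  have h2 := rel_word M X hX {s} (c * ev M [(s, e)]) [(s, !e)] (hs _)
  rw [h0] at h2
  exact h2

include hX in
theorem hom_red (b : Artin M) (w v : List (S × Bool)) (h : FreeGroup.Red w v) :
    Hom X b (gw M b w) (gw M b v) := by
  induction h with
  | refl => exact Hom.refl _ _
  | tail _ h ih => exact Hom.trans _ _ _ _ ih (red_step M X hX b _ _ h)

include hX in
theorem hom_mk (b : Artin M) (w v : List (S × Bool)) (h : FreeGroup.mk w = FreeGroup.mk v) :
    Hom X b (gw M b w) (gw M b v) := by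
  obtain ⟨c, h1, h2⟩ := FreeGroup.Red.exact.1 h
  exact Hom.trans _ _ _ _ (hom_red M X hX b _ _ h1) (Hom.symm _ _ _ (hom_red M X hX b _ _ h2))

theorem alt_word (s t : S) (n : ℕ) : ∃ w : List (S × Bool), (∀ x ∈ w, x.1 ∈ ({s, t} : Set S)) ∧
    FreeGroup.mk w = alt (FreeGroup.of s) (FreeGroup.of t) n := by
  induction n generalizing s t with
  | zero => exact ⟨[], fun x hx => absurd hx (List.not_mem_nil), rfl⟩
  | succ n ih =>
    obtain ⟨w, hw, h⟩ := ih t s
    refine ⟨(s, true) :: w, ?_, ?_⟩
    · intro x hx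
      rcases List.mem_cons.1 hx with h' | h'
      · rw [h']; exact Or.inl rfl
      · rw [Set.pair_comm]; exact hw x h'
    · show _ = FreeGroup.of s * alt (FreeGroup.of t) (FreeGroup.of s) n
      rw [← h]
      rfl

include hX in
theorem hom_rel (r : FreeGroup S) (hr : r ∈ artinRels M) (w : List (S × Bool))
    (hw : FreeGroup.mk w = r) (b : Artin M) : Hom X b (gw M b w) [] := by
  obtain ⟨⟨s, t⟩, h⟩ := hr
  simp only at h
  obtain ⟨u, hu, hu'⟩ := alt_word s t (M.M s t)
  obtain ⟨v, hv, hv'⟩ := alt_word t s (M.M s t)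
  rw [← hu', ← hv', FreeGroup.inv_mk, FreeGroup.mul_mk] at h
  have h1 : ∀ x ∈ u ++ FreeGroup.invRev v, x.1 ∈ ({s, t} : Set S) := by
    intro x hx
    rcases List.mem_append.1 hx with h | h
    · exact hu x h
    · unfold FreeGroup.invRev at h
      rw [List.mem_reverse, List.mem_map] at h
      obtain ⟨y, hy, rfl⟩ := h
      rw [Set.pair_comm]
      exact hv y hy
  have hT : IsTy ({s, t} : Set S) := by
    by_cases hst : s = t
    · refine Or.inr (Or.inl ⟨s, ?_⟩)
      rw [← hst, Set.pair_eq_singleton]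
    · exact Or.inr (Or.inr ⟨s, t, hst, rfl⟩)
  have h2 := hom_word M X hX {s, t} hT b _ h1
  have h3 : ev M (u ++ FreeGroup.invRev v) = 1 := by
    unfold ev
    rw [h]
    exact PresentedGroup.one_of_mem (by
      refine ⟨⟨s, t⟩, ?_⟩
      simp only
      rw [← hu', ← hv', FreeGroup.inv_mk, FreeGroup.mul_mk, h])
  rw [h3, mul_one] at h2
  refine Hom.trans _ _ _ _ (hom_mk M X hX b w _ (hw.trans h.symm)) ?_
  exact Hom.trans _ _ _ _ h2 (Hom.triv b _ [] hT)

/-- the words whose galleries are null homotopic -/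
def Nul (x : FreeGroup S) : Prop := PresentedGroup.mk (artinRels M) x = 1 ∧
    ∀ (w : List (S × Bool)), FreeGroup.mk w = x → ∀ b, Hom X b (gw M b w) []

include hX in
theorem nul_one : Nul M X 1 := by
  refine ⟨map_one _, fun w hw b => ?_⟩
  exact hom_mk M X hX b w [] (by rw [hw]; rfl)

include hX in
theorem nul_mul (x y : FreeGroup S) (hx : Nul M X x) (hy : Nul M X y) : Nul M X (x * y) := by
  obtain ⟨u, hu⟩ : ∃ u, FreeGroup.mk u = x := Quot.exists_rep x
  obtain ⟨v, hv⟩ : ∃ v, FreeGroup.mk v = y := Quot.exists_rep y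
  refine ⟨by rw [map_mul, hx.1, hy.1, mul_one], fun w hw b => ?_⟩
  rw [← hu, ← hv, FreeGroup.mul_mk] at hw
  refine Hom.trans _ _ _ _ (hom_mk M X hX b w _ hw) ?_
  rw [gw_append]
  have h1 := hom_append_left X b (gw M b u) _ [] (by
    rw [fin_gw]
    exact hy.2 v hv (b * ev M u))
  rw [List.append_nil] at h1
  exact Hom.trans _ _ _ _ h1 (hx.2 u hu b)

include hX in
theorem nul_inv (x : FreeGroup S) (hx : Nul M X x) : Nul M X x⁻¹ := by
  obtain ⟨u, hu⟩ : ∃ u, FreeGroup.mk u = x := Quot.exists_rep x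
  refine ⟨by rw [map_inv, hx.1, inv_one], fun w hw b => ?_⟩
  have h0 := hom_mk M X hX b (w ++ u) [] (by
    rw [← FreeGroup.mul_mk, hw, hu, inv_mul_cancel]
    rfl)
  rw [gw_append] at h0
  have h1 := hom_append_left X b (gw M b w) _ [] (by
    rw [fin_gw]
    exact hx.2 u hu (b * ev M w))
  rw [List.append_nil] at h1
  exact Hom.trans _ _ _ _ (Hom.symm _ _ _ h1) h0

include hX in
theorem nul_conj (x g : FreeGroup S) (hx : Nul M X x) : Nul M X (g * x * g⁻¹) := by
  obtain ⟨u, hu⟩ : ∃ u, FreeGroup.mk u = x := Quot.exists_rep x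
  obtain ⟨v, hv⟩ : ∃ v, FreeGroup.mk v = g := Quot.exists_rep g
  refine ⟨by rw [map_mul, map_mul, hx.1, mul_one, ← map_mul, mul_inv_cancel, map_one],
    fun w hw b => ?_⟩
  rw [← hu, ← hv, FreeGroup.inv_mk, FreeGroup.mul_mk, FreeGroup.mul_mk, List.append_assoc] at hw
  refine Hom.trans _ _ _ _ (hom_mk M X hX b w _ hw) ?_
  have hu1 : ev M u = 1 := by
    unfold ev
    rw [hu, hx.1]
  have h0 : Hom X b (gw M b v ++ gw M (b * ev M v) (FreeGroup.invRev v)) [] := by
    rw [← gw_append]
    refine hom_mk M X hX b _ [] ?_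
    rw [← FreeGroup.mul_mk, ← FreeGroup.inv_mk, mul_inv_cancel]
    rfl
  rw [gw_append, gw_append, hu1, mul_one]
  refine Hom.trans _ _ _ _ (hom_append_left X b (gw M b v) _
    (gw M (b * ev M v) (FreeGroup.invRev v)) ?_) h0
  rw [fin_gw]
  generalize b * ev M v = c
  have h3 : ∀ (b : Artin M) (l m n : List (Set S × Artin M)), Hom X b l m →
      Hom X b (l ++ n) (m ++ n) := by
    intro b l m n h
    induction h with
    | refl b l => exact Hom.refl _ _
    | symm b l m _ ih => exact Hom.symm _ _ _ ih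
    | trans b l m n' _ _ ih1 ih2 => exact Hom.trans _ _ _ _ ih1 ih2
    | cons b x l m _ ih => exact Hom.cons _ _ _ _ ih
    | triv b T l hT => exact Hom.triv b T _ hT
    | comp b c d T l hT h h' => exact Hom.comp b c d T _ hT h h'
    | sub b c T T' l hT hT' hTT h => exact Hom.sub b c T T' _ hT hT' hTT h
  exact h3 c _ [] _ (hx.2 u hu c)

include hX in
theorem nul_of_mem (x : FreeGroup S) (hx : x ∈ Subgroup.normalClosure (artinRels M)) :
    Nul M X x := by
  unfold Subgroup.normalClosure at hx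
  induction hx using Subgroup.closure_induction with
  | mem x hx =>
    obtain ⟨r, hr, hrx⟩ := Group.mem_conjugatesOfSet_iff.1 hx
    obtain ⟨g, hg⟩ := isConj_iff.1 hrx
    rw [← hg]
    exact nul_conj M X hX r g ⟨PresentedGroup.one_of_mem hr, fun w hw b => hom_rel M X hX r hr w hw b⟩
  | one => exact nul_one M X hX
  | mul x y _ _ hx hy => exact nul_mul M X hX x y hx hy
  | inv x _ hx => exact nul_inv M X hX x hx

end ArtinSC

/-- the chamber system of an Artin group is simply connected -/
theorem artin_sc {S : Type} (M : CoxeterMatrix S) (X : Sys S (Artin M)) (hX : X.r = artinRel M) :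
    X.SC := by
  refine ⟨⟨1⟩, ?_, ?_⟩
  · intro a b
    obtain ⟨x, hx⟩ := PresentedGroup.mk_surjective (artinRels M) (a⁻¹ * b)
    obtain ⟨u, hu⟩ : ∃ u, FreeGroup.mk u = x := Quot.exists_rep x
    refine ⟨ArtinSC.gw M a u, ArtinSC.isGal_gw M X hX a u, ?_⟩
    rw [ArtinSC.fin_gw]
    unfold ArtinSC.ev
    rw [hu, hx, mul_inv_cancel_left]
  · intro a l hl hfin
    obtain ⟨w, hw, hwe⟩ := ArtinSC.hom_gal M X hX a l hl
    refine Hom.trans _ _ _ _ hw ?_
    rw [hfin] at hwe
    have h1 : ArtinSC.ev M w = 1 := mul_eq_left.1 hwe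
    unfold ArtinSC.ev at h1
    have h2 : FreeGroup.mk w ∈ Subgroup.normalClosure (artinRels M) :=
      (QuotientGroup.eq_one_iff _).1 h1
    exact (ArtinSC.nul_of_mem M X hX _ h2).2 w rfl a

end Pool.Agent.helper36.LT
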