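import Pool.Agent.helper36.LT.Main
import Pool.Agent.helper50.LT.Mem

set_option autoImplicit false

/-!
# Artin groups of large type
-/

namespace Pool.Agent.helper36.LT

theorem artin_mem {P : ∀ (G : Type) [Group G], Prop} (hP : Closed P)
    (hGL : ∀ (n K : Type) [Fintype n] [DecidableEq n] [Field K] [NumberField K], P (GL n K))
    (S : Type) (M : CoxeterMatrix S) (hM : ∀ s t, M.M s t ≠ 2) : P (Artin M) :=
  Pool.Agent.helper50.LT.artin_mem_of
    (fun hP _ hS G Q _ _ _ X hX hG f hf hQ => main_thm hP hS G _ Q X hX hG f hf hQ) hP hGL S M hM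

end Pool.Agent.helper36.LT
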