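import Pool.Agent.helper36.LT.Bfs4

set_option autoImplicit false

/-!
# Breadth first search in a simply connected chamber system of large type
-/

namespace Pool.Agent.helper36.LT

open Nd

variable {S B : Type}

theorem isGal_append {Y : Sys S B} {b : B} {l m : List (Set S × B)} :
    IsGal Y b (l ++ m) ↔ IsGal Y b l ∧ IsGal Y (fin b l) m := by
  induction l generalizing b with
  | nil => exact ⟨fun h => ⟨trivial, h⟩, fun h => h.2⟩
  | cons x l ih =>
    exact ⟨fun h => ⟨⟨h.1, h.2.1, (ih.1 h.2.2).1⟩, (ih.1 h.2.2).2⟩,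
      fun h => ⟨h.1.1, h.1.2.1, ih.2 ⟨h.1.2.2, h.2⟩⟩⟩

theorem fin_append {b : B} {l m : List (Set S × B)} : fin b (l ++ m) = fin (fin b l) m := by
  induction l generalizing b with
  | nil => rfl
  | cons x l ih => exact ih

theorem bfs (Y : Sys S B) (hS : ∃ s t : S, s ≠ t) (hY : Y.SC) : Nonempty (BFS Y) := by
  classical
  obtain ⟨⟨b0⟩, hconn, hsc⟩ := hY
  choose g hg hg' using fun b => hconn b0 b
  -- the node of a chamber
  let node : B → Nd S B := fun b => walk Y b0 root (g b)
  have hroot : ok Y b0 (root : Nd S B) ∧ isB (root : Nd S B) ∧ pos b0 (root : Nd S B) = b0 :=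
    ⟨trivial, trivial, rfl⟩
  have hnode : ∀ b, ok Y b0 (node b) ∧ isB (node b) ∧ pos b0 (node b) = b := by
    intro b
    obtain ⟨h1, h2, h3⟩ := walk_ok hS hroot.1 hroot.2.1 (hg b)
    exact ⟨h1, h2, h3.trans (hg' b)⟩
  have hwalk : ∀ l : List (Set S × B), IsGal Y b0 l → walk Y b0 root l = node (fin b0 l) := by
    intro l hl
    obtain ⟨m, hm, hm'⟩ := hconn (fin b0 l) b0
    obtain ⟨h1, h2, h3⟩ := walk_ok hS hroot.1 hroot.2.1 hl
    obtain ⟨h4, h5, h6⟩ := hnode (fin b0 l)
    refine walk_inj hS (l := m) h1 h2 h4 h5 (h3.trans h6.symm) (by rw [h3]; exact hm) ?_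
    rw [← walk_append, ← walk_append]
    have k1 : IsGal Y b0 (l ++ m) := isGal_append.2 ⟨hl, hm⟩
    have k2 : IsGal Y b0 (g (fin b0 l) ++ m) := isGal_append.2 ⟨hg _, by rw [hg']; exact hm⟩
    have k3 : fin b0 (l ++ m) = b0 := by rw [fin_append, hm']
    have k4 : fin b0 (g (fin b0 l) ++ m) = b0 := by rw [fin_append, hg', hm']
    rw [walk_hom hS (hsc b0 _ k1 k3) root hroot.1 hroot.2.1 rfl k1,
      walk_hom hS (hsc b0 _ k2 k4) root hroot.1 hroot.2.1 rfl k2]
  have hstep : ∀ (T : Set S) (b b' : B), IsTy T → Y.r T b b' →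
      node b' = step Y b0 (node b) T b' := by
    intro T b b' hT hr
    have k1 : IsGal Y b0 (g b ++ [(T, b')]) :=
      isGal_append.2 ⟨hg b, hT, by rw [hg' b]; exact hr, trivial⟩
    have k2 := hwalk _ k1
    rw [fin_append, walk_append] at k2
    exact k2.symm
  -- the node of a chamber in the same class
  have hcls : ∀ (e : Set S) (b b' : B), IsE e → Y.r e b b' →
      node b' = at' Y b0 (cls Y b0 (node b) e) b' := by
    intro e b b' he hr
    obtain ⟨h1, h2, h3⟩ := hnode b
    rw [hstep e b b' he.isTy hr]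
    exact step_eq h1 h2 he.isTy he subset_rfl (by rw [h3]; exact hr)
  have hpan : ∀ (e : Set S) (s : S) (b b' : B), IsE e → s ∈ e → Y.r {s} b b' →
      node b' = at' Y b0 (cls Y b0 (node b) e) b' :=
    fun e s b b' he hs hr => hcls e b b' he (Sys.r1_r he hs hr)
  have hb0 : node b0 = root := (hwalk [] trivial).symm
  have hroot_iff : ∀ b, node b = root → b = b0 := by
    intro b h
    have := (hnode b).2.2
    rw [h] at this
    exact this.symm
  have hvert_pos : ∀ b l s x, node b = vert l s x → x = b := by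
    intro b l s x h
    have := (hnode b).2.2
    rw [h] at this
    exact this
  have hedge_pos : ∀ b c x, node b = edge c x → x = b := by
    intro b c x h
    have := (hnode b).2.2
    rw [h] at this
    exact this
  have exE : ∀ s : S, ∃ e, IsE e ∧ s ∈ e := by
    intro s
    obtain ⟨e, he, h⟩ := exists_e hS (isTy_single s)
    exact ⟨e, he, h rfl⟩
  have pair_cases : ∀ {s t u v : S}, s ≠ t → ({s, t} : Set S) = {u, v} →
      (s = u ∧ t = v) ∨ (s = v ∧ t = u) := by
    intro s t u v hst h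
    have h1 : s ∈ ({u, v} : Set S) := h ▸ Or.inl rfl
    have h2 : t ∈ ({u, v} : Set S) := h ▸ Or.inr rfl
    rcases h1 with h1 | h1 <;> rcases h2 with h2 | h2
    · exact absurd (h1.trans h2.symm) hst
    · exact Or.inl ⟨h1, h2⟩
    · exact Or.inr ⟨h1, h2⟩
    · exact absurd ((h1 : s = v).trans (h2 : t = v).symm) hst
  -- gates
  have hgate : ∀ (g : B) (s : S), (g = b0 ∨ ∃ u v, (u ≠ v ∧ ∃ c x, node g = edge c x ∧
      c.ty = {u, v}) ∧ s ≠ u ∧ s ≠ v) → Gate (node g) s := by
    rintro g s (rfl | ⟨u, v, ⟨_, c, x, h1, h2⟩, h3, h4⟩)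
    · rw [hb0]
      exact Or.inl rfl
    · rw [h1]
      refine Or.inr ⟨c, x, rfl, ?_⟩
      rw [h2]
      rintro (h | h)
      · exact h3 h
      · exact h4 h
  refine ⟨{
    b0 := b0
    lev := fun b => lvl (node b)
    Ed := fun b s t => s ≠ t ∧ ∃ c x, node b = edge c x ∧ c.ty = {s, t}
    Ve := fun b s => ∃ l x, node b = vert l s x
    lev0 := ?_
    ed_symm := ?_
    ed_ne := fun b s t h => h.1
    ed_uniq := ?_
    ve_uniq := ?_
    ed_ve := ?_
    ed_b0 := ?_
    ve_b0 := ?_
    state := ?_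
    flat_ed := ?_
    flat_ve := ?_
    ve_gate := ?_
    gate_ve := ?_
    ed_low := ?_
    low := ?_
    low3 := ?_
    low2 := ?_
    low1 := ?_ }⟩
  · -- lev0
    intro b
    constructor
    · intro h
      apply hroot_iff
      have h2 := (hnode b).2.1
      cases hz : node b with
      | root => rfl
      | vert l s x => rw [hz] at h; exact absurd h (Nat.succ_ne_zero _)
      | edge c x => rw [hz] at h; exact absurd h (Nat.succ_ne_zero _)
      | c3 l e => rw [hz] at h2; exact h2.elim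
      | c2 l e => rw [hz] at h2; exact h2.elim
      | c1 c s U e => rw [hz] at h2; exact h2.elim
    · rintro rfl
      rw [hb0]
      rfl
  · rintro b s t ⟨h, c, x, h1, h2⟩
    exact ⟨h.symm, c, x, h1, h2.trans (Set.pair_comm _ _)⟩
  · rintro b s t u v ⟨h, c, x, h1, h2⟩ ⟨h', c', x', h1', h2'⟩
    rw [h1] at h1'
    cases h1'
    exact pair_cases h (h2.symm.trans h2')
  · rintro b s t ⟨l, x, h⟩ ⟨l', x', h'⟩
    rw [h] at h'
    cases h'
    rfl
  · rintro b s t u ⟨_, c, x, h, _⟩ ⟨l', x', h'⟩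
    rw [h] at h'
    cases h'
  · rintro s t ⟨_, c, x, h, _⟩
    rw [hb0] at h
    cases h
  · rintro s ⟨l, x, h⟩
    rw [hb0] at h
    cases h
  · -- state
    intro b hb
    obtain ⟨h1, h2, h3⟩ := hnode b
    cases hz : node b with
    | root => exact absurd (hroot_iff b hz) hb
    | vert l s x => exact Or.inr ⟨s, l, x, rfl⟩
    | edge c x =>
      rw [hz] at h1
      obtain ⟨s, t, hst, h⟩ := h1.1.isE h1.2.1
      exact Or.inl ⟨s, t, hst, c, x, rfl, h⟩
    | c3 l e => rw [hz] at h2; exact h2.elim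
    | c2 l e => rw [hz] at h2; exact h2.elim
    | c1 c s U e => rw [hz] at h2; exact h2.elim
  · -- flat_ed
    rintro b b' s w ⟨hsw, c, x, h1, h2⟩ hr
    have hx := hedge_pos _ _ _ h1
    subst hx
    obtain ⟨hok, _, _⟩ := hnode x
    rw [h1] at hok
    obtain ⟨k1, k2, k3, k4⟩ := id hok
    have hs : s ∈ c.ty := by rw [h2]; exact Or.inl rfl
    have h3 : node b' = at' Y b0 c b' := by
      rw [hcls c.ty x b' (k1.isE k2) (Sys.r1_r (k1.isE k2) hs hr), h1, cls_edge_same]
    have hlow : b' ∉ low Y b0 c := fun h => k4 ⟨(s, b'), hs, h, Sys.symm1 hr⟩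
    refine ⟨?_, ?_⟩
    · show lvl (node b') = lvl (node x)
      rw [h3, h1, at'_lvl_not k1 k2 hlow]
      rfl
    · rcases at'_cases k1 k2 b' with ⟨h4, _⟩ | ⟨_, t, p, ht, hp, hpr, h5⟩ | ⟨_, h5⟩
      · exact absurd h4 hlow
      · right
        have htw : t = w := by
          rw [h2] at ht
          rcases ht with ht | ht
          · have ht : t = s := ht
            subst ht
            exact absurd ⟨(t, p), hs, hp, Sys.trans1 hpr (Sys.symm1 hr)⟩ k4
          · exact ht
        subst htw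
        exact ⟨_, _, h3.trans h5⟩
      · left
        exact ⟨hsw, c, b', h3.trans h5, h2⟩
  · -- flat_ve
    rintro b b' s w ⟨l, x, h1⟩ hsw hr hb
    have hx := hvert_pos _ _ _ _ h1
    subst hx
    obtain ⟨hok, _, _⟩ := hnode x
    rw [h1] at hok
    have hE : IsE ({s, w} : Set S) := ⟨s, w, hsw, rfl⟩
    have h3 : node b' = edge (cls Y b0 (vert l w x) {s, w}) b' := by
      rw [hpan {s, w} s x b' hE (Or.inl rfl) hr, h1]
      exact panel_flat_vert hok hsw hE (Or.inl rfl) hr hb
    obtain ⟨_, _, _, h4⟩ := (stmt Y b0 _).cls_vert l w x rfl hok _ hE (Or.inr rfl)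
    refine ⟨?_, hsw, _, _, h3, ((stmt Y b0 _).cls_ok hok trivial _ hE).2.2.1⟩
    show lvl (node b') = lvl (node x)
    rw [h3, h1]
    show lvl _ + 1 = lvl l + 1
    rw [h4]
  · -- ve_gate
    rintro b s ⟨l, x, h1⟩
    have hx := hvert_pos _ _ _ _ h1
    subst hx
    obtain ⟨hok, _, _⟩ := hnode x
    rw [h1] at hok
    obtain ⟨k1, k2, k3, k4⟩ := id hok
    obtain ⟨e, he, hs⟩ := exE s
    have hr : Y.r {s} x (pos b0 l) := Sys.symm1 k3
    have h3 : node (pos b0 l) = l := by
      rw [hpan e s x (pos b0 l) he hs hr, h1]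
      exact panel_vert_pos hok he hs
    refine ⟨pos b0 l, hr, ?_, ?_⟩
    · show lvl (node x) = lvl (node (pos b0 l)) + 1
      rw [h3, h1]
      rfl
    · rcases k2 with rfl | ⟨c, y, rfl, hc⟩
      · exact Or.inl rfl
      · right
        obtain ⟨u, v, huv, h4⟩ := k1.1.isE k1.2.1
        refine ⟨u, v, ⟨huv, c, y, h3, h4⟩, ?_, ?_⟩
        · rintro rfl
          exact hc (by rw [h4]; exact Or.inl rfl)
        · rintro rfl
          exact hc (by rw [h4]; exact Or.inr rfl)
  · -- gate_ve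
    rintro g' b s hg1 hr hb
    have hG := hgate g' s hg1
    obtain ⟨k1, k2, k3⟩ := hnode g'
    obtain ⟨e, he, hs⟩ := exE s
    have h3 : node b = vert (node g') s b := by
      rw [hpan e s g' b he hs hr]
      exact panel_gate k1 hG he hs (by rw [k3]; exact hr) (by rw [k3]; exact hb)
    refine ⟨?_, _, _, h3⟩
    show lvl (node b) = lvl (node g') + 1
    rw [h3]
    rfl
  · -- ed_low
    rintro b s t ⟨hst, c, x, h1, h2⟩
    have hx := hedge_pos _ _ _ h1
    subst hx
    obtain ⟨hok, _, _⟩ := hnode x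
    rw [h1] at hok
    obtain ⟨k1, k2, k3, k4⟩ := id hok
    obtain ⟨p, hp, hpr⟩ := id k3
    have hE := k1.isE k2
    have hr : Y.r c.ty x p := Y.symm _ _ _ hE.isTy hpr
    refine ⟨p, by rw [← h2]; exact hr, ?_⟩
    show lvl (node x) = lvl (node p) + 1
    rw [hcls c.ty x p hE hr, h1, cls_edge_same, at'_lvl_low k1 k2 hp]
    rfl
  · -- low
    intro b b' s t hst h1 h2 h3 hr
    obtain ⟨k1, k2, k3⟩ := hnode b
    have hE : IsE ({s, t} : Set S) := ⟨s, t, hst, rfl⟩
    have hup : Up (node b) {s, t} := by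
      rcases up_or k2 ({s, t} : Set S) with h | ⟨l, w, x, h, h'⟩ | ⟨c, x, h, h'⟩
      · exact h
      · exfalso
        rcases h' with h' | h'
        · have h' : w = s := h'
          subst h'
          exact h2 ⟨_, _, h⟩
        · have h' : w = t := h'
          subst h'
          exact h3 ⟨_, _, h⟩
      · exact absurd ⟨hst, c, x, h, h'.symm⟩ h1
    obtain ⟨k4, k5, k6, k7⟩ := (stmt Y b0 _).cls_ok k1 k2 _ hE
    obtain ⟨k8, k9, k10⟩ := (stmt Y b0 _).cls_up k1 k2 _ hE hup
    show lvl (node b) ≤ lvl (node b') ∧ lvl (node b') ≤ lvl (node b) + 1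
    rw [hcls _ b b' hE hr, ← k10]
    by_cases hb : b' ∈ low Y b0 (cls Y b0 (node b) {s, t})
    · rw [at'_lvl_low k4 k5 hb]
      exact ⟨le_rfl, Nat.le_succ _⟩
    · rw [at'_lvl_not k4 k5 hb]
      exact ⟨Nat.le_succ _, le_rfl⟩
  · -- low3
    intro b b' s t hst h hr hlev
    obtain ⟨k1, k2, k3⟩ := hnode b
    have hE : IsE ({s, t} : Set S) := ⟨s, t, hst, rfl⟩
    have hc3 : cls Y b0 (node b) {s, t} = c3 (node b) {s, t} := by
      rcases h with rfl | ⟨u, v, ⟨huv, c, x, h4, h5⟩, h6, h7, h8, h9⟩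
      · rw [hb0]
        rfl
      · rw [h4]
        apply cls_edge_disj hE
        intro y hy hy'
        rw [h5] at hy'
        rcases hy with hy | hy <;> rcases hy' with hy' | hy'
        · exact h6 (Eq.trans (Eq.symm hy) hy')
        · exact h7 (Eq.trans (Eq.symm hy) hy')
        · exact h8 (Eq.trans (Eq.symm hy) hy')
        · exact h9 (Eq.trans (Eq.symm hy) hy')
    obtain ⟨k4, k5, k6, k7⟩ := (stmt Y b0 _).cls_ok k1 k2 _ hE
    rw [hc3] at k4 k5 k6 k7
    by_contra hne
    have hb : b' ∉ low Y b0 (c3 (node b) {s, t}) := by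
      intro h
      exact hne ((h : b' = pos b0 (node b)).trans k3)
    have hlev : lvl (node b') = lvl (node b) := hlev
    rw [hcls _ b b' hE hr, hc3, at'_lvl_not k4 k5 hb] at hlev
    exact absurd hlev (Nat.succ_ne_self _)
  · -- low2
    rintro b b' s t w hst ⟨l, x, h1⟩ hws hwt hr hlev
    have hx := hvert_pos _ _ _ _ h1
    subst hx
    obtain ⟨k1, k2, k3⟩ := hnode x
    have hE : IsE ({s, t} : Set S) := ⟨s, t, hst, rfl⟩
    have hw : w ∉ ({s, t} : Set S) := by
      rintro (h | h)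
      · exact hws h
      · exact hwt h
    have hc2 : cls Y b0 (node x) {s, t} = c2 (vert l w x) {s, t} := by
      rw [h1]
      exact cls_vert_not hw
    obtain ⟨k4, k5, k6, k7⟩ := (stmt Y b0 _).cls_ok k1 k2 _ hE
    rw [hc2] at k4 k5 k6 k7
    have hb : b' ∈ low Y b0 (c2 (vert l w x) {s, t}) := by
      by_contra hb
      have hlev : lvl (node b') = lvl (node x) := hlev
      rw [hcls _ x b' hE hr, hc2, at'_lvl_not k4 k5 hb, h1] at hlev
      exact absurd hlev (Nat.succ_ne_self _)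
    obtain ⟨v, hv, hv'⟩ := hb
    rcases hv with hv | hv
    · have hv : v = s := hv
      subst hv
      exact Or.inl hv'
    · have hv : v = t := hv
      subst hv
      exact Or.inr hv'
  · -- low1
    rintro b b' s t w hst ⟨hsw, c, x, h1, h2⟩ hwt hnv hr hlev
    have hx := hedge_pos _ _ _ h1
    subst hx
    obtain ⟨k1, k2, k3⟩ := hnode x
    have hok := k1
    rw [h1] at hok
    obtain ⟨j1, j2, j3, j4⟩ := id hok
    have hE : IsE ({s, t} : Set S) := ⟨s, t, hst, rfl⟩
    have hs : s ∈ c.ty := by rw [h2]; exact Or.inl rfl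
    have hne : ({s, t} : Set S) ≠ c.ty := by
      rw [h2]
      intro h
      have ht : t ∈ ({s, w} : Set S) := h ▸ Or.inr rfl
      rcases ht with ht | ht
      · exact hst (Eq.symm ht)
      · exact hwt (Eq.symm ht)
    rcases edge_cases (stmt Y b0 c) hok hE hne with ⟨h7, h8⟩ | ⟨u, hu, hu', h7, h8⟩ |
          ⟨u, hu, hu', w', p, b2, hw', hwe', huw, hp, hub, hb2l, hr2, hbb, hok2, hat, h8⟩
    · exact absurd hs (h7 s (Or.inl rfl))
    · have hus : u = s := inter_uniq hE (j1.isE j2) hne hu hu' (Or.inl rfl) hs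
      subst hus
      obtain ⟨k4, k5, k6, k7⟩ := (stmt Y b0 _).cls_ok k1 k2 _ hE
      rw [h1, h8] at k4 k5
      by_contra hb
      have hb' : b' ∉ low Y b0 (c1 c u {b' | Y.r {u} x b'} {u, t}) := hb
      have hlev : lvl (node b') = lvl (node x) := hlev
      rw [hcls _ x b' hE hr, h1, h8, at'_lvl_not k4 k5 hb'] at hlev
      exact absurd hlev (Nat.succ_ne_self _)
    · exfalso
      have hus : u = s := inter_uniq hE (j1.isE j2) hne hu hu' (Or.inl rfl) hs
      subst hus
      have hww : w' = w := by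
        rw [h2] at hw'
        rcases hw' with h | h
        · exact absurd (Eq.symm h) huw
        · exact h
      subst hww
      apply hnv b2 hub
      refine ⟨ln Y b0 c p, b2, ?_⟩
      rw [hcls c.ty x b2 (j1.isE j2) (Sys.r1_r (j1.isE j2) hs hub), h1, cls_edge_same]
      exact hat

end Pool.Agent.helper36.LT
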