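import Pool.Agent.helper36.LT.Structs

set_option autoImplicit false

/-!
# Breadth first search in a chamber system of large type: nodes
-/

namespace Pool.Agent.helper36.LT

variable {S B : Type}

theorem isTy_empty : IsTy (∅ : Set S) := Or.inl rfl

theorem isTy_single (s : S) : IsTy ({s} : Set S) := Or.inr (Or.inl ⟨s, rfl⟩)

theorem isTy_pair {s t : S} (h : s ≠ t) : IsTy ({s, t} : Set S) := Or.inr (Or.inr ⟨s, t, h, rfl⟩)

/-- rank two types -/
def IsE (e : Set S) : Prop := ∃ s t, s ≠ t ∧ e = {s, t}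

theorem IsE.isTy {e : Set S} (h : IsE e) : IsTy e := Or.inr (Or.inr h)

/-- the two elements of a rank two type -/
theorem IsE.other {e : Set S} (h : IsE e) {s : S} (hs : s ∈ e) : ∃ t, s ≠ t ∧ e = {s, t} := by
  obtain ⟨a, b, hab, rfl⟩ := h
  rcases hs with rfl | hs
  · exact ⟨b, hab, rfl⟩
  · have : s = b := hs
    subst this
    exact ⟨a, hab.symm, Set.pair_comm _ _⟩

theorem IsE.single_sub {e : Set S} {s : S} (hs : s ∈ e) : ({s} : Set S) ⊆ e :=
  Set.singleton_subset_iff.2 hs

theorem IsE.eq_pair {e : Set S} (h : IsE e) {s t : S} (hs : s ∈ e) (ht : t ∈ e) (hst : s ≠ t) :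
    e = {s, t} := by
  obtain ⟨u, hu, rfl⟩ := h.other hs
  rcases ht with ht | ht
  · exact absurd ht.symm hst
  · have : t = u := ht
    rw [this]

theorem Sys.r1_r {Y : Sys S B} {e : Set S} (he : IsE e) {s : S} (hs : s ∈ e) {b c : B}
    (h : Y.r {s} b c) : Y.r e b c :=
  Y.mono _ _ _ _ (IsE.single_sub hs) (isTy_single s) he.isTy h

theorem Sys.refl1 (Y : Sys S B) (s : S) (b : B) : Y.r {s} b b := Y.refl _ _ (isTy_single s)

theorem Sys.symm1 {Y : Sys S B} {s : S} {b c : B} (h : Y.r {s} b c) : Y.r {s} c b :=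
  Y.symm _ _ _ (isTy_single s) h

theorem Sys.trans1 {Y : Sys S B} {s : S} {b c d : B} (h : Y.r {s} b c) (h' : Y.r {s} c d) :
    Y.r {s} b d := Y.trans _ _ _ _ (isTy_single s) h h'

/-! ## Shapes of the low part of a rank two class -/

/-- the possible shapes: a chamber, a panel, or two panels with a common chamber -/
def Shape (Y : Sys S B) (e : Set S) (L : Set B) : Prop :=
  (∃ l, L = {l}) ∨ (∃ s l, s ∈ e ∧ L = {b | Y.r {s} l b}) ∨ ∃ l, L = {b | ∃ s ∈ e, Y.r {s} l b}

theorem Shape.rel {Y : Sys S B} {e : Set S} {L : Set B} (he : IsE e) (hL : Shape Y e L) {p q : B}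
    (hp : p ∈ L) (hq : q ∈ L) : Y.r e p q := by
  rcases hL with ⟨l, rfl⟩ | ⟨s, l, hs, rfl⟩ | ⟨l, rfl⟩
  · have h1 : p = l := hp
    have h2 : q = l := hq
    rw [h1, h2]
    exact Y.refl _ _ he.isTy
  · exact Sys.r1_r he hs (Sys.trans1 (Sys.symm1 hp) hq)
  · obtain ⟨s, hs, hp⟩ := hp
    obtain ⟨t, ht, hq⟩ := hq
    exact Y.trans _ _ _ _ he.isTy (Sys.r1_r he hs (Sys.symm1 hp)) (Sys.r1_r he ht hq)

/-- uniqueness of the gate of a chamber adjacent to the low part -/
theorem Shape.gate {Y : Sys S B} {e : Set S} {L : Set B} (he : IsE e) (hL : Shape Y e L)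
    {b p p' : B} {s s' : S} (hs : s ∈ e) (hs' : s' ∈ e) (hp : p ∈ L) (hp' : p' ∈ L) (hb : b ∉ L)
    (h : Y.r {s} p b) (h' : Y.r {s'} p' b) : s = s' ∧ p = p' := by
  rcases hL with ⟨l, rfl⟩ | ⟨u, l, hu, rfl⟩ | ⟨l, rfl⟩
  · have h1 : p = l := hp
    have h2 : p' = l := hp'
    subst h1
    subst h2
    refine ⟨?_, rfl⟩
    by_contra hne
    have := Y.two _ _ _ _ hne h h'
    exact hb this.symm
  · have hsu : s ≠ u := by
      rintro rfl
      exact hb (Sys.trans1 hp h)
    have hsu' : s' ≠ u := by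
      rintro rfl
      exact hb (Sys.trans1 hp' h')
    have hss : s = s' := by
      obtain ⟨t, ht, rfl⟩ := he.other hu
      rcases hs with hs | hs
      · exact absurd hs hsu
      · rcases hs' with hs' | hs'
        · exact absurd hs' hsu'
        · exact (hs : s = t).trans (hs' : s' = t).symm
    subst hss
    exact ⟨rfl, Y.two _ _ _ _ hsu (Sys.trans1 h (Sys.symm1 h')) (Sys.trans1 (Sys.symm1 hp) hp')⟩
  · obtain ⟨u, hu, hp1⟩ := hp
    obtain ⟨u', hu', hp1'⟩ := hp'
    have hsu : s ≠ u := by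
      rintro rfl
      exact hb ⟨s, hs, Sys.trans1 hp1 h⟩
    have hsu' : s' ≠ u' := by
      rintro rfl
      exact hb ⟨s', hs', Sys.trans1 hp1' h'⟩
    by_cases huu : u = u'
    · subst huu
      have hss : s = s' := by
        obtain ⟨t, ht, rfl⟩ := he.other hu
        rcases hs with hs | hs
        · exact absurd hs hsu
        · rcases hs' with hs' | hs'
          · exact absurd hs' hsu'
          · exact (hs : s = t).trans (hs' : s' = t).symm
      subst hss
      exact ⟨rfl, Y.two _ _ _ _ hsu (Sys.trans1 h (Sys.symm1 h'))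
        (Sys.trans1 (Sys.symm1 hp1) hp1')⟩
    · exfalso
      have he' : e = {u, u'} := he.eq_pair hu hu' huu
      have h1 : s = u' := by
        rw [he'] at hs
        rcases hs with hs | hs
        · exact absurd hs hsu
        · exact hs
      have h2 : s' = u := by
        rw [he'] at hs'
        rcases hs' with hs' | hs'
        · exact hs'
        · exact absurd hs' hsu'
      subst h1
      subst h2
      -- b ~s p ~s' l ~s p' ~s' b
      rcases Y.four s s' b p l p' hsu (Sys.symm1 h) (Sys.symm1 hp1) hp1' h' with h3 | h3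
      · exact hb ⟨s', hu, h3 ▸ hp1⟩
      · subst h3
        exact hb ⟨s, hs, h⟩

/-- a panel disjoint from the low part contains at most one chamber adjacent to it -/
theorem Shape.unique {Y : Sys S B} {e : Set S} {L : Set B} (he : IsE e) (hL : Shape Y e L)
    {b b' p p' : B} {u s s' : S} (hu : u ∈ e) (hs : s ∈ e) (hs' : s' ∈ e) (hp : p ∈ L)
    (hp' : p' ∈ L) (hV : ∀ x, Y.r {u} b x → x ∉ L)
    (h : Y.r {s} p b) (h' : Y.r {s'} p' b') (hb : Y.r {u} b b') : b = b' := by
  have hsu : s ≠ u := by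
    rintro rfl
    exact hV _ (Sys.symm1 h) hp
  have hsu' : s' ≠ u := by
    rintro rfl
    exact hV _ (Sys.trans1 hb (Sys.symm1 h')) hp'
  have hss : s = s' := by
    obtain ⟨t, ht, rfl⟩ := he.other hu
    rcases hs with hs | hs
    · exact absurd hs hsu
    · rcases hs' with hs' | hs'
      · exact absurd hs' hsu'
      · exact (hs : s = t).trans (hs' : s' = t).symm
  subst hss
  rcases hL with ⟨l, rfl⟩ | ⟨v, l, hv, rfl⟩ | ⟨l, rfl⟩
  · have h1 : p = l := hp
    have h2 : p' = l := hp'
    subst h1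
    subst h2
    exact Y.two _ _ _ _ hsu (Sys.trans1 (Sys.symm1 h) h') hb
  · have hvu : v = u := by
      by_contra hne
      have h3 : v = s := by
        have := he.eq_pair hs hu hsu
        rw [this] at hv
        rcases hv with hv | hv
        · exact hv
        · exact absurd hv hne
      subst h3
      exact hV b (Y.refl1 _ _) (Sys.trans1 hp h)
    subst hvu
    have h3 : Y.r {v} p' p := Sys.trans1 (Sys.symm1 hp') hp
    rcases Y.four s v p b b' p' hsu h hb (Sys.symm1 h') h3 with h4 | h4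
    · exact absurd (h4 ▸ hp) (hV b (Y.refl1 _ _))
    · exact h4
  · obtain ⟨v, hv, hp1⟩ := hp
    obtain ⟨v', hv', hp1'⟩ := hp'
    have hvu : v = u := by
      by_contra hne
      have h3 : v = s := by
        have := he.eq_pair hs hu hsu
        rw [this] at hv
        rcases hv with hv | hv
        · exact hv
        · exact absurd hv hne
      subst h3
      exact hV b (Y.refl1 _ _) ⟨v, hv, Sys.trans1 hp1 h⟩
    have hvu' : v' = u := by
      by_contra hne
      have h3 : v' = s := by
        have := he.eq_pair hs hu hsu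
        rw [this] at hv'
        rcases hv' with hv' | hv'
        · exact hv'
        · exact absurd hv' hne
      subst h3
      exact hV b' hb ⟨v', hv', Sys.trans1 hp1' h'⟩
    subst hvu
    subst hvu'
    have h3 : Y.r {v'} p' p := Sys.trans1 (Sys.symm1 hp1') hp1
    rcases Y.four s v' p b b' p' hsu h hb (Sys.symm1 h') h3 with h4 | h4
    · exact absurd ⟨v', hv', h4 ▸ hp1⟩ (hV b (Y.refl1 _ _))
    · exact h4

end Pool.Agent.helper36.LT
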