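import Pool.Agent.helper36.LT.Bfs1

set_option autoImplicit false

/-!
# Breadth first search in a chamber system of large type: the tree of nodes
-/

namespace Pool.Agent.helper36.LT

/-- nodes: `root`, `vert l s b`, `edge c b` are chamber nodes, `c3 l e`, `c2 l e`, `c1 c s U e` are
class nodes -/
inductive Nd (S B : Type)
  | root : Nd S B
  | vert (l : Nd S B) (s : S) (b : B) : Nd S B
  | edge (c : Nd S B) (b : B) : Nd S B
  | c3 (l : Nd S B) (e : Set S) : Nd S B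
  | c2 (l : Nd S B) (e : Set S) : Nd S B
  | c1 (c : Nd S B) (s : S) (U : Set B) (e : Set S) : Nd S B

namespace Nd

variable {S B : Type}

/-- position of a chamber node -/
def pos (b0 : B) : Nd S B → B
  | root => b0
  | vert _ _ b => b
  | edge _ b => b
  | _ => b0

/-- type of a class node -/
def ty : Nd S B → Set S
  | c3 _ e => e
  | c2 _ e => e
  | c1 _ _ _ e => e
  | _ => ∅

/-- vertex state -/
def vs : Nd S B → Set S
  | vert _ s _ => {s}
  | _ => ∅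

/-- chamber nodes -/
def isB : Nd S B → Prop
  | root => True
  | vert _ _ _ => True
  | edge _ _ => True
  | _ => False

/-- class nodes -/
def isC : Nd S B → Prop
  | c3 _ _ => True
  | c2 _ _ => True
  | c1 _ _ _ _ => True
  | _ => False

/-- level -/
def lvl : Nd S B → ℕ
  | root => 0
  | vert l _ _ => lvl l + 1
  | edge c _ => lvl c + 1
  | c3 l _ => lvl l
  | c2 l _ => lvl l
  | c1 c _ _ _ => lvl c + 1

/-- low part of the class -/
def low (Y : Sys S B) (b0 : B) : Nd S B → Set B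
  | c3 l _ => {pos b0 l}
  | c2 l e => {b | ∃ s ∈ e, Y.r {s} (pos b0 l) b}
  | c1 _ _ U _ => U
  | _ => ∅

/-- the chambers of the class -/
def car (Y : Sys S B) (b0 : B) (c : Nd S B) : Set B := {b | ∃ p ∈ low Y b0 c, Y.r c.ty p b}

/-- adjacent to the low part -/
def Adj (Y : Sys S B) (b0 : B) (c : Nd S B) (b : B) : Prop :=
  ∃ x : S × B, x.1 ∈ c.ty ∧ x.2 ∈ low Y b0 c ∧ Y.r {x.1} x.2 b

/-- `l` is a gate of type `s` -/
def Gate (l : Nd S B) (s : S) : Prop := l = root ∨ ∃ c b, l = edge c b ∧ s ∉ c.ty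

open Classical in
/-- the node of the chamber `b` of the class `c`, in terms of the nodes of the low chambers -/
noncomputable def atF (Y : Sys S B) (b0 : B) (f : B → Nd S B) (c : Nd S B) (b : B) : Nd S B :=
  if b ∈ low Y b0 c then f b
  else if h : Adj Y b0 c b then vert (f h.choose.2) h.choose.1 b
  else edge c b

open Classical in
/-- the two basic functions: `(F z).1 e` is the class of type `e` of the chamber node `z`, and
`(F c).2 b` is the node of the low chamber `b` of the class `c` -/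
noncomputable def F (Y : Sys S B) (b0 : B) : Nd S B → (Set S → Nd S B) × (B → Nd S B)
  | root => (fun e => c3 root e, fun _ => root)
  | vert l s b => (fun e => if s ∈ e then (F Y b0 l).1 e else c2 (vert l s b) e, fun _ => root)
  | edge c b => (fun e =>
      if e = c.ty then c
      else if h : ∃ u, u ∈ e ∧ u ∈ c.ty then
        if h' : ∃ b1, Y.r {h.choose} b b1 ∧ Adj Y b0 c b1 then
          c2 (atF Y b0 (F Y b0 c).2 c h'.choose) e
        else c1 c h.choose {b' | Y.r {h.choose} b b'} e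
      else c3 (edge c b) e, fun _ => root)
  | c3 l _ => (fun _ => root, fun _ => l)
  | c2 l e => (fun _ => root, fun b =>
      if b = pos b0 l then l
      else if h : ∃ s, s ∈ e ∧ Y.r {s} (pos b0 l) b then
        edge ((F Y b0 l).1 (insert h.choose (vs l))) b
      else l)
  | c1 c _ _ _ => (fun _ => root, fun b => edge c b)

/-- the class of type `e` of `z` -/
noncomputable def cls (Y : Sys S B) (b0 : B) (z : Nd S B) (e : Set S) : Nd S B := (F Y b0 z).1 e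

/-- the node of a low chamber -/
noncomputable def ln (Y : Sys S B) (b0 : B) (c : Nd S B) (b : B) : Nd S B := (F Y b0 c).2 b

/-- the node of a chamber of the class `c` -/
noncomputable def at' (Y : Sys S B) (b0 : B) (c : Nd S B) (b : B) : Nd S B :=
  atF Y b0 (ln Y b0 c) c b

/-- valid nodes -/
def ok (Y : Sys S B) (b0 : B) : Nd S B → Prop
  | root => True
  | vert l s b => ok Y b0 l ∧ Gate l s ∧ Y.r {s} (pos b0 l) b ∧ b ≠ pos b0 l
  | edge c b => ok Y b0 c ∧ isC c ∧ b ∈ car Y b0 c ∧ ¬ Adj Y b0 c b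
  | c3 l e => ok Y b0 l ∧ IsE e ∧ ∀ s ∈ e, Gate l s
  | c2 l e => ok Y b0 l ∧ IsE e ∧ ∃ l0 w b, l = vert l0 w b ∧ w ∉ e
  | c1 c s U e => ok Y b0 c ∧ isC c ∧ IsE e ∧ s ∈ e ∧ s ∈ c.ty ∧ e ≠ c.ty ∧
      ∃ b, U = {b' | Y.r {s} b b'} ∧ b ∈ car Y b0 c ∧ ∀ b', Y.r {s} b b' → ¬ Adj Y b0 c b'

variable {Y : Sys S B} {b0 : B}

theorem Gate.isB {l : Nd S B} {s : S} (h : Gate l s) : isB l := by
  rcases h with rfl | ⟨c, b, rfl, _⟩ <;> trivial

theorem ok.isE {c : Nd S B} (h : ok Y b0 c) (hc : isC c) : IsE c.ty := by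
  cases c with
  | c3 l e => exact h.2.1
  | c2 l e => exact h.2.1
  | c1 c s U e => exact h.2.2.1
  | _ => exact hc.elim

theorem ok.shape {c : Nd S B} (h : ok Y b0 c) (hc : isC c) : Shape Y c.ty (low Y b0 c) := by
  cases c with
  | c3 l e => exact Or.inl ⟨_, rfl⟩
  | c2 l e => exact Or.inr (Or.inr ⟨_, rfl⟩)
  | c1 c s U e =>
    obtain ⟨b, hU, _⟩ := h.2.2.2.2.2.2
    exact Or.inr (Or.inl ⟨s, b, h.2.2.2.1, hU⟩)
  | _ => exact hc.elim

theorem not_adj_low {c : Nd S B} (h : ok Y b0 c) (hc : isC c) {b : B} (hb : ¬ Adj Y b0 c b) :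
    b ∉ low Y b0 c := by
  intro hb'
  obtain ⟨s, t, _, he⟩ := h.isE hc
  exact hb ⟨(s, b), by rw [he]; exact Or.inl rfl, hb', Y.refl1 _ _⟩

theorem mem_car_of_low {c : Nd S B} (h : ok Y b0 c) (hc : isC c) {b : B} (hb : b ∈ low Y b0 c) :
    b ∈ car Y b0 c := ⟨b, hb, Y.refl _ _ (h.isE hc).isTy⟩

theorem mem_car_of_rel {c : Nd S B} (h : ok Y b0 c) (hc : isC c) {b b' : B}
    (hb : b ∈ car Y b0 c) (hbb : Y.r c.ty b b') : b' ∈ car Y b0 c := by
  obtain ⟨p, hp, hp'⟩ := hb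
  exact ⟨p, hp, Y.trans _ _ _ _ (h.isE hc).isTy hp' hbb⟩

theorem car_rel {c : Nd S B} (h : ok Y b0 c) (hc : isC c) {b b' : B}
    (hb : b ∈ car Y b0 c) (hb' : b' ∈ car Y b0 c) : Y.r c.ty b b' := by
  obtain ⟨p, hp, hp1⟩ := hb
  obtain ⟨q, hq, hq1⟩ := hb'
  have hT := (h.isE hc).isTy
  exact Y.trans _ _ _ _ hT (Y.symm _ _ _ hT hp1)
    (Y.trans _ _ _ _ hT ((h.shape hc).rel (h.isE hc) hp hq) hq1)

theorem at'_low {c : Nd S B} {b : B} (hb : b ∈ low Y b0 c) : at' Y b0 c b = ln Y b0 c b := by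
  rw [at', atF, if_pos hb]

theorem at'_edge {c : Nd S B} (h : ok Y b0 c) (hc : isC c) {b : B} (hb : ¬ Adj Y b0 c b) :
    at' Y b0 c b = edge c b := by
  rw [at', atF, if_neg (not_adj_low h hc hb), dif_neg hb]

theorem at'_vert {c : Nd S B} (h : ok Y b0 c) (hc : isC c) {b p : B} {s : S}
    (hb : b ∉ low Y b0 c) (hs : s ∈ c.ty) (hp : p ∈ low Y b0 c) (hr : Y.r {s} p b) :
    at' Y b0 c b = vert (ln Y b0 c p) s b := by
  have hA : Adj Y b0 c b := ⟨(s, p), hs, hp, hr⟩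
  rw [at', atF, if_neg hb, dif_pos hA]
  obtain ⟨h1, h2, h3⟩ := hA.choose_spec
  obtain ⟨h4, h5⟩ := (h.shape hc).gate (h.isE hc) h1 hs h2 hp hb h3 hr
  rw [h4, h5]

/-- three cases for a chamber of a class -/
theorem at'_cases {c : Nd S B} (h : ok Y b0 c) (hc : isC c) (b : B) :
    (b ∈ low Y b0 c ∧ at' Y b0 c b = ln Y b0 c b) ∨
    (b ∉ low Y b0 c ∧ ∃ s p, s ∈ c.ty ∧ p ∈ low Y b0 c ∧ Y.r {s} p b ∧
      at' Y b0 c b = vert (ln Y b0 c p) s b) ∨
    (¬ Adj Y b0 c b ∧ at' Y b0 c b = edge c b) := by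
  by_cases hb : b ∈ low Y b0 c
  · exact Or.inl ⟨hb, at'_low hb⟩
  by_cases hA : Adj Y b0 c b
  · obtain ⟨⟨s, p⟩, h1, h2, h3⟩ := hA
    exact Or.inr (Or.inl ⟨hb, s, p, h1, h2, h3, at'_vert h hc hb h1 h2 h3⟩)
  · exact Or.inr (Or.inr ⟨hA, at'_edge h hc hA⟩)

/-! ## Unfolding lemmas -/

theorem cls_root (e : Set S) : cls Y b0 root e = c3 root e := rfl

theorem cls_vert_mem {l : Nd S B} {s : S} {b : B} {e : Set S} (h : s ∈ e) :
    cls Y b0 (vert l s b) e = cls Y b0 l e := by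
  rw [cls, F]
  exact if_pos h

theorem cls_vert_not {l : Nd S B} {s : S} {b : B} {e : Set S} (h : s ∉ e) :
    cls Y b0 (vert l s b) e = c2 (vert l s b) e := by
  rw [cls, F]
  exact if_neg h

theorem cls_edge_same {c : Nd S B} {b : B} : cls Y b0 (edge c b) c.ty = c := by
  rw [cls, F]
  exact if_pos rfl

theorem cls_edge_disj {c : Nd S B} {b : B} {e : Set S} (he : IsE e) (h : ∀ u ∈ e, u ∉ c.ty) :
    cls Y b0 (edge c b) e = c3 (edge c b) e := by
  have h1 : e ≠ c.ty := by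
    obtain ⟨s, t, _, rfl⟩ := he
    intro h2
    exact h s (Or.inl rfl) (h2 ▸ Or.inl rfl)
  have h2 : ¬ ∃ u, u ∈ e ∧ u ∈ c.ty := by
    rintro ⟨u, h3, h4⟩
    exact h u h3 h4
  rw [cls, F]
  simp only
  rw [if_neg h1, dif_neg h2]

theorem inter_uniq {e e' : Set S} (he : IsE e) (he' : IsE e') (hne : e ≠ e') {u v : S}
    (hu : u ∈ e) (hu' : u ∈ e') (hv : v ∈ e) (hv' : v ∈ e') : u = v := by
  by_contra huv
  exact hne ((he.eq_pair hu hv huv).trans (he'.eq_pair hu' hv' huv).symm)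

theorem cls_edge_meet_none {c : Nd S B} (hc : IsE c.ty) {b : B} {e : Set S} (he : IsE e)
    (hne : e ≠ c.ty) {u : S} (hu : u ∈ e) (hu' : u ∈ c.ty)
    (h : ∀ b', Y.r {u} b b' → ¬ Adj Y b0 c b') :
    cls Y b0 (edge c b) e = c1 c u {b' | Y.r {u} b b'} e := by
  have h2 : ∃ u, u ∈ e ∧ u ∈ c.ty := ⟨u, hu, hu'⟩
  have h3 : h2.choose = u := inter_uniq he hc hne h2.choose_spec.1 h2.choose_spec.2 hu hu'
  have h4 : ¬ ∃ b1, Y.r {h2.choose} b b1 ∧ Adj Y b0 c b1 := by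
    rintro ⟨b1, h5, h6⟩
    rw [h3] at h5
    exact h b1 h5 h6
  rw [cls, F]
  simp only
  rw [if_neg hne, dif_pos h2, dif_neg h4, h3]

theorem cls_edge_meet_some {c : Nd S B} (hok : ok Y b0 c) (hc : isC c) {b : B} {e : Set S}
    (he : IsE e) (hne : e ≠ c.ty) {u : S} (hu : u ∈ e) (hu' : u ∈ c.ty)
    (hb : ¬ Adj Y b0 c b) {b1 : B} (hb1 : Y.r {u} b b1) (hA : Adj Y b0 c b1) :
    cls Y b0 (edge c b) e = c2 (at' Y b0 c b1) e := by
  have hcE := hok.isE hc
  have h2 : ∃ u, u ∈ e ∧ u ∈ c.ty := ⟨u, hu, hu'⟩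
  have h3 : h2.choose = u := inter_uniq he hcE hne h2.choose_spec.1 h2.choose_spec.2 hu hu'
  have h4 : ∃ b1, Y.r {h2.choose} b b1 ∧ Adj Y b0 c b1 := ⟨b1, by rw [h3]; exact hb1, hA⟩
  have key : ∀ x, Y.r {h2.choose} b x → Adj Y b0 c x → x = b1 := by
    intro x h6 h7
    rw [h3] at h6
    obtain ⟨⟨s, p⟩, hs, hp, hr⟩ := h7
    obtain ⟨⟨s', p'⟩, hs', hp', hr'⟩ := hA
    refine (hok.shape hc).unique hcE (u := u) hu' hs hs' hp hp' ?_ hr hr'
      (Sys.trans1 (Sys.symm1 h6) hb1)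
    intro x hx hx'
    exact hb ⟨(u, x), hu', hx', Sys.symm1 (Sys.trans1 h6 hx)⟩
  have h5 : h4.choose = b1 := key _ h4.choose_spec.1 h4.choose_spec.2
  rw [cls, F]
  simp only
  rw [if_neg hne, dif_pos h2, dif_pos h4, h5]
  rfl

theorem ln_c3 {l : Nd S B} {e : Set S} {b : B} : ln Y b0 (c3 l e) b = l := rfl

theorem ln_c1 {c : Nd S B} {s : S} {U : Set B} {e : Set S} {b : B} :
    ln Y b0 (c1 c s U e) b = edge c b := rfl

theorem ln_c2_pos {l : Nd S B} {e : Set S} : ln Y b0 (c2 l e) (pos b0 l) = l := by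
  rw [ln, F]
  exact if_pos rfl

theorem ln_c2_ne {l : Nd S B} {w : S} {b : B} {e : Set S} {b' : B} (hb : b' ≠ b) {s : S}
    (hs : s ∈ e) (hr : Y.r {s} b b') :
    ln Y b0 (c2 (vert l w b) e) b' = edge (cls Y b0 (vert l w b) {s, w}) b' := by
  have h : ∃ s, s ∈ e ∧ Y.r {s} (pos b0 (vert l w b)) b' := ⟨s, hs, hr⟩
  have h1 : h.choose = s := by
    by_contra hne
    exact hb (Y.two _ _ _ _ hne h.choose_spec.2 hr).symm
  rw [ln, F]
  simp only
  rw [if_neg (show b' ≠ pos b0 (vert l w b) from hb), dif_pos h, h1]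
  rfl

end Nd

end Pool.Agent.helper36.LT
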