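import Pool.Agent.helper36.LT.Bfs2

set_option autoImplicit false

/-!
# Breadth first search in a chamber system of large type: the nodes form a covering
-/

namespace Pool.Agent.helper36.LT

namespace Nd

variable {S B : Type} {Y : Sys S B} {b0 : B}

/-- the type `e` is not descending at the chamber node `z` -/
def Up (z : Nd S B) (e : Set S) : Prop :=
  z = root ∨ (∃ l w b, z = vert l w b ∧ w ∉ e) ∨ ∃ c b, z = edge c b ∧ e ≠ c.ty

theorem Gate.up {l : Nd S B} {s : S} (h : Gate l s) {e : Set S} (hs : s ∈ e) : Up l e := by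
  rcases h with rfl | ⟨c, b, rfl, hc⟩
  · exact Or.inl rfl
  · refine Or.inr (Or.inr ⟨c, b, rfl, ?_⟩)
    rintro rfl
    exact hc hs

/-- the facts proved by structural induction -/
structure Stmt (Y : Sys S B) (b0 : B) (z : Nd S B) : Prop where
  cls_ok : ok Y b0 z → isB z → ∀ e, IsE e → ok Y b0 (cls Y b0 z e) ∧ isC (cls Y b0 z e) ∧
    (cls Y b0 z e).ty = e ∧ pos b0 z ∈ car Y b0 (cls Y b0 z e)
  cls_up : ok Y b0 z → isB z → ∀ e, IsE e → Up z e → pos b0 z ∈ low Y b0 (cls Y b0 z e) ∧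
    ln Y b0 (cls Y b0 z e) (pos b0 z) = z ∧ lvl (cls Y b0 z e) = lvl z
  cls_vert : ∀ l w b, z = vert l w b → ok Y b0 z → ∀ e, IsE e → w ∈ e →
    pos b0 l ∈ low Y b0 (cls Y b0 z e) ∧ ln Y b0 (cls Y b0 z e) (pos b0 l) = l ∧
    b ∉ low Y b0 (cls Y b0 z e) ∧ lvl (cls Y b0 z e) = lvl l
  ln_ok : ok Y b0 z → isC z → ∀ p ∈ low Y b0 z, ok Y b0 (ln Y b0 z p) ∧ isB (ln Y b0 z p) ∧
    pos b0 (ln Y b0 z p) = p ∧ cls Y b0 (ln Y b0 z p) z.ty = z ∧ lvl (ln Y b0 z p) = lvl z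
  ln_gate : ok Y b0 z → isC z → ∀ p ∈ low Y b0 z, ∀ s ∈ z.ty, ∀ b, b ∉ low Y b0 z →
    Y.r {s} p b → Gate (ln Y b0 z p) s
  gate_low : ok Y b0 z → ∀ s, Gate z s → ∀ e, IsE e → s ∈ e → ∀ b, Y.r {s} (pos b0 z) b →
    b ≠ pos b0 z → b ∉ low Y b0 (cls Y b0 z e)

/-- the cases for the class of an edge node -/
theorem edge_cases {c : Nd S B} (hc : Stmt Y b0 c) {b : B} (hok : ok Y b0 (edge c b))
    {e : Set S} (he : IsE e) (hne : e ≠ c.ty) :
    ((∀ u ∈ e, u ∉ c.ty) ∧ cls Y b0 (edge c b) e = c3 (edge c b) e) ∨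
    (∃ u ∈ e, u ∈ c.ty ∧ (∀ b', Y.r {u} b b' → ¬ Adj Y b0 c b') ∧
      cls Y b0 (edge c b) e = c1 c u {b' | Y.r {u} b b'} e) ∨
    ∃ u ∈ e, u ∈ c.ty ∧ ∃ w p b1, w ∈ c.ty ∧ w ∉ e ∧ u ≠ w ∧ p ∈ low Y b0 c ∧ Y.r {u} b b1 ∧
      b1 ∉ low Y b0 c ∧ Y.r {w} p b1 ∧ b ≠ b1 ∧ ok Y b0 (vert (ln Y b0 c p) w b1) ∧
      at' Y b0 c b1 = vert (ln Y b0 c p) w b1 ∧
      cls Y b0 (edge c b) e = c2 (vert (ln Y b0 c p) w b1) e := by
  obtain ⟨hcok, hcC, hbc, hbA⟩ := hok
  have hcE := hcok.isE hcC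
  by_cases h : ∃ u ∈ e, u ∈ c.ty
  · obtain ⟨u, hu, hu'⟩ := h
    by_cases h1 : ∃ b1, Y.r {u} b b1 ∧ Adj Y b0 c b1
    · right; right
      obtain ⟨b1, hb1, hA⟩ := h1
      obtain ⟨⟨w, p⟩, hw, hp, hr⟩ := hA
      have hb1l : b1 ∉ low Y b0 c := by
        intro h2
        exact hbA ⟨(u, b1), hu', h2, Sys.symm1 hb1⟩
      have hwu : u ≠ w := by
        rintro rfl
        exact hbA ⟨(u, p), hu', hp, Sys.trans1 hr (Sys.symm1 hb1)⟩
      have hwe : w ∉ e := by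
        intro h2
        exact hwu (inter_uniq he hcE hne hu hu' h2 hw)
      obtain ⟨h3, h4, h5, h6, h7⟩ := hc.ln_ok hcok hcC p hp
      have hg := hc.ln_gate hcok hcC p hp w hw b1 hb1l hr
      have hat := at'_vert hcok hcC hb1l hw hp hr
      refine ⟨u, hu, hu', w, p, b1, hw, hwe, hwu, hp, hb1, hb1l, hr, ?_, ?_, hat, ?_⟩
      · rintro rfl
        exact hbA ⟨(w, p), hw, hp, hr⟩
      · refine ⟨h3, hg, by rw [h5]; exact hr, ?_⟩
        rw [h5]
        rintro rfl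
        exact hb1l hp
      · rw [cls_edge_meet_some hcok hcC he hne hu hu' hbA hb1 ⟨(w, p), hw, hp, hr⟩, hat]
    · right; left
      have h2 : ∀ b', Y.r {u} b b' → ¬ Adj Y b0 c b' := fun b' h3 h4 => h1 ⟨b', h3, h4⟩
      exact ⟨u, hu, hu', h2, cls_edge_meet_none hcE he hne hu hu' h2⟩
  · left
    have h1 : ∀ u ∈ e, u ∉ c.ty := fun u hu hu' => h ⟨u, hu, hu'⟩
    exact ⟨h1, cls_edge_disj he h1⟩

theorem IsE.exists_mem {e : Set S} (h : IsE e) : ∃ s, s ∈ e := by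
  obtain ⟨s, t, _, rfl⟩ := h
  exact ⟨s, Or.inl rfl⟩

theorem stmt_root : Stmt Y b0 root where
  cls_ok _ _ e he := by
    rw [cls_root]
    exact ⟨⟨trivial, he, fun s _ => Or.inl rfl⟩, trivial, rfl, ⟨b0, rfl, Y.refl _ _ he.isTy⟩⟩
  cls_up _ _ e he _ := ⟨rfl, rfl, rfl⟩
  cls_vert l w b h := by cases h
  ln_ok _ h := h.elim
  ln_gate _ h := h.elim
  gate_low _ s _ e _ _ b _ hb hb' := hb hb'

theorem stmt_vert {l : Nd S B} {s : S} {b : B} (hl : Stmt Y b0 l) : Stmt Y b0 (vert l s b) where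
  cls_ok hok _ e he := by
    obtain ⟨h1, h2, h3, h4⟩ := hok
    by_cases hs : s ∈ e
    · rw [cls_vert_mem hs]
      obtain ⟨h5, h6, h7, h8⟩ := hl.cls_ok h1 h2.isB e he
      refine ⟨h5, h6, h7, mem_car_of_rel h5 h6 h8 ?_⟩
      rw [h7]
      exact Sys.r1_r he hs h3
    · rw [cls_vert_not hs]
      refine ⟨⟨⟨h1, h2, h3, h4⟩, he, l, s, b, rfl, hs⟩, trivial, rfl, ?_⟩
      obtain ⟨t, ht⟩ := IsE.exists_mem he
      exact ⟨b, ⟨t, ht, Y.refl1 _ _⟩, Y.refl _ _ he.isTy⟩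
  cls_up hok _ e he hup := by
    have hs : s ∉ e := by
      rcases hup with h | ⟨l', w, b', h, h'⟩ | ⟨c, b', h, _⟩
      · cases h
      · cases h
        exact h'
      · cases h
    rw [cls_vert_not hs]
    obtain ⟨t, ht⟩ := IsE.exists_mem he
    exact ⟨⟨t, ht, Y.refl1 _ _⟩, ln_c2_pos, rfl⟩
  cls_vert := by
    rintro l' w b' h hok e he hw
    cases h
    obtain ⟨h1, h2, h3, h4⟩ := hok
    rw [cls_vert_mem hw]
    obtain ⟨h5, h6, h7⟩ := hl.cls_up h1 h2.isB e he (h2.up hw)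
    exact ⟨h5, h6, hl.gate_low h1 _ h2 e he hw _ h3 h4, h7⟩
  gate_low _ t h := by
    rcases h with h | ⟨c, b, h, _⟩ <;> cases h
  ln_ok _ h := h.elim
  ln_gate _ h := h.elim

theorem stmt_edge {c : Nd S B} {b : B} (hc : Stmt Y b0 c) : Stmt Y b0 (edge c b) where
  cls_ok hok _ e he := by
    have hok' := hok
    obtain ⟨h1, h2, h3, h4⟩ := hok'
    by_cases hne : e = c.ty
    · subst hne
      rw [cls_edge_same]
      exact ⟨h1, h2, rfl, h3⟩
    · rcases edge_cases hc hok he hne with ⟨h7, h8⟩ | ⟨u, hu, hu', h7, h8⟩ |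
          ⟨u, hu, hu', w', p, b2, hw', hwe', _, hp, hub, hb2l, hr, hbb, hok2, _, h8⟩
      · rw [h8]
        refine ⟨⟨hok, he, fun s hs => Or.inr ⟨c, b, rfl, h7 s hs⟩⟩, trivial, rfl, ?_⟩
        exact ⟨b, rfl, Y.refl _ _ he.isTy⟩
      · rw [h8]
        refine ⟨⟨h1, h2, he, hu, hu', hne, b, rfl, h3, h7⟩, trivial, rfl, ?_⟩
        exact ⟨b, Y.refl1 _ _, Y.refl _ _ he.isTy⟩
      · rw [h8]
        refine ⟨⟨hok2, he, _, _, _, rfl, hwe'⟩, trivial, rfl, ?_⟩
        exact ⟨b, ⟨u, hu, Sys.symm1 hub⟩, Y.refl _ _ he.isTy⟩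
  cls_up hok _ e he hup := by
    have hok' := hok
    obtain ⟨h1, h2, h3, h4⟩ := hok'
    have hne : e ≠ c.ty := by
      rcases hup with h | ⟨l', w, b', h, h'⟩ | ⟨c, b', h, h'⟩
      · cases h
      · cases h
      · cases h
        exact h'
    rcases edge_cases hc hok he hne with ⟨h7, h8⟩ | ⟨u, hu, hu', h7, h8⟩ |
          ⟨u, hu, hu', w', p, b2, hw', hwe', huw, hp, hub, hb2l, hr, hbb, hok2, _, h8⟩
    · rw [h8]
      exact ⟨rfl, rfl, rfl⟩
    · rw [h8]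
      exact ⟨Y.refl1 _ _, rfl, rfl⟩
    · rw [h8]
      obtain ⟨h10, h11, h12, h13, h14⟩ := hc.ln_ok h1 h2 p hp
      refine ⟨⟨u, hu, Sys.symm1 hub⟩, ?_, ?_⟩
      · have h9 := ln_c2_ne (Y := Y) (b0 := b0) (l := ln Y b0 c p) (w := w') hbb hu
          (Sys.symm1 hub)
        refine h9.trans ?_
        rw [cls_vert_mem (show w' ∈ ({u, w'} : Set S) from Or.inr rfl),
          ← (h1.isE h2).eq_pair hu' hw' huw, h13]
      · show lvl (ln Y b0 c p) + 1 = lvl c + 1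
        rw [h14]
  cls_vert l w b h := by cases h
  ln_ok _ h := h.elim
  ln_gate _ h := h.elim
  gate_low h1 s hg e he hw b' h3 h4 := by
    intro hb
    have hwc : s ∉ c.ty := by
      rcases hg with h | ⟨c, b, h, h'⟩
      · cases h
      · cases h
        exact h'
    have hne : e ≠ c.ty := by
      rintro rfl
      exact hwc hw
    have h3 : Y.r {s} b b' := h3
    have h4 : b' ≠ b := h4
    rcases edge_cases hc h1 he hne with ⟨_, h8⟩ | ⟨u, hu, hu', _, h8⟩ |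
      ⟨u, hu, hu', w', p, b2, hw', hwe', _, hp, hub, hb2l, hr, hbb, hok2, _, h8⟩
    · rw [h8] at hb
      exact h4 hb
    · rw [h8] at hb
      have huw : u ≠ s := by
        rintro rfl
        exact hwc hu'
      exact h4 (Y.two _ _ _ _ huw hb h3).symm
    · rw [h8] at hb
      obtain ⟨v, hv, hv'⟩ := hb
      have huw : u ≠ s := by
        rintro rfl
        exact hwc hu'
      have hv2 : Y.r {v} b2 b' := hv'
      rw [he.eq_pair hu hw huw] at hv
      rcases hv with hv | hv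
      · subst hv
        exact h4 (Y.two _ _ _ _ huw (Sys.trans1 hub hv2) h3).symm
      · have hv : v = s := hv
        subst hv
        exact hbb (Y.two _ _ _ _ huw hub (Sys.trans1 h3 (Sys.symm1 hv2)))

theorem stmt_c3 {l : Nd S B} {e : Set S} : Stmt Y b0 (c3 l e) where
  cls_ok _ h := h.elim
  cls_up _ h := h.elim
  cls_vert l w b h := by cases h
  ln_ok hok _ p hp := by
    obtain ⟨h1, h2, h3⟩ := hok
    have hp' : p = pos b0 l := hp
    subst hp'
    obtain ⟨s, hs⟩ := IsE.exists_mem h2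
    refine ⟨h1, (h3 s hs).isB, rfl, ?_, rfl⟩
    rcases h3 s hs with h | ⟨c, b, h, _⟩
    · subst h
      rfl
    · subst h
      apply cls_edge_disj h2
      intro u hu
      rcases h3 u hu with h | ⟨c', b', h, h'⟩
      · cases h
      · cases h
        exact h'
  ln_gate hok _ p hp s hs b hb hr := by
    obtain ⟨h1, h2, h3⟩ := hok
    exact h3 s hs
  gate_low _ t h := by
    rcases h with h | ⟨c, b, h, _⟩ <;> cases h

theorem stmt_c1 {c : Nd S B} {s : S} {U : Set B} {e : Set S} : Stmt Y b0 (c1 c s U e) where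
  cls_ok _ h := h.elim
  cls_up _ h := h.elim
  cls_vert l w b h := by cases h
  ln_ok hok _ p hp := by
    obtain ⟨h1, h2, h3, h4, h5, h6, b, rfl, h8, h9⟩ := hok
    have hp' : Y.r {s} b p := hp
    refine ⟨⟨h1, h2, mem_car_of_rel h1 h2 h8 (Sys.r1_r (h1.isE h2) h5 hp'), h9 p hp'⟩, trivial,
      rfl, ?_, rfl⟩
    have h10 := cls_edge_meet_none (h1.isE h2) (Y := Y) (b0 := b0) (b := p) h3 h6 h4 h5
      (fun b' hb' => h9 b' (Sys.trans1 hp' hb'))
    refine h10.trans ?_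
    congr 1
    ext x
    exact ⟨fun h => Sys.trans1 hp' h, fun h => Sys.trans1 (Sys.symm1 hp') h⟩
  ln_gate hok _ p hp t ht b' hb' hr := by
    obtain ⟨h1, h2, h3, h4, h5, h6, b, rfl, h8, h9⟩ := hok
    refine Or.inr ⟨c, p, rfl, ?_⟩
    intro h10
    have : t = s := inter_uniq h3 (h1.isE h2) h6 ht h10 h4 h5
    subst this
    exact hb' (Sys.trans1 hp hr)
  gate_low _ t h := by
    rcases h with h | ⟨c, b, h, _⟩ <;> cases h

theorem stmt_c2 {l : Nd S B} {e : Set S} (hl : Stmt Y b0 l) : Stmt Y b0 (c2 l e) where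
  cls_ok _ h := h.elim
  cls_up _ h := h.elim
  cls_vert l w b h := by cases h
  ln_ok hok _ p hp := by
    obtain ⟨h1, h2, l0, w, b, rfl, h3⟩ := hok
    obtain ⟨s, hs, hr⟩ := hp
    have hr : Y.r {s} b p := hr
    by_cases hpb : p = b
    · subst hpb
      have h4 : ln Y b0 (c2 (vert l0 w p) e) p = vert l0 w p := ln_c2_pos
      rw [h4]
      exact ⟨h1, trivial, rfl, cls_vert_not h3, rfl⟩
    · have h4 := ln_c2_ne (Y := Y) (b0 := b0) (l := l0) (w := w) hpb hs hr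
      rw [h4]
      have hsw : s ≠ w := by
        rintro rfl
        exact h3 hs
      have hE : IsE ({s, w} : Set S) := ⟨s, w, hsw, rfl⟩
      set c' := cls Y b0 (vert l0 w b) {s, w} with hc'
      obtain ⟨h5, h6, h7, h8⟩ := hl.cls_ok h1 trivial _ hE
      rw [← hc'] at h5 h6 h7 h8
      obtain ⟨h9, h10, h11, h12⟩ := hl.cls_vert l0 w b rfl h1 _ hE (Or.inr rfl)
      rw [← hc'] at h9 h10 h11 h12
      have hs' : s ∈ c'.ty := by rw [h7]; exact Or.inl rfl
      have hw' : w ∈ c'.ty := by rw [h7]; exact Or.inr rfl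
      have hrw : Y.r {w} (pos b0 l0) b := h1.2.2.1
      have hpc : p ∈ car Y b0 c' := by
        refine mem_car_of_rel h5 h6 h8 ?_
        exact Sys.r1_r (h5.isE h6) hs' hr
      have hA : ¬ Adj Y b0 c' p := by
        rintro ⟨⟨s', p'⟩, h13, h14, h15⟩
        refine hpb ((h5.shape h6).unique (h5.isE h6) (u := s) hs' h13 hw' h14 h9 ?_ h15 hrw
          (Sys.symm1 hr))
        intro x hx hx'
        have hx2 : Y.r {s} x b := Sys.symm1 (Sys.trans1 hr hx)
        exact hsw ((h5.shape h6).gate (h5.isE h6) hs' hw' hx' h9 h11 hx2 hrw).1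
      have hne : e ≠ c'.ty := by
        rw [h7]
        rintro rfl
        exact h3 (Or.inr rfl)
      refine ⟨⟨h5, h6, hpc, hA⟩, trivial, rfl, ?_, ?_⟩
      · have h13 := cls_edge_meet_some h5 h6 h2 hne hs hs' hA (Sys.symm1 hr)
          ⟨(w, pos b0 l0), hw', h9, hrw⟩
        refine h13.trans ?_
        rw [at'_vert h5 h6 h11 hw' h9 hrw, h10]
      · show lvl c' + 1 = lvl l0 + 1
        rw [h12]
  ln_gate hok _ p hp t ht b' hb' hr := by
    obtain ⟨h1, h2, l0, w, b, rfl, h3⟩ := hok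
    obtain ⟨s, hs, hr'⟩ := hp
    have hr' : Y.r {s} b p := hr'
    have hpb : p ≠ b := by
      rintro rfl
      exact hb' ⟨t, ht, hr⟩
    have hst : t ≠ s := by
      rintro rfl
      exact hb' ⟨t, ht, Sys.trans1 hr' hr⟩
    have h4 := ln_c2_ne (Y := Y) (b0 := b0) (l := l0) (w := w) hpb hs hr'
    rw [h4]
    have hsw : s ≠ w := by
      rintro rfl
      exact h3 hs
    obtain ⟨h5, h6, h7, h8⟩ := hl.cls_ok h1 trivial _ ⟨s, w, hsw, rfl⟩
    refine Or.inr ⟨_, p, rfl, ?_⟩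
    rw [h7]
    rintro (h9 | h9)
    · exact hst h9
    · have : t = w := h9
      subst this
      exact h3 ht
  gate_low _ t h := by
    rcases h with h | ⟨c, b, h, _⟩ <;> cases h

theorem stmt (Y : Sys S B) (b0 : B) (z : Nd S B) : Stmt Y b0 z := by
  induction z with
  | root => exact stmt_root
  | vert l s b ih => exact stmt_vert ih
  | edge c b ih => exact stmt_edge ih
  | c3 l e ih => exact stmt_c3
  | c2 l e ih => exact stmt_c2 ih
  | c1 c s U e ih => exact stmt_c1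

end Nd

end Pool.Agent.helper36.LT
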