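import Pool.Agent.helper36.LT.Bfs3

set_option autoImplicit false

/-!
# Breadth first search in a chamber system of large type: walks
-/

namespace Pool.Agent.helper36.LT

namespace Nd

variable {S B : Type} {Y : Sys S B} {b0 : B}

/-- properties of the node of a chamber of a class -/
theorem at'_ok {c : Nd S B} (h : ok Y b0 c) (hc : isC c) {b : B} (hb : b ∈ car Y b0 c) :
    ok Y b0 (at' Y b0 c b) ∧ isB (at' Y b0 c b) ∧ pos b0 (at' Y b0 c b) = b ∧
      cls Y b0 (at' Y b0 c b) c.ty = c := by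
  rcases at'_cases h hc b with ⟨h1, h2⟩ | ⟨h1, s, p, hs, hp, hr, h2⟩ | ⟨h1, h2⟩
  · rw [h2]
    obtain ⟨h3, h4, h5, h6, _⟩ := (stmt Y b0 c).ln_ok h hc b h1
    exact ⟨h3, h4, h5, h6⟩
  · rw [h2]
    obtain ⟨h3, h4, h5, h6, _⟩ := (stmt Y b0 c).ln_ok h hc p hp
    have h7 := (stmt Y b0 c).ln_gate h hc p hp s hs b h1 hr
    refine ⟨⟨h3, h7, by rw [h5]; exact hr, ?_⟩, trivial, rfl, ?_⟩
    · rw [h5]
      rintro rfl
      exact h1 hp
    · rw [cls_vert_mem hs, h6]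
  · rw [h2]
    exact ⟨⟨h, hc, hb, h1⟩, trivial, rfl, cls_edge_same⟩

theorem at'_lvl_low {c : Nd S B} (h : ok Y b0 c) (hc : isC c) {b : B} (hb : b ∈ low Y b0 c) :
    lvl (at' Y b0 c b) = lvl c := by
  rw [at'_low hb]
  exact ((stmt Y b0 c).ln_ok h hc b hb).2.2.2.2

theorem at'_lvl_not {c : Nd S B} (h : ok Y b0 c) (hc : isC c) {b : B} (hb : b ∉ low Y b0 c) :
    lvl (at' Y b0 c b) = lvl c + 1 := by
  rcases at'_cases h hc b with ⟨h1, h2⟩ | ⟨h1, s, p, hs, hp, hr, h2⟩ | ⟨h1, h2⟩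
  · exact absurd h1 hb
  · rw [h2]
    show lvl (ln Y b0 c p) + 1 = _
    rw [((stmt Y b0 c).ln_ok h hc p hp).2.2.2.2]
  · rw [h2]
    rfl

theorem up_or {z : Nd S B} (hz : isB z) (e : Set S) : Up z e ∨
    (∃ l w b, z = vert l w b ∧ w ∈ e) ∨ ∃ c b, z = edge c b ∧ e = c.ty := by
  cases z with
  | root => exact Or.inl (Or.inl rfl)
  | vert l w b =>
    by_cases h : w ∈ e
    · exact Or.inr (Or.inl ⟨l, w, b, rfl, h⟩)
    · exact Or.inl (Or.inr (Or.inl ⟨l, w, b, rfl, h⟩))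
  | edge c b =>
    by_cases h : e = c.ty
    · exact Or.inr (Or.inr ⟨c, b, rfl, h⟩)
    · exact Or.inl (Or.inr (Or.inr ⟨c, b, rfl, h⟩))
  | _ => exact hz.elim

theorem at'_pos {z : Nd S B} (h : ok Y b0 z) (hz : isB z) {e : Set S} (he : IsE e) :
    at' Y b0 (cls Y b0 z e) (pos b0 z) = z := by
  obtain ⟨h1, h2, h3, h4⟩ := (stmt Y b0 z).cls_ok h hz e he
  rcases up_or hz e with h5 | ⟨l, w, b, rfl, h5⟩ | ⟨c, b, rfl, h5⟩
  · obtain ⟨h6, h7, _⟩ := (stmt Y b0 z).cls_up h hz e he h5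
    rw [at'_low h6, h7]
  · obtain ⟨h6, h7, h8, _⟩ := (stmt Y b0 _).cls_vert l w b rfl h e he h5
    have h9 := at'_vert h1 h2 h8 (by rw [h3]; exact h5) h6 h.2.2.1
    rw [h7] at h9
    exact h9
  · subst h5
    rw [cls_edge_same]
    exact at'_edge h.1 h.2.1 h.2.2.2

/-! ## Explicit nodes in the panels -/

theorem panel_gate {z : Nd S B} (h : ok Y b0 z) {s : S} (hg : Gate z s) {e : Set S} (he : IsE e)
    (hs : s ∈ e) {b : B} (hr : Y.r {s} (pos b0 z) b) (hb : b ≠ pos b0 z) :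
    at' Y b0 (cls Y b0 z e) b = vert z s b := by
  obtain ⟨h1, h2, h3, h4⟩ := (stmt Y b0 z).cls_ok h hg.isB e he
  obtain ⟨h6, h7, _⟩ := (stmt Y b0 z).cls_up h hg.isB e he (hg.up hs)
  have h8 := (stmt Y b0 z).gate_low h s hg e he hs b hr hb
  rw [at'_vert h1 h2 h8 (by rw [h3]; exact hs) h6 hr, h7]

theorem panel_vert_pos {l : Nd S B} {s : S} {b : B} (h : ok Y b0 (vert l s b)) {e : Set S}
    (he : IsE e) (hs : s ∈ e) : at' Y b0 (cls Y b0 (vert l s b) e) (pos b0 l) = l := by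
  obtain ⟨h6, h7, h8, _⟩ := (stmt Y b0 _).cls_vert l s b rfl h e he hs
  rw [at'_low h6, h7]

theorem panel_vert_ne {l : Nd S B} {s : S} {b : B} (h : ok Y b0 (vert l s b)) {e : Set S}
    (he : IsE e) (hs : s ∈ e) {b' : B} (hr : Y.r {s} b b') (hb : b' ≠ pos b0 l) :
    at' Y b0 (cls Y b0 (vert l s b) e) b' = vert l s b' := by
  rw [cls_vert_mem hs]
  exact panel_gate h.1 h.2.1 he hs (Sys.trans1 h.2.2.1 hr) hb

theorem panel_flat_vert {l : Nd S B} {w : S} {b : B} (h : ok Y b0 (vert l w b)) {s : S}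
    (hsw : s ≠ w) {e : Set S} (he : IsE e) (hs : s ∈ e) {b' : B} (hr : Y.r {s} b b')
    (hb : b' ≠ b) :
    at' Y b0 (cls Y b0 (vert l w b) e) b' = edge (cls Y b0 (vert l w b) {s, w}) b' := by
  have hE : IsE ({s, w} : Set S) := ⟨s, w, hsw, rfl⟩
  by_cases hw : w ∈ e
  · have he' := he.eq_pair hs hw hsw
    subst he'
    obtain ⟨h5, h6, h7, h8⟩ := (stmt Y b0 _).cls_ok h trivial _ hE
    obtain ⟨h9, h10, h11, h12⟩ := (stmt Y b0 _).cls_vert l w b rfl h _ hE (Or.inr rfl)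
    set c' := cls Y b0 (vert l w b) {s, w} with hc'
    have hs' : s ∈ c'.ty := by rw [h7]; exact Or.inl rfl
    have hw' : w ∈ c'.ty := by rw [h7]; exact Or.inr rfl
    have hrw : Y.r {w} (pos b0 l) b := h.2.2.1
    apply at'_edge h5 h6
    rintro ⟨⟨s', p'⟩, h13, h14, h15⟩
    refine hb ((h5.shape h6).unique (h5.isE h6) (u := s) hs' h13 hw' h14 h9 ?_ h15 hrw
      (Sys.symm1 hr))
    intro x hx hx'
    have hx2 : Y.r {s} x b := Sys.symm1 (Sys.trans1 hr hx)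
    exact hsw ((h5.shape h6).gate (h5.isE h6) hs' hw' hx' h9 h11 hx2 hrw).1
  · rw [cls_vert_not hw, at'_low (show b' ∈ low Y b0 (c2 (vert l w b) e) from ⟨s, hs, hr⟩),
      ln_c2_ne hb hs hr]

theorem panel_flat_edge {c : Nd S B} {b : B} (h : ok Y b0 (edge c b)) {s : S}
    (hsc : s ∈ c.ty) {e : Set S} (he : IsE e) (hs : s ∈ e) {b' : B} (hr : Y.r {s} b b') :
    at' Y b0 (cls Y b0 (edge c b) e) b' = at' Y b0 c b' := by
  by_cases hne : e = c.ty
  · subst hne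
    rw [cls_edge_same]
  · obtain ⟨h1, h2, h3, h4⟩ := id h
    have hcE := h1.isE h2
    rcases edge_cases (stmt Y b0 c) h he hne with ⟨h7, h8⟩ | ⟨u, hu, hu', h7, h8⟩ |
          ⟨u, hu, hu', w', p, b2, hw', hwe', huw, hp, hub, hb2l, hr2, hbb, hok2, hat, h8⟩
    · exact absurd hsc (h7 s hs)
    · have hus : u = s := inter_uniq he hcE hne hu hu' hs hsc
      subst hus
      rw [h8, at'_low (show b' ∈ low Y b0 (c1 c u {b' | Y.r {u} b b'} e) from hr), ln_c1]
      exact (at'_edge h1 h2 (h7 b' hr)).symm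
    · have hus : u = s := inter_uniq he hcE hne hu hu' hs hsc
      subst hus
      rw [h8]
      by_cases hb2 : b' = b2
      · subst hb2
        rw [hat, at'_low (show b' ∈ low Y b0 (c2 (vert (ln Y b0 c p) w' b') e) from
          ⟨u, hu, Y.refl1 _ _⟩)]
        exact ln_c2_pos
      · have hr3 : Y.r {u} b2 b' := Sys.trans1 (Sys.symm1 hub) hr
        rw [at'_low (show b' ∈ low Y b0 (c2 (vert (ln Y b0 c p) w' b2) e) from
          ⟨u, hu, hr3⟩), ln_c2_ne hb2 hu hr3,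
          cls_vert_mem (show w' ∈ ({u, w'} : Set S) from Or.inr rfl),
          ← hcE.eq_pair hu' hw' huw, ((stmt Y b0 c).ln_ok h1 h2 p hp).2.2.2.1]
        symm
        apply at'_edge h1 h2
        rintro ⟨⟨s', p'⟩, h13, h14, h15⟩
        refine hb2 ((h1.shape h2).unique hcE (u := u) hu' h13 hw' h14 hp ?_ h15 hr2
          (Sys.symm1 hr3))
        intro x hx hx'
        exact h4 ⟨(u, x), hu', hx', Sys.symm1 (Sys.trans1 hr hx)⟩

theorem gate_or {z : Nd S B} (hz : isB z) (s : S) : Gate z s ∨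
    (∃ l w b, z = vert l w b) ∨ ∃ c b, z = edge c b ∧ s ∈ c.ty := by
  cases z with
  | root => exact Or.inl (Or.inl rfl)
  | vert l w b => exact Or.inr (Or.inl ⟨l, w, b, rfl⟩)
  | edge c b =>
    by_cases h : s ∈ c.ty
    · exact Or.inr (Or.inr ⟨c, b, rfl, h⟩)
    · exact Or.inl (Or.inr ⟨c, b, rfl, h⟩)
  | _ => exact hz.elim

/-- the node of a neighbour in a panel does not depend on the class -/
theorem panel_indep {z : Nd S B} (h : ok Y b0 z) (hz : isB z) {s : S} {e e' : Set S} (he : IsE e)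
    (he' : IsE e') (hs : s ∈ e) (hs' : s ∈ e') {b : B} (hr : Y.r {s} (pos b0 z) b) :
    at' Y b0 (cls Y b0 z e) b = at' Y b0 (cls Y b0 z e') b := by
  by_cases hb : b = pos b0 z
  · subst hb
    rw [at'_pos h hz he, at'_pos h hz he']
  rcases gate_or hz s with hg | ⟨l, w, b1, rfl⟩ | ⟨c, b1, rfl, hc⟩
  · rw [panel_gate h hg he hs hr hb, panel_gate h hg he' hs' hr hb]
  · by_cases hsw : s = w
    · subst hsw
      by_cases hbl : b = pos b0 l
      · subst hbl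
        rw [panel_vert_pos h he hs, panel_vert_pos h he' hs']
      · rw [panel_vert_ne h he hs hr hbl, panel_vert_ne h he' hs' hr hbl]
    · rw [panel_flat_vert h hsw he hs hr hb, panel_flat_vert h hsw he' hs' hr hb]
  · rw [panel_flat_edge h hc he hs hr, panel_flat_edge h hc he' hs' hr]

/-! ## Steps and walks -/

open Classical in
/-- the node after the step `(T, b)` -/
noncomputable def step (Y : Sys S B) (b0 : B) (z : Nd S B) (T : Set S) (b : B) : Nd S B :=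
  if h : ∃ e, IsE e ∧ T ⊆ e then at' Y b0 (cls Y b0 z h.choose) b else root

theorem pair_sub {e e' : Set S} (he : IsE e) (he' : IsE e') (h : e ⊆ e') : e = e' := by
  obtain ⟨s, t, hst, rfl⟩ := he
  exact (he'.eq_pair (h (Or.inl rfl)) (h (Or.inr rfl)) hst).symm

theorem step_eq {z : Nd S B} (h : ok Y b0 z) (hz : isB z) {T : Set S} (hT : IsTy T) {e : Set S}
    (he : IsE e) (hTe : T ⊆ e) {b : B} (hr : Y.r T (pos b0 z) b) :
    step Y b0 z T b = at' Y b0 (cls Y b0 z e) b := by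
  have hex : ∃ e, IsE e ∧ T ⊆ e := ⟨e, he, hTe⟩
  rw [step, dif_pos hex]
  obtain ⟨h1, h2⟩ := hex.choose_spec
  rcases hT with rfl | ⟨s, rfl⟩ | ⟨s, t, hst, rfl⟩
  · have hb := (Y.zero _ _ hr).symm
    subst hb
    rw [at'_pos h hz h1, at'_pos h hz he]
  · exact panel_indep h hz h1 he (h2 rfl) (hTe rfl) hr
  · have hE : IsE ({s, t} : Set S) := ⟨s, t, hst, rfl⟩
    rw [← pair_sub hE h1 h2, ← pair_sub hE he hTe]

theorem exists_e (hS : ∃ s t : S, s ≠ t) {T : Set S} (hT : IsTy T) : ∃ e, IsE e ∧ T ⊆ e := by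
  obtain ⟨a, b, hab⟩ := hS
  rcases hT with rfl | ⟨s, rfl⟩ | ⟨s, t, hst, rfl⟩
  · exact ⟨{a, b}, ⟨a, b, hab, rfl⟩, Set.empty_subset _⟩
  · by_cases h : s = a
    · subst h
      exact ⟨{s, b}, ⟨s, b, hab, rfl⟩, Set.singleton_subset_iff.2 (Or.inl rfl)⟩
    · exact ⟨{s, a}, ⟨s, a, h, rfl⟩, Set.singleton_subset_iff.2 (Or.inl rfl)⟩
  · exact ⟨{s, t}, ⟨s, t, hst, rfl⟩, subset_rfl⟩

theorem step_ok (hS : ∃ s t : S, s ≠ t) {z : Nd S B} (h : ok Y b0 z) (hz : isB z) {T : Set S}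
    (hT : IsTy T) {b : B} (hr : Y.r T (pos b0 z) b) :
    ok Y b0 (step Y b0 z T b) ∧ isB (step Y b0 z T b) ∧ pos b0 (step Y b0 z T b) = b := by
  obtain ⟨e, he, hTe⟩ := exists_e hS hT
  rw [step_eq h hz hT he hTe hr]
  obtain ⟨h1, h2, h3, h4⟩ := (stmt Y b0 z).cls_ok h hz e he
  have h5 : b ∈ car Y b0 (cls Y b0 z e) := by
    refine mem_car_of_rel h1 h2 h4 ?_
    rw [h3]
    exact Y.mono _ _ _ _ hTe hT he.isTy hr
  obtain ⟨h6, h7, h8, _⟩ := at'_ok h1 h2 h5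
  exact ⟨h6, h7, h8⟩

theorem step_self (hS : ∃ s t : S, s ≠ t) {z : Nd S B} (h : ok Y b0 z) (hz : isB z) {T : Set S}
    (hT : IsTy T) : step Y b0 z T (pos b0 z) = z := by
  obtain ⟨e, he, hTe⟩ := exists_e hS hT
  rw [step_eq h hz hT he hTe (Y.refl _ _ hT), at'_pos h hz he]

theorem step_step (hS : ∃ s t : S, s ≠ t) {z : Nd S B} (h : ok Y b0 z) (hz : isB z) {T : Set S}
    (hT : IsTy T) {b c : B} (hr : Y.r T (pos b0 z) b) (hr' : Y.r T b c) :
    step Y b0 (step Y b0 z T b) T c = step Y b0 z T c := by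
  obtain ⟨e, he, hTe⟩ := exists_e hS hT
  obtain ⟨h6, h7, h8⟩ := step_ok hS h hz hT hr
  rw [step_eq h6 h7 hT he hTe (by rw [h8]; exact hr'),
    step_eq h hz hT he hTe (Y.trans _ _ _ _ hT hr hr'), step_eq h hz hT he hTe hr]
  obtain ⟨h1, h2, h3, h4⟩ := (stmt Y b0 z).cls_ok h hz e he
  have h5 : b ∈ car Y b0 (cls Y b0 z e) := by
    refine mem_car_of_rel h1 h2 h4 ?_
    rw [h3]
    exact Y.mono _ _ _ _ hTe hT he.isTy hr
  obtain ⟨_, _, _, h9⟩ := at'_ok h1 h2 h5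
  rw [h3] at h9
  rw [h9]

theorem step_sub (hS : ∃ s t : S, s ≠ t) {z : Nd S B} (h : ok Y b0 z) (hz : isB z) {T T' : Set S}
    (hT : IsTy T) (hT' : IsTy T') (hTT : T ⊆ T') {b : B} (hr : Y.r T (pos b0 z) b) :
    step Y b0 z T b = step Y b0 z T' b := by
  obtain ⟨e, he, hTe⟩ := exists_e hS hT'
  rw [step_eq h hz hT he (hTT.trans hTe) hr,
    step_eq h hz hT' he hTe (Y.mono _ _ _ _ hTT hT hT' hr)]

/-- the node at the end of a gallery -/
noncomputable def walk (Y : Sys S B) (b0 : B) : Nd S B → List (Set S × B) → Nd S B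
  | z, [] => z
  | z, x :: l => walk Y b0 (step Y b0 z x.1 x.2) l

theorem walk_append (z : Nd S B) (l m : List (Set S × B)) :
    walk Y b0 z (l ++ m) = walk Y b0 (walk Y b0 z l) m := by
  induction l generalizing z with
  | nil => rfl
  | cons x l ih => exact ih _

theorem walk_ok (hS : ∃ s t : S, s ≠ t) {l : List (Set S × B)} {z : Nd S B} (h : ok Y b0 z)
    (hz : isB z) (hl : IsGal Y (pos b0 z) l) :
    ok Y b0 (walk Y b0 z l) ∧ isB (walk Y b0 z l) ∧ pos b0 (walk Y b0 z l) = fin (pos b0 z) l := by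
  induction l generalizing z with
  | nil => exact ⟨h, hz, rfl⟩
  | cons x l ih =>
    obtain ⟨h1, h2, h3⟩ := hl
    obtain ⟨h4, h5, h6⟩ := step_ok hS h hz h1 h2
    have := ih h4 h5 (by rw [h6]; exact h3)
    rw [h6] at this
    exact this

end Nd

theorem Hom.gal_iff {S B : Type} {Y : Sys S B} {b : B} {l m : List (Set S × B)}
    (h : Hom Y b l m) : IsGal Y b l ↔ IsGal Y b m := by
  induction h with
  | refl b l => exact Iff.rfl
  | symm b l m _ ih => exact ih.symm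
  | trans b l m n _ _ ih ih' => exact ih.trans ih'
  | cons b x l m _ ih => exact and_congr Iff.rfl (and_congr Iff.rfl ih)
  | triv b T l hT => exact ⟨fun h => h.2.2, fun h => ⟨hT, Y.refl _ _ hT, h⟩⟩
  | comp b c d T l hT h1 h2 =>
    exact ⟨fun h => ⟨hT, Y.trans _ _ _ _ hT h1 h2, h.2.2.2.2⟩,
      fun h => ⟨hT, h1, hT, h2, h.2.2⟩⟩
  | sub b c T T' l hT hT' hTT h1 =>
    exact ⟨fun h => ⟨hT', Y.mono _ _ _ _ hTT hT hT' h1, h.2.2⟩, fun h => ⟨hT, h1, h.2.2⟩⟩

theorem Hom.fin_eq {S B : Type} {Y : Sys S B} {b : B} {l m : List (Set S × B)}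
    (h : Hom Y b l m) : fin b l = fin b m := by
  induction h with
  | refl b l => rfl
  | symm b l m _ ih => exact ih.symm
  | trans b l m n _ _ ih ih' => exact ih.trans ih'
  | cons b x l m _ ih => exact ih
  | triv b T l hT => rfl
  | comp b c d T l hT h1 h2 => rfl
  | sub b c T T' l hT hT' hTT h1 => rfl

namespace Nd

variable {S B : Type} {Y : Sys S B} {b0 : B}

theorem walk_hom (hS : ∃ s t : S, s ≠ t) {b : B} {l m : List (Set S × B)} (h : Hom Y b l m) :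
    ∀ z : Nd S B, ok Y b0 z → isB z → pos b0 z = b → IsGal Y b l →
      walk Y b0 z l = walk Y b0 z m := by
  induction h with
  | refl b l => intros; rfl
  | symm b l m h ih =>
    intro z h1 h2 h3 h4
    exact (ih z h1 h2 h3 (h.gal_iff.2 h4)).symm
  | trans b l m n h h' ih ih' =>
    intro z h1 h2 h3 h4
    exact (ih z h1 h2 h3 h4).trans (ih' z h1 h2 h3 (h.gal_iff.1 h4))
  | cons b x l m h ih =>
    intro z h1 h2 h3 h4
    subst h3
    obtain ⟨h5, h6, h7⟩ := h4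
    obtain ⟨h8, h9, h10⟩ := step_ok hS h1 h2 h5 h6
    exact ih _ h8 h9 h10 h7
  | triv b T l hT =>
    intro z h1 h2 h3 h4
    subst h3
    show walk Y b0 (step Y b0 z T (pos b0 z)) l = _
    rw [step_self hS h1 h2 hT]
  | comp b c d T l hT h5 h6 =>
    intro z h1 h2 h3 h4
    subst h3
    show walk Y b0 (step Y b0 (step Y b0 z T c) T d) l = walk Y b0 (step Y b0 z T d) l
    rw [step_step hS h1 h2 hT h5 h6]
  | sub b c T T' l hT hT' hTT h5 =>
    intro z h1 h2 h3 h4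
    subst h3
    show walk Y b0 (step Y b0 z T c) l = walk Y b0 (step Y b0 z T' c) l
    rw [step_sub hS h1 h2 hT hT' hTT h5]

theorem walk_inj (hS : ∃ s t : S, s ≠ t) {l : List (Set S × B)} {z z' : Nd S B} (h : ok Y b0 z)
    (hz : isB z) (h' : ok Y b0 z') (hz' : isB z') (hp : pos b0 z = pos b0 z')
    (hl : IsGal Y (pos b0 z) l) (hw : walk Y b0 z l = walk Y b0 z' l) : z = z' := by
  induction l generalizing z z' with
  | nil => exact hw
  | cons x l ih =>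
    obtain ⟨h1, h2, h3⟩ := hl
    obtain ⟨h4, h5, h6⟩ := step_ok hS h hz h1 h2
    have h2' : Y.r x.1 (pos b0 z') x.2 := by rw [← hp]; exact h2
    obtain ⟨h4', h5', h6'⟩ := step_ok hS h' hz' h1 h2'
    have h7 := ih h4 h5 h4' h5' (h6.trans h6'.symm) (by rw [h6]; exact h3) hw
    have h8 := step_step hS h hz h1 h2 (Y.symm _ _ _ h1 h2)
    have h8' := step_step hS h' hz' h1 h2' (Y.symm _ _ _ h1 h2')
    rw [step_self hS h hz h1] at h8
    rw [step_self hS h' hz' h1] at h8'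
    rw [← h8, ← h8', h7, hp]

end Nd

end Pool.Agent.helper36.LT
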