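import Pool.Agent.helper34.FJ2.Main

set_option autoImplicit false

/-!
# Chamber systems of large type

`Sys S B`: a set `B` of chambers with equivalence relations `r T` for the subsets `T` of `S` with at
most two elements (for other `T` the relation `r T` is irrelevant), such that the rank two classes
have (alternating) girth at least six.
-/

namespace Pool.Agent.helper36.LT

open Pool.Agent.helper34

variable {S B : Type}

/-- the types of simplices: `∅` (chambers), `{s}` (panels), `{s, t}` (rank two classes) -/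
def IsTy (T : Set S) : Prop := T = ∅ ∨ (∃ s, T = {s}) ∨ ∃ s t, s ≠ t ∧ T = {s, t}

/-- A chamber system of large type. -/
structure Sys (S B : Type) where
  /-- `r T b c`: the chambers `b` and `c` are in the same class of type `T` -/
  r : Set S → B → B → Prop
  refl : ∀ T b, IsTy T → r T b b
  symm : ∀ T b c, IsTy T → r T b c → r T c b
  trans : ∀ T b c d, IsTy T → r T b c → r T c d → r T b d
  mono : ∀ T T' b c, T ⊆ T' → IsTy T → IsTy T' → r T b c → r T' b c
  zero : ∀ b c, r ∅ b c → b = c
  two : ∀ s t b c, s ≠ t → r {s} b c → r {t} b c → b = c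
  four : ∀ s t a b c d, s ≠ t → r {s} a b → r {t} b c → r {s} c d → r {t} d a → a = b ∨ b = c

/-! ## Galleries: a gallery starting at a chamber is the list of its steps `(T, c)`, where `c` is
the next chamber and `T` the type of the step -/

/-- `b, l` is a gallery -/
def IsGal (X : Sys S B) : B → List (Set S × B) → Prop
  | _, [] => True
  | b, x :: l => IsTy x.1 ∧ X.r x.1 b x.2 ∧ IsGal X x.2 l

/-- the last chamber -/
def fin : B → List (Set S × B) → B
  | b, [] => b
  | _, x :: l => fin x.2 l

/-- homotopy of galleries -/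
inductive Hom (X : Sys S B) : B → List (Set S × B) → List (Set S × B) → Prop
  | refl (b : B) (l : List (Set S × B)) : Hom X b l l
  | symm (b : B) (l m : List (Set S × B)) : Hom X b l m → Hom X b m l
  | trans (b : B) (l m n : List (Set S × B)) : Hom X b l m → Hom X b m n → Hom X b l n
  | cons (b : B) (x : Set S × B) (l m : List (Set S × B)) :
      Hom X x.2 l m → Hom X b (x :: l) (x :: m)
  | triv (b : B) (T : Set S) (l : List (Set S × B)) : IsTy T → Hom X b ((T, b) :: l) l
  | comp (b c d : B) (T : Set S) (l : List (Set S × B)) : IsTy T → X.r T b c → X.r T c d →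
      Hom X b ((T, c) :: (T, d) :: l) ((T, d) :: l)
  | sub (b c : B) (T T' : Set S) (l : List (Set S × B)) : IsTy T → IsTy T' → T ⊆ T' →
      X.r T b c → Hom X b ((T, c) :: l) ((T', c) :: l)

/-- simply connected -/
def Sys.SC (X : Sys S B) : Prop :=
  Nonempty B ∧ (∀ a b : B, ∃ l, IsGal X a l ∧ fin a l = b) ∧
    ∀ (a : B) (l : List (Set S × B)), IsGal X a l → fin a l = a → Hom X a l []

/-- the group acts by type preserving automorphisms -/
def Sys.Inv (X : Sys S B) (G : Type) [Group G] [MulAction G B] : Prop :=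
  ∀ (g : G) (T : Set S) (b c : B), X.r T b c → X.r T (g • b) (g • c)

/-- the stabiliser of the class of type `T` of the chamber `b` -/
def Sys.stab (X : Sys S B) (G : Type) [Group G] [MulAction G B] (T : Set S) (b : B) : Set G :=
  {g | X.r T b (g • b)}

/-- the homomorphism `f` is injective on the stabilisers of all classes -/
def Sys.InjStab (X : Sys S B) {G Q : Type} [Group G] [Group Q] [MulAction G B] (f : G →* Q) :
    Prop := ∀ (T : Set S) (b : B), IsTy T → ∀ g ∈ X.stab G T b, f g = 1 → g = 1

/-- finitely many orbits of chambers -/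
def FinOrb (G B : Type) [Group G] [MulAction G B] : Prop :=
  ∃ F : Set B, F.Finite ∧ ∀ b : B, ∃ g : G, g • b ∈ F

/-! ## The geometric realisation -/

/-- types of vertices -/
def Ty (S : Type) : Type := {T : Set S // IsTy T}

/-- the equivalence relation of type `T` -/
def Sys.setoid (X : Sys S B) (T : Ty S) : Setoid B :=
  ⟨X.r T.1, fun b => X.refl _ b T.2, fun {b c} h => X.symm _ b c T.2 h,
    fun {b c d} h h' => X.trans _ b c d T.2 h h'⟩

/-- the vertices of the realisation: chambers, panels and rank two classes -/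
def Vert (X : Sys S B) : Type := Σ T : Ty S, Quotient (X.setoid T)

/-- the class of type `T` of the chamber `b` -/
def cl (X : Sys S B) (T : Ty S) (b : B) : Vert X := ⟨T, Quotient.mk (X.setoid T) b⟩

/-- strictly comparable types -/
def Cmp (T T' : Ty S) : Prop := T.1 ⊂ T'.1 ∨ T'.1 ⊂ T.1

/-- the realisation: vertices are the classes, simplices are the flags -/
def cx (X : Sys S B) : FJ2.Complex2 (Vert X) where
  edge v w := ∃ (b : B) (T T' : Ty S), Cmp T T' ∧ v = cl X T b ∧ w = cl X T' b
  tri u v w := ∃ (b : B) (T T' T'' : Ty S), Cmp T T' ∧ Cmp T' T'' ∧ Cmp T T'' ∧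
    u = cl X T b ∧ v = cl X T' b ∧ w = cl X T'' b
  edge_symm := by
    rintro v w ⟨b, T, T', h, h1, h2⟩
    exact ⟨b, T', T, h.symm, h2, h1⟩
  edge_irrefl := by
    rintro v ⟨b, T, T', h, h1, h2⟩
    have h3 : T = T' := congrArg Sigma.fst (h1.symm.trans h2)
    subst h3
    exact h.elim (fun h => (ssubset_irrefl _ h)) (fun h => (ssubset_irrefl _ h))
  tri_rot := by
    rintro u v w ⟨b, T, T', T'', h, h', h'', h1, h2, h3⟩
    exact ⟨b, T', T'', T, h', h''.symm, h.symm, h2, h3, h1⟩
  tri_swap := by
    rintro u v w ⟨b, T, T', T'', h, h', h'', h1, h2, h3⟩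
    exact ⟨b, T', T, T'', h.symm, h'', h', h2, h1, h3⟩
  tri_edge := by
    rintro u v w ⟨b, T, T', T'', h, h', h'', h1, h2, h3⟩
    exact ⟨b, T, T', h, h1, h2⟩

/-! ## Closure properties -/

/-- the closure properties used (all are known properties of the class of Farrell-Jones groups) -/
structure Closed (P : ∀ (G : Type) [Group G], Prop) : Prop where
  cat : ∀ (G V : Type) [Group G] [MulAction G V] (X : FJ2.Complex2 V) (len : V → V → ℝ),
    FJ2.SimplyConnected X → FJ2.NPC X len → FJ2.ActsProperly G X len → FJ2.Cocompact G X → P G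
  colim : ∀ (ι : Type) [Preorder ι] [Nonempty ι] [IsDirectedOrder ι]
    (G : ι → Type) [∀ i, Group (G i)] (f : ∀ i j, i ≤ j → G i →* G j)
    (L : Type) [Group L] (φ : ∀ i, G i →* L),
    (∀ i x, f i i le_rfl x = x) →
    (∀ i j k (hij : i ≤ j) (hjk : j ≤ k) x, f j k hjk (f i j hij x) = f i k (hij.trans hjk) x) →
    (∀ i j (h : i ≤ j) x, φ j (f i j h x) = φ i x) →
    (∀ y : L, ∃ i x, φ i x = y) →
    (∀ i x, φ i x = 1 → ∃ j, ∃ h : i ≤ j, f i j h x = 1) →
    (∀ i, P (G i)) → P L
  comm : ∀ (G : Type) [CommGroup G], P G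
  subgroup : ∀ (G : Type) [Group G], P G → ∀ H : Subgroup G, P H
  overgroup : ∀ (G : Type) [Group G] (H : Subgroup G), H.FiniteIndex → P H → P G
  extension : ∀ (G Q : Type) [Group G] [Group Q] (f : G →* Q), P Q →
    (∀ C : Subgroup Q, (∃ Z : Subgroup C, Z.FiniteIndex ∧ IsCyclic Z) → P (C.comap f)) → P G

end Pool.Agent.helper36.LT
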