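import Pool.Agent.helper36.LT.Structs

set_option autoImplicit false

/-!
# Lattices in a three-dimensional space over a discretely valued field, abstractly
-/

namespace Pool.Agent.helper36.LT

/-- abstract properties of the set `V` of lattices: `sh` is the multiplication with the uniformiser,
`us` its inverse, `ind` the index (normalised by `ind base = 0`) -/
structure LatSys (V : Type) [SemilatticeSup V] where
  sh : V → V
  us : V → V
  sh_us : ∀ a, sh (us a) = a
  us_sh : ∀ a, us (sh a) = a
  sh_mono : ∀ a b, a ≤ b → sh a ≤ sh b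
  us_mono : ∀ a b, a ≤ b → us a ≤ us b
  sh_le : ∀ a, sh a ≤ a
  ind : V → ℤ
  ind_sh : ∀ a, ind (sh a) = ind a + 3
  ind_anti : ∀ a b, a ≤ b → ind b ≤ ind a
  ind_eq : ∀ a b, a ≤ b → ind a = ind b → a = b
  refine : ∀ a b, a ≤ b → ind b < ind a → ∃ c, a ≤ c ∧ c ≤ b ∧ ind c = ind b + 1
  base : V
  ind_base : ind base = 0
  cof : ∀ a, ∃ n : ℕ, sh^[n] base ≤ a ∧ a ≤ us^[n] base

/-- the chambers: periodic maximal chains of lattices, indexed by the index -/
def Cham {V : Type} [SemilatticeSup V] (D : LatSys V) : Type :=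
  {c : ℤ → V // (∀ i, c (i + 3) = D.sh (c i)) ∧ (∀ i, c (i + 1) ≤ c i) ∧ ∀ i, D.ind (c i) = i}

/-- same lattices at the indices outside `T` -/
def chamRel {V : Type} [SemilatticeSup V] (D : LatSys V) (T : Set (ZMod 3)) (c d : Cham D) : Prop :=
  ∀ i : ℤ, (i : ZMod 3) ∉ T → c.1 i = d.1 i

/-- the homomorphism `D[t] → k((X))`, `t ↦ X⁻¹`, for an injective homomorphism `D → k` -/
noncomputable def toLS {D k : Type} [CommRing D] [Field k] (ι : D →+* k) :
    Polynomial D →+* LaurentSeries k :=
  Polynomial.eval₂RingHom (HahnSeries.C.comp ι) (HahnSeries.single (-1) 1)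

end Pool.Agent.helper36.LT
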