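import Pool.Agent.helper36.LT.MainDet
import Pool.Agent.helper20.T3.Poly
import Pool.Agent.helper43.LatSys.Main
import Pool.Agent.helper50.LT.Lat
import Pool.Agent.helper50.LT.LatSC
import Pool.Agent.helper50.LT.GLpoly

set_option autoImplicit false

/-!
# `GL_3` of polynomial rings over global fields
-/

namespace Pool.Agent.helper36.LT

open Pool.Agent.helper50.LT
open Polynomial

variable {P : ∀ (G : Type) [Group G], Prop}

/-- one polynomial variable -/
theorem gl3_poly (hP : Closed P)
    (hprod : ∀ (G H : Type) [Group G] [Group H], P G → P H → P (G × H)) : Gl3Poly P := by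
  intro D _ _ h
  exact Pool.Agent.helper20.T3.gl3_poly_of (fun V _ L => lat_sys L)
    (fun V _ L X hX => lat_sc L X hX)
    (fun k _ => Pool.Agent.helper43.LatSys.exists_latSys k)
    (fun G B _ _ X h1 h2 h3 => main_det hP hprod ⟨0, 1, by decide⟩ G B X h1 h2 h3) D h

/-! ## Finite extensions -/

/-- restriction of scalars -/
theorem gl_finite (hP : Closed P) (F K : Type) [Field F] [Field K] [Algebra F K]
    [FiniteDimensional F K] (h : ∀ n : ℕ, P (Matrix.GeneralLinearGroup (Fin n) F))
    (n : Type) [Fintype n] [DecidableEq n] : P (Matrix.GeneralLinearGroup n K) := by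
  classical
  let b := Module.finBasis F K
  let d := Module.finrank F K
  let f1 : Matrix n n K →+* Matrix n n (Matrix (Fin d) (Fin d) F) :=
    RingHom.mapMatrix (Algebra.leftMulMatrix b).toRingHom
  let f2 : Matrix n n (Matrix (Fin d) (Fin d) F) ≃+* Matrix (n × Fin d) (n × Fin d) F :=
    Matrix.compRingEquiv n (Fin d) F
  let f3 : Matrix (n × Fin d) (n × Fin d) F ≃ₐ[F]
      Matrix (Fin (Fintype.card (n × Fin d))) (Fin (Fintype.card (n × Fin d))) F :=
    Matrix.reindexAlgEquiv F F (Fintype.equivFin (n × Fin d))
  let f : Matrix n n K →+*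
      Matrix (Fin (Fintype.card (n × Fin d))) (Fin (Fintype.card (n × Fin d))) F :=
    (f3.toRingEquiv.toRingHom).comp (f2.toRingHom.comp f1)
  have hf1 : Function.Injective f1 := by
    intro M N hMN
    ext i j
    exact Algebra.leftMulMatrix_injective b (congrFun (congrFun hMN i) j)
  have hf : Function.Injective f :=
    f3.injective.comp (f2.injective.comp hf1)
  exact closed_inj hP (Units.map f.toMonoidHom) (Units.map_injective hf) (h _)

/-- extensions of large degree -/
theorem exists_large' (F : Type) [Field F]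
    (hF : ∀ N : ℕ, ∃ g : F[X], Irreducible g ∧ N < g.natDegree)
    (K : Type) [Field K] [Algebra F K] [FiniteDimensional F K] (n : ℕ) :
    ∃ (K' : Type) (_ : Field K') (_ : Algebra F K') (_ : FiniteDimensional F K') (ι : K →+* K')
      (θ : K'), ∀ q : Polynomial K, q.natDegree ≤ n → q.eval₂ ι θ = 0 → q = 0 := by
  obtain ⟨g, hg, hgd⟩ := hF (Module.finrank F K * n)
  let K' := SplittingField (g.map (algebraMap F K))
  have hK' : FiniteDimensional F K' := FiniteDimensional.trans F K K'
  have hsp : ((g.map (algebraMap F K)).map (algebraMap K K')).Splits :=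
    SplittingField.splits _
  obtain ⟨θ, hθ⟩ := hsp.exists_eval_eq_zero (by
    rw [degree_map, degree_map]
    intro h0
    have h00 : g.natDegree = 0 := natDegree_eq_of_degree_eq_some h0
    omega)
  have hθ' : aeval θ g = 0 := by
    rw [eval_map, eval₂_map, ← IsScalarTower.algebraMap_eq] at hθ
    exact hθ
  refine ⟨K', inferInstance, inferInstance, hK', algebraMap K K', θ, ?_⟩
  intro q hq h0
  by_contra hne
  have hint : IsIntegral K θ := Algebra.IsIntegral.isIntegral θ
  have hintF : IsIntegral F θ := Algebra.IsIntegral.isIntegral θ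
  have h1 : (minpoly K θ).natDegree ≤ n := by
    refine le_trans ?_ hq
    exact Polynomial.natDegree_le_natDegree (minpoly.degree_le_of_ne_zero K θ hne h0)
  let L := IntermediateField.adjoin K {θ}
  have h2 : Module.finrank K L = (minpoly K θ).natDegree := IntermediateField.adjoin.finrank hint
  have : FiniteDimensional K L := IntermediateField.adjoin.finiteDimensional hint
  have h3 : Module.finrank F K * Module.finrank K L = Module.finrank F L :=
    Module.finrank_mul_finrank F K L
  have : FiniteDimensional F L := FiniteDimensional.trans F K L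
  have htw : IsScalarTower F L K' := IsScalarTower.of_algebraMap_eq (fun x => rfl)
  let x : L := IntermediateField.AdjoinSimple.gen K θ
  have h4 : minpoly F x = minpoly F θ := by
    have : algebraMap L K' x = θ := IntermediateField.AdjoinSimple.algebraMap_gen K θ
    rw [← this]
    exact (minpoly.algebraMap_eq (algebraMap L K').injective x).symm
  have h5 : (minpoly F x).natDegree ≤ Module.finrank F L := minpoly.natDegree_le x
  have h6 : (minpoly F θ).natDegree = g.natDegree := by
    rw [← minpoly.eq_of_irreducible hg hθ', natDegree_mul_C]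
    exact inv_ne_zero (leadingCoeff_ne_zero.2 hg.ne_zero)
  rw [h4, h6, ← h3, h2] at h5
  have h7 : Module.finrank F K * (minpoly K θ).natDegree ≤ Module.finrank F K * n :=
    Nat.mul_le_mul_left _ h1
  omega

/-- irreducible polynomials of large degree over `ℚ` -/
theorem irr_rat (N : ℕ) : ∃ g : ℚ[X], Irreducible g ∧ N < g.natDegree := by
  obtain ⟨p, hp1, hp⟩ := Nat.exists_infinite_primes (N + 1)
  refine ⟨X ^ p - C 2, X_pow_sub_C_irreducible_of_prime hp ?_, ?_⟩
  · intro b hb
    have : Fact (Nat.Prime 2) := ⟨Nat.prime_two⟩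
    have h1 := padicValRat.pow (p := 2) b (k := p)
    rw [hb] at h1
    have h2 : padicValRat 2 (2 : ℚ) = 1 := by
      have := @padicValRat.self 2 (by norm_num)
      exact_mod_cast this
    rw [h2] at h1
    have h3 : (p : ℤ) ∣ 1 := ⟨_, h1⟩
    have h4 : p ∣ 1 := by exact_mod_cast h3
    exact hp.one_lt.ne' (Nat.dvd_one.1 h4)
  · rw [natDegree_X_pow_sub_C]
    omega

/-- irreducible polynomials of large degree over a field of rational functions -/
theorem irr_ratFunc (k : Type) [Field k] (N : ℕ) :
    ∃ g : (RatFunc k)[X], Irreducible g ∧ N < g.natDegree := by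
  obtain ⟨p, hp1, hp⟩ := Nat.exists_infinite_primes (N + 1)
  refine ⟨X ^ p - C RatFunc.X, X_pow_sub_C_irreducible_of_prime hp ?_, ?_⟩
  · intro b hb
    have hb0 : b ≠ 0 := by
      rintro rfl
      rw [zero_pow hp.ne_zero] at hb
      exact RatFunc.X_ne_zero hb.symm
    have h1 : ∀ m : ℕ, (b ^ m).intDegree = m * b.intDegree := by
      intro m
      induction m with
      | zero => simp [RatFunc.intDegree_one]
      | succ m ih =>
        rw [pow_succ, RatFunc.intDegree_mul (pow_ne_zero _ hb0) hb0, ih]
        push_cast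
        ring
    have h2 := h1 p
    rw [hb, RatFunc.intDegree_X] at h2
    have h3 : (p : ℤ) ∣ 1 := ⟨_, h2⟩
    have h4 : p ∣ 1 := by exact_mod_cast h3
    exact hp.one_lt.ne' (Nat.dvd_one.1 h4)
  · rw [natDegree_X_pow_sub_C]
    omega

/-! ## Fields of fractions -/

section frac

set_option linter.unusedSectionVars false

variable (D F : Type) [CommRing D] [IsDomain D] [Field F] [Algebra D F] [IsFractionRing D F]

/-- nonzero elements, ordered by divisibility -/
structure Ix where
  /-- the element -/
  f : D
  /-- it is not zero -/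
  ne : f ≠ 0

instance : Preorder (Ix D) where
  le a b := a.f ∣ b.f
  le_refl a := dvd_refl a.f
  le_trans _ _ _ := dvd_trans

instance : Nonempty (Ix D) := ⟨⟨1, one_ne_zero⟩⟩

instance : IsDirectedOrder (Ix D) :=
  ⟨fun a b => ⟨⟨a.f * b.f, mul_ne_zero a.ne b.ne⟩, dvd_mul_right _ _, dvd_mul_left _ _⟩⟩

/-- the map from the localisation -/
noncomputable def psi (a : Ix D) : Localization.Away a.f →+* F :=
  IsLocalization.Away.lift a.f (g := algebraMap D F) (by
    have : algebraMap D F a.f ≠ 0 := by
      intro h
      exact a.ne (IsFractionRing.injective D F (h.trans (map_zero _).symm))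
    exact isUnit_iff_ne_zero.2 this)

theorem psi_algebraMap (a : Ix D) (x : D) : psi D F a (algebraMap D _ x) = algebraMap D F x := by
  rw [psi, IsLocalization.Away.lift_eq]

theorem map_ne (a : Ix D) : algebraMap D F a.f ≠ 0 := fun h =>
  a.ne (IsFractionRing.injective D F (h.trans (map_zero _).symm))

theorem mem_psi_range (a : Ix D) (x : F) : x ∈ (psi D F a).range ↔ ∃ (m : ℕ) (d : D),
    x * (algebraMap D F a.f) ^ m = algebraMap D F d := by
  have hk := map_ne D F a
  constructor
  · rintro ⟨y, rfl⟩
    obtain ⟨m, d, h⟩ := IsLocalization.Away.surj a.f y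
    refine ⟨m, d, ?_⟩
    have h1 := congrArg (psi D F a) h
    rwa [map_mul, map_pow, psi_algebraMap, psi_algebraMap] at h1
  · rintro ⟨m, d, h⟩
    have hu : IsUnit (algebraMap D (Localization.Away a.f) a.f) :=
      IsLocalization.Away.algebraMap_isUnit _
    obtain ⟨u, hu⟩ := hu
    refine ⟨algebraMap D _ d * ((u⁻¹ ^ m : (Localization.Away a.f)ˣ) : Localization.Away a.f), ?_⟩
    have h2 : psi D F a (u : Localization.Away a.f) = algebraMap D F a.f := by
      rw [hu, psi_algebraMap]
    have h3 : psi D F a ((u⁻¹ ^ m : (Localization.Away a.f)ˣ) : Localization.Away a.f) *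
        (algebraMap D F a.f) ^ m = 1 := by
      rw [← h2, ← map_pow, ← map_mul, ← Units.val_pow_eq_pow_val, ← Units.val_mul, inv_pow,
        inv_mul_cancel, Units.val_one, map_one]
    rw [map_mul, psi_algebraMap, ← h, mul_assoc, mul_comm ((algebraMap D F a.f) ^ m), h3, mul_one]

theorem psi_injective (a : Ix D) : Function.Injective (psi D F a) := by
  rw [injective_iff_map_eq_zero]
  intro y hy
  obtain ⟨m, d, h⟩ := IsLocalization.Away.surj a.f y
  have h1 := congrArg (psi D F a) h
  rw [map_mul, psi_algebraMap, hy, zero_mul] at h1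
  have ha : d = 0 := IsFractionRing.injective D F (h1.symm.trans (map_zero _).symm)
  rw [ha, map_zero] at h
  have hu : IsUnit (algebraMap D (Localization.Away a.f) a.f) :=
    IsLocalization.Away.algebraMap_isUnit _
  exact (hu.pow m).mul_left_eq_zero.1 h

theorem gl_frac (hP : Closed P) (n : ℕ)
    (h : ∀ f : D, f ≠ 0 → P (Matrix.GeneralLinearGroup (Fin n) (Localization.Away f))) :
    P (Matrix.GeneralLinearGroup (Fin n) F) := by
  apply closed_GL_union (Fin n) hP (Ix D) (fun a => Localization.Away a.f) (psi D F)
    (psi_injective D F)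
  · intro i j hij x hx
    rw [mem_psi_range] at hx ⊢
    obtain ⟨m, a, ha⟩ := hx
    obtain ⟨c, hc⟩ := hij
    refine ⟨m, a * c ^ m, ?_⟩
    rw [hc, map_mul, mul_pow, ← mul_assoc, ha, map_mul, map_pow]
  · intro x
    obtain ⟨a, b, hb, rfl⟩ := IsFractionRing.div_surjective (A := D) x
    have hb0 : b ≠ 0 := nonZeroDivisors.ne_zero hb
    refine ⟨⟨b, hb0⟩, ?_⟩
    rw [mem_psi_range]
    refine ⟨1, a, ?_⟩
    rw [pow_one, div_mul_cancel₀]
    exact map_ne D F ⟨b, hb0⟩
  · intro a
    exact h a.f a.ne

end frac

/-! ## Polynomial rings -/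

/-- a class of fields with extensions of large degree -/
theorem gl3_fin' (hP : Closed P) (hpoly : Gl3Poly P) (F : Type) [Field F]
    (hF : ∀ N : ℕ, ∃ g : F[X], Irreducible g ∧ N < g.natDegree)
    (hGL : ∀ (K : Type) [Field K] [Algebra F K] [FiniteDimensional F K],
      P (Matrix.GeneralLinearGroup (Fin 3) K)) (m : ℕ) :
    ∀ (K : Type) [Field K] [Algebra F K] [FiniteDimensional F K],
      P (Matrix.GeneralLinearGroup (Fin 3) (MvPolynomial (Fin m) K)) := by
  induction m with
  | zero =>
    intro K _ _ _
    let e : MvPolynomial (Fin 0) K ≃+* K := (MvPolynomial.isEmptyRingEquiv K (Fin 0))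
    exact closed_inj hP (Matrix.GeneralLinearGroup.map e.toRingHom)
      (GL_map_injective _ _ e.injective) (hGL K)
  | succ m ih =>
    intro K _ _ _
    let e : MvPolynomial (Fin (m + 1)) K ≃+* Polynomial (MvPolynomial (Fin m) K) :=
      (MvPolynomial.finSuccEquiv K m).toRingEquiv
    apply closed_inj hP (Matrix.GeneralLinearGroup.map e.toRingHom)
      (GL_map_injective _ _ e.injective)
    apply hpoly
    intro n
    obtain ⟨K', _, _, _, ι, θ, h⟩ := exists_large' F hF K n
    exact ⟨MvPolynomial (Fin m) K', inferInstance,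
      Polynomial.eval₂RingHom (MvPolynomial.map ι) (MvPolynomial.C θ), ih K',
      fun p hp h0 => poly_inj ι θ n h _ p hp h0⟩

theorem gl3_any (hP : Closed P) (hpoly : Gl3Poly P) (F : Type) [Field F]
    (hF : ∀ N : ℕ, ∃ g : F[X], Irreducible g ∧ N < g.natDegree)
    (hGL : ∀ (K : Type) [Field K] [Algebra F K] [FiniteDimensional F K],
      P (Matrix.GeneralLinearGroup (Fin 3) K))
    (K σ : Type) [Field K] [Algebra F K] [FiniteDimensional F K] :
    P (Matrix.GeneralLinearGroup (Fin 3) (MvPolynomial σ K)) := by
  classical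
  apply closed_GL_union (Fin 3) hP (Finset σ) (fun F => MvPolynomial F K)
    (fun F => (MvPolynomial.rename (Subtype.val : F → σ) :
      MvPolynomial F K →ₐ[K] MvPolynomial σ K).toRingHom)
  · intro F
    exact MvPolynomial.rename_injective _ Subtype.val_injective
  · rintro F F' hF x ⟨q, rfl⟩
    refine ⟨MvPolynomial.rename (fun i : F => (⟨i.1, hF i.2⟩ : F')) q, ?_⟩
    exact MvPolynomial.rename_rename _ _ q
  · intro x
    obtain ⟨F, q, hq⟩ := MvPolynomial.exists_finset_rename x
    exact ⟨F, q, hq.symm⟩
  · intro A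
    let e : MvPolynomial A K ≃+* MvPolynomial (Fin (Fintype.card A)) K :=
      (MvPolynomial.renameEquiv K (Fintype.equivFin A)).toRingEquiv
    exact closed_inj hP (Matrix.GeneralLinearGroup.map e.toRingHom)
      (GL_map_injective _ _ e.injective) (gl3_fin' hP hpoly F hF hGL _ K)

theorem gl3_alg (hP : Closed P) (hpoly : Gl3Poly P) (F : Type) [Field F]
    (hF : ∀ N : ℕ, ∃ g : F[X], Irreducible g ∧ N < g.natDegree)
    (hGL : ∀ (K : Type) [Field K] [Algebra F K] [FiniteDimensional F K],
      P (Matrix.GeneralLinearGroup (Fin 3) K))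
    (K σ : Type) [Field K] [Algebra F K] [Algebra.IsAlgebraic F K] :
    P (Matrix.GeneralLinearGroup (Fin 3) (MvPolynomial σ K)) := by
  classical
  apply closed_GL_union (Fin 3) hP (Finset K)
    (fun s => MvPolynomial σ (IntermediateField.adjoin F (s : Set K)))
    (fun s => MvPolynomial.map (algebraMap (IntermediateField.adjoin F (s : Set K)) K))
  · intro s
    exact MvPolynomial.map_injective _ (algebraMap (IntermediateField.adjoin F (s : Set K)) K).injective
  · intro s t hst x hx
    have hx' : x ∈ Set.range (MvPolynomial.map (σ := σ)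
      (algebraMap (IntermediateField.adjoin F (s : Set K)) K)) := hx
    rw [MvPolynomial.mem_range_map_iff_coeffs_subset] at hx'
    show x ∈ Set.range (MvPolynomial.map (σ := σ)
      (algebraMap (IntermediateField.adjoin F (t : Set K)) K))
    rw [MvPolynomial.mem_range_map_iff_coeffs_subset]
    refine hx'.trans ?_
    rintro _ ⟨y, rfl⟩
    have : IntermediateField.adjoin F (s : Set K) ≤ IntermediateField.adjoin F (t : Set K) :=
      IntermediateField.adjoin.mono _ _ _ (by exact_mod_cast hst)
    exact ⟨⟨y.1, this y.2⟩, rfl⟩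
  · intro x
    refine ⟨x.coeffs, ?_⟩
    show x ∈ Set.range (MvPolynomial.map (σ := σ)
      (algebraMap (IntermediateField.adjoin F (x.coeffs : Set K)) K))
    rw [MvPolynomial.mem_range_map_iff_coeffs_subset]
    intro y hy
    exact ⟨⟨y, IntermediateField.subset_adjoin F _ hy⟩, rfl⟩
  · intro s
    have : FiniteDimensional F (IntermediateField.adjoin F (s : Set K)) :=
      IntermediateField.finiteDimensional_adjoin (fun x _ => Algebra.IsIntegral.isIntegral x)
    exact gl3_any hP hpoly F hF hGL _ σ

end Pool.Agent.helper36.LT
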