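import Pool.Agent.helper36.LT.GL3Sub
import Pool.Agent.helper28.GF.Graded

set_option autoImplicit false

/-!
# `GL_3` of graded commutative rings

This file adapts the files `Ring` and `Graded` of helper28 from `GL_2` to `GL_3`.
-/

namespace Pool.Agent.helper36.LT

open Pool.Agent.helper16.FJ Pool.Agent.helper7.Wr Monoid Matrix
open Pool.Agent.helper28.GF (Cls coact eval_one_coact eval_zero_coact)
open scoped Polynomial

/-- the Noetherian case, over a cyclic group of constants -/
theorem noeth_cyc {P : ∀ (G : Type) [Group G], Prop} (hC : Closed P) (hP : Cls P) (A : Type) [CommRing A]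
    [IsNoetherianRing A] (q : GL (Fin 3) A) :
    P ((Subgroup.zpowers q).comap
      (Matrix.GeneralLinearGroup.map (n := Fin 3) (Polynomial.evalRingHom (0 : A)))) := by
  let ev : ∀ (B : Type) [CommRing B], GL (Fin 3) B[X] →* GL (Fin 3) B := fun B _ =>
    Matrix.GeneralLinearGroup.map (n := Fin 3) (Polynomial.evalRingHom (0 : B))
  have hfin : Finite (minimalPrimes A) := (minimalPrimes.finite_of_isNoetherianRing A).to_subtype
  have hprime : ∀ p : minimalPrimes A, (p : Ideal A).IsPrime := fun p => p.2.1.1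
  let K : minimalPrimes A → Type := fun p => A ⧸ (p : Ideal A)
  let _ : ∀ p, CommRing (K p) := fun p => inferInstanceAs (CommRing (A ⧸ (p : Ideal A)))
  have hdom : ∀ p, IsDomain (K p) := fun p => by
    have := hprime p
    exact inferInstanceAs (IsDomain (A ⧸ (p : Ideal A)))
  let φ : ∀ p, A →+* K p := fun p => Ideal.Quotient.mk (p : Ideal A)
  have hφ : ∀ p a, φ p a = 0 → a ∈ (p : Ideal A) := by
    intro p a h
    exact Ideal.Quotient.eq_zero_iff_mem.1 h
  let H := (Subgroup.zpowers q).comap (ev A)
  let Φ : ∀ p, GL (Fin 3) A[X] →* GL (Fin 3) (K p)[X] := fun p =>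
    Matrix.GeneralLinearGroup.map (n := Fin 3) (Polynomial.mapRingHom (φ p))
  have hΦ : ∀ p M, ev (K p) (Φ p M) = Matrix.GeneralLinearGroup.map (n := Fin 3) (φ p) (ev A M) := by
    intro p M
    apply Units.ext
    ext i j
    show Polynomial.eval 0 (Polynomial.map (φ p) (M i j)) = φ p (Polynomial.eval 0 (M i j))
    rw [← map_zero (φ p), Polynomial.eval_map_apply]
  let T : minimalPrimes A → Type := fun p =>
    ((Subgroup.zpowers (Matrix.GeneralLinearGroup.map (n := Fin 3) (φ p) q)).comap (ev (K p)) :
      Subgroup (GL (Fin 3) (K p)[X]))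
  have hT : ∀ p, P (T p) := by
    intro p
    have := hdom p
    refine domain_case hC hP (K p) _ (hP.solvable _ ?_)
    refine Group.isSolvable_of_comm ?_
    rintro ⟨_, x, ⟨k, hk⟩, rfl⟩ ⟨_, y, ⟨l, hl⟩, rfl⟩
    apply Subtype.ext
    have hk : (Matrix.GeneralLinearGroup.map (n := Fin 3) (φ p) q) ^ k = ev (K p) x := hk
    have hl : (Matrix.GeneralLinearGroup.map (n := Fin 3) (φ p) q) ^ l = ev (K p) y := hl
    show ev (K p) x * ev (K p) y = ev (K p) y * ev (K p) x
    rw [← hk, ← hl]
    exact zpow_mul_comm _ k l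
  have hPT : P (∀ p, T p) := Inherit_pi hP.toInherit _ T hT
  let f : H →* (∀ p, T p) :=
    { toFun := fun x p => ⟨Φ p (x : GL (Fin 3) A[X]), by
        obtain ⟨x, k, hk⟩ := x
        have hk : q ^ k = ev A x := hk
        refine ⟨k, ?_⟩
        show (Matrix.GeneralLinearGroup.map (n := Fin 3) (φ p) q) ^ k = ev (K p) (Φ p x)
        rw [hΦ, ← hk, map_zpow]⟩
      map_one' := by
        funext p
        apply Subtype.ext
        exact map_one (Φ p)
      map_mul' := by
        intro x y
        funext p
        apply Subtype.ext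
        exact map_mul (Φ p) (x : GL (Fin 3) A[X]) (y : GL (Fin 3) A[X]) }
  refine hP.solvable_by f hPT ?_
  -- the kernel
  obtain ⟨n, hn⟩ := IsNoetherianRing.isNilpotent_nilradical A
  have hn' : ((nilradical A).map (Polynomial.C : A →+* A[X])) ^ (2 ^ n) = ⊥ := by
    have h1 : ((nilradical A).map (Polynomial.C : A →+* A[X])) ^ n = ⊥ := by
      rw [← Ideal.map_pow, hn]
      exact Ideal.map_bot
    have h2 : n ≤ 2 ^ n := Nat.lt_two_pow_self.le
    exact le_bot_iff.1 ((Ideal.pow_le_pow_right h2).trans h1.le)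
  have hs := Gam_solvable (m := Fin 3) n _ hn'
  let g : f.ker →* Gam (m := Fin 3) ((nilradical A).map (Polynomial.C : A →+* A[X])) :=
    { toFun := fun x => ⟨((x : H) : GL (Fin 3) A[X]), by
        rw [mem_Gam]
        intro i j
        rw [Ideal.mem_map_C_iff]
        intro m
        have hker : f (x : H) = 1 := x.2
        rw [nilradical, ← Ideal.sInf_minimalPrimes, Ideal.mem_sInf]
        intro p hp
        apply hφ ⟨p, hp⟩
        have h1 : Φ ⟨p, hp⟩ ((x : H) : GL (Fin 3) A[X]) = 1 :=
          congrArg Subtype.val (congrFun hker ⟨p, hp⟩)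
        have h2 : Polynomial.map (φ ⟨p, hp⟩) (((x : H) : GL (Fin 3) A[X]) i j) =
          (1 : Matrix (Fin 3) (Fin 3) (K ⟨p, hp⟩)[X]) i j :=
          congrFun (congrFun (congrArg (fun z : GL (Fin 3) (K ⟨p, hp⟩)[X] =>
            (z : Matrix (Fin 3) (Fin 3) (K ⟨p, hp⟩)[X])) h1) i) j
        rw [← Polynomial.coeff_map, Polynomial.map_sub, h2, Matrix.one_apply, Matrix.one_apply]
        split_ifs <;> simp⟩
      map_one' := rfl
      map_mul' := fun _ _ => rfl }
  refine Group.isSolvable_of_isSolvable_injective (f := g) ?_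
  intro x y hxy
  apply Subtype.ext
  apply Subtype.ext
  exact congrArg (fun z : Gam (m := Fin 3) ((nilradical A).map (Polynomial.C : A →+* A[X])) =>
    (z : GL (Fin 3) A[X])) hxy

/-- extension by the constants -/
theorem of_cyc {P : ∀ (G : Type) [Group G], Prop} (hC : Closed P) (hP : Cls P) {W Q : Type} [Group W] [Group Q]
    (π : W →* Q) (h : ∀ q : Q, P ((Subgroup.zpowers q).comap π)) (G : Subgroup W)
    (hG : P (G.map π)) : P G := by
  let f : G →* G.map π := π.subgroupMap G
  refine hP.extension _ _ f hG fun C hC => hP.comap_vcyc f hC fun q _ => ?_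
  let g : (Subgroup.zpowers q).comap f →* (Subgroup.zpowers (q : Q)).comap π :=
    { toFun := fun x => ⟨((x : G) : W), by
        obtain ⟨⟨x, hx⟩, j, hj⟩ := x
        refine ⟨j, ?_⟩
        have h1 := congrArg (fun z : G.map π => (z : Q)) hj
        have h2 : (q : Q) ^ j = π x := h1
        exact h2⟩
      map_one' := rfl
      map_mul' := fun _ _ => rfl }
  refine hP.of_injective g ?_ (h q)
  intro x y hxy
  apply Subtype.ext
  apply Subtype.ext
  exact congrArg (fun z : (Subgroup.zpowers (q : Q)).comap π => (z : W)) hxy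

/-- lifting invertible matrices -/
theorem lift_GL {A B : Type} [CommRing A] [CommRing B] (f : A →+* B) (hf : Function.Injective f)
    (M : GL (Fin 3) B) (h1 : ∀ i j, ∃ a, f a = M i j)
    (h2 : ∀ i j, ∃ a, f a = (M⁻¹ : GL (Fin 3) B) i j) :
    ∃ N : GL (Fin 3) A, Matrix.GeneralLinearGroup.map (n := Fin 3) f N = M := by
  choose N hN using h1
  choose N' hN' using h2
  have hinj : Function.Injective (fun X : Matrix (Fin 3) (Fin 3) A => X.map f) := by
    intro X Y hXY
    ext i j
    exact hf (congrFun (congrFun hXY i) j)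
  have e1 : (Matrix.of N).map f = (M : Matrix (Fin 3) (Fin 3) B) := by
    ext i j; exact hN i j
  have e2 : (Matrix.of N').map f = ((M⁻¹ : GL (Fin 3) B) : Matrix (Fin 3) (Fin 3) B) := by
    ext i j; exact hN' i j
  refine ⟨⟨Matrix.of N, Matrix.of N', ?_, ?_⟩, ?_⟩
  · apply hinj
    show (Matrix.of N * Matrix.of N').map f = (1 : Matrix (Fin 3) (Fin 3) A).map f
    rw [Matrix.map_mul, e1, e2, Matrix.map_one f (map_zero f) (map_one f)]
    exact Units.mul_inv M
  · apply hinj
    show (Matrix.of N' * Matrix.of N).map f = (1 : Matrix (Fin 3) (Fin 3) A).map f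
    rw [Matrix.map_mul, e1, e2, Matrix.map_one f (map_zero f) (map_one f)]
    exact Units.inv_mul M
  · apply Units.ext
    exact e1

/-- **Polynomial rings**: a subgroup of `GL₃(A[X])` is in the class when its specialisation at
`X = 0` is. -/
theorem ring_case {P : ∀ (G : Type) [Group G], Prop} (hC : Closed P) (hP : Cls P) (A : Type) [CommRing A]
    (G : Subgroup (GL (Fin 3) A[X]))
    (h : P (G.map (Matrix.GeneralLinearGroup.map (n := Fin 3) (Polynomial.evalRingHom (0 : A))))) :
    P G := by
  classical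
  refine hP.of_fg fun S => ?_
  -- coefficients
  let C : Finset A := S.biUnion fun s => Finset.univ.biUnion fun i : Fin 3 =>
    Finset.univ.biUnion fun j : Fin 3 =>
      (((s : GL (Fin 3) A[X]) i j).coeffs ∪ (((s : GL (Fin 3) A[X])⁻¹ : GL (Fin 3) A[X]) i j).coeffs)
  let A0 : Subalgebra ℤ A := Algebra.adjoin ℤ (C : Set A)
  have hft : Algebra.FiniteType ℤ A0 := Subalgebra.fg_iff_finiteType A0 |>.1 ⟨C, rfl⟩
  have hN : IsNoetherianRing A0 := Algebra.FiniteType.isNoetherianRing ℤ A0
  let i0 : A0 →+* A := A0.val.toRingHom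
  have hi0 : Function.Injective i0 := Subtype.val_injective
  have hi1 : Function.Injective (Polynomial.mapRingHom i0) := Polynomial.map_injective _ hi0
  let I : GL (Fin 3) A0[X] →* GL (Fin 3) A[X] :=
    Matrix.GeneralLinearGroup.map (n := Fin 3) (Polynomial.mapRingHom i0)
  let I0 : GL (Fin 3) A0 →* GL (Fin 3) A := Matrix.GeneralLinearGroup.map (n := Fin 3) i0
  have hGLinj : ∀ {B D : Type} [CommRing B] [CommRing D] (f : B →+* D), Function.Injective f →
      Function.Injective (Matrix.GeneralLinearGroup.map (n := Fin 3) f) := by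
    intro B D _ _ f hf M N hMN
    apply Units.ext
    ext i j
    exact hf (congrFun (congrFun (congrArg (fun z : GL (Fin 3) D =>
      (z : Matrix (Fin 3) (Fin 3) D)) hMN) i) j)
  have hI : Function.Injective I := hGLinj _ hi1
  have hI0 : Function.Injective I0 := hGLinj _ hi0
  have hev : ∀ M, Matrix.GeneralLinearGroup.map (n := Fin 3) (Polynomial.evalRingHom (0 : A)) (I M) =
      I0 (Matrix.GeneralLinearGroup.map (n := Fin 3) (Polynomial.evalRingHom (0 : A0)) M) := by
    intro M
    apply Units.ext
    ext i j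
    show Polynomial.eval 0 (Polynomial.map i0 (M i j)) = i0 (Polynomial.eval 0 (M i j))
    rw [← map_zero i0, Polynomial.eval_map_apply]
  have hmem : ∀ s ∈ S, ∀ i j, (∃ a, Polynomial.mapRingHom i0 a = (s : GL (Fin 3) A[X]) i j) ∧
      ∃ a, Polynomial.mapRingHom i0 a = ((s : GL (Fin 3) A[X])⁻¹ : GL (Fin 3) A[X]) i j := by
    intro s hs i j
    have key : ∀ p : A[X], p.coeffs ⊆ C → ∃ a, Polynomial.mapRingHom i0 a = p := by
      intro p hp
      have h1 : p ∈ Polynomial.lifts i0 := by
        rw [Polynomial.lifts_iff_coeff_lifts]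
        intro n
        by_cases h0 : p.coeff n = 0
        · exact ⟨0, by rw [h0, map_zero]⟩
        · have h2 : p.coeff n ∈ C := hp (Polynomial.coeff_mem_coeffs h0)
          exact ⟨⟨p.coeff n, Algebra.subset_adjoin h2⟩, rfl⟩
      exact (Polynomial.mem_lifts _).1 h1
    constructor
    · apply key
      intro c hc
      simp only [C, Finset.mem_biUnion]
      exact ⟨s, hs, i, Finset.mem_univ _, j, Finset.mem_univ _, Finset.mem_union_left _ hc⟩
    · apply key
      intro c hc
      simp only [C, Finset.mem_biUnion]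
      exact ⟨s, hs, i, Finset.mem_univ _, j, Finset.mem_univ _, Finset.mem_union_right _ hc⟩
  -- the group over the subring
  let D : Subgroup (GL (Fin 3) A[X]) := (Subgroup.closure (S : Set G)).map G.subtype
  have hD : D ≤ I.range := by
    have : D = Subgroup.closure (G.subtype '' (S : Set G)) := by
      rw [← MonoidHom.map_closure]
    rw [this, Subgroup.closure_le]
    rintro _ ⟨s, hs, rfl⟩
    obtain ⟨N, hN⟩ := lift_GL (Polynomial.mapRingHom i0) hi1 (s : GL (Fin 3) A[X])
      (fun i j => (hmem s hs i j).1) (fun i j => (hmem s hs i j).2)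
    exact ⟨N, hN⟩
  let D0 : Subgroup (GL (Fin 3) A0[X]) := D.comap I
  have hD0 : P D0 := by
    refine of_cyc hC hP (Matrix.GeneralLinearGroup.map (n := Fin 3) (Polynomial.evalRingHom (0 : A0)))
      (fun q => noeth_cyc hC hP A0 q) D0 ?_
    let g : D0.map (Matrix.GeneralLinearGroup.map (n := Fin 3) (Polynomial.evalRingHom (0 : A0))) →*
        G.map (Matrix.GeneralLinearGroup.map (n := Fin 3) (Polynomial.evalRingHom (0 : A))) :=
      { toFun := fun x => ⟨I0 x, by
          obtain ⟨_, x, hx, rfl⟩ := x
          obtain ⟨y, hy, hy'⟩ : I x ∈ D := hx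
          refine ⟨y, y.2, ?_⟩
          have hy' : (y : GL (Fin 3) A[X]) = I x := hy'
          rw [hy', hev]⟩
        map_one' := Subtype.ext (map_one I0)
        map_mul' := fun x y => Subtype.ext (map_mul I0 _ _) }
    refine hP.of_injective g ?_ h
    intro x y hxy
    apply Subtype.ext
    exact hI0 (congrArg Subtype.val hxy)
  have e1 : D0.map I = D := by
    rw [Subgroup.map_comap_eq, inf_eq_right]
    exact hD
  have hPD : P D := by
    rw [← e1]
    exact hP.of_mulEquiv (D0.equivMapOfInjective I hI) hD0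
  exact hP.of_mulEquiv ((Subgroup.closure (S : Set G)).equivMapOfInjective G.subtype
    G.subtype_injective).symm hPD

/-- rings which map injectively to a polynomial ring -/
theorem of_coaction {P : ∀ (G : Type) [Group G], Prop} (hC : Closed P) (hP : Cls P) {A B : Type} [CommRing A]
    [CommRing B] (φ : A →+* B[X]) (hφ : Function.Injective φ) (G : Subgroup (GL (Fin 3) A))
    (h : P (G.map (Matrix.GeneralLinearGroup.map (n := Fin 3)
      ((Polynomial.evalRingHom (0 : B)).comp φ)))) : P G := by
  let Φ : GL (Fin 3) A →* GL (Fin 3) B[X] := Matrix.GeneralLinearGroup.map (n := Fin 3) φ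
  have hΦ : Function.Injective Φ := by
    intro M N hMN
    apply Units.ext
    ext i j
    exact hφ (congrFun (congrFun (congrArg (fun z : GL (Fin 3) B[X] =>
      (z : Matrix (Fin 3) (Fin 3) B[X])) hMN) i) j)
  refine hP.of_mulEquiv (G.equivMapOfInjective Φ hΦ).symm (ring_case hC hP B _ ?_)
  rw [Subgroup.map_map]
  exact h

/-- graded rings -/
theorem graded_case {P : ∀ (G : Type) [Group G], Prop} (hC : Closed P) (hP : Cls P) {A σ : Type} [CommRing A]
    [SetLike σ A] [AddSubmonoidClass σ A] (𝒜 : ℕ → σ) [GradedRing 𝒜] (G : Subgroup (GL (Fin 3) A))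
    (h : P (G.map (Matrix.GeneralLinearGroup.map (n := Fin 3) (GradedRing.projZeroRingHom 𝒜)))) :
    P G := by
  refine of_coaction hC hP (coact 𝒜) (Function.LeftInverse.injective (g := Polynomial.eval 1)
    (eval_one_coact 𝒜)) G ?_
  rw [eval_zero_coact]
  exact h

end Pool.Agent.helper36.LT
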