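import Pool.Agent.helper36.LT.GL3Ring

set_option autoImplicit false

/-!
# `GL_n`, `n ≤ 3`, as a subgroup of `GL_3`
-/

namespace Pool.Agent.helper36.LT

open Pool.Agent.helper28.GF (Cls)
open Matrix

/-- the index bijection -/
def eqv (n : ℕ) (hn : n ≤ 3) : Fin n ⊕ Fin (3 - n) ≃ Fin 3 :=
  finSumFinEquiv.trans (finCongr (by omega))

/-- block matrices -/
noncomputable def blk (n : ℕ) (hn : n ≤ 3) (A : Type) [CommRing A] :
    Matrix (Fin n) (Fin n) A →* Matrix (Fin 3) (Fin 3) A where
  toFun M := Matrix.reindexAlgEquiv A A (eqv n hn) (Matrix.fromBlocks M 0 0 1)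
  map_one' := by
    rw [Matrix.fromBlocks_one, map_one]
  map_mul' M N := by
    rw [← map_mul, Matrix.fromBlocks_multiply]
    simp

theorem blk_apply (n : ℕ) (hn : n ≤ 3) (A : Type) [CommRing A] (M : Matrix (Fin n) (Fin n) A)
    (i j : Fin 3) : blk n hn A M i j =
      Matrix.fromBlocks M 0 0 1 ((eqv n hn).symm i) ((eqv n hn).symm j) := rfl

theorem blk_injective (n : ℕ) (hn : n ≤ 3) (A : Type) [CommRing A] :
    Function.Injective (blk n hn A) := by
  intro M N h
  have h1 := (Matrix.reindexAlgEquiv A A (eqv n hn)).injective h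
  exact (Matrix.fromBlocks_inj.1 h1).1

theorem blk_map (n : ℕ) (hn : n ≤ 3) (A B : Type) [CommRing A] [CommRing B] (f : A →+* B)
    (M : Matrix (Fin n) (Fin n) A) : blk n hn B (M.map f) = (blk n hn A M).map f := by
  ext i j
  rw [Matrix.map_apply, blk_apply, blk_apply]
  rcases (eqv n hn).symm i with i | i <;> rcases (eqv n hn).symm j with j | j <;>
    simp [Matrix.one_apply]

/-- graded rings, `n ≤ 3` -/
theorem graded_small {P : ∀ (G : Type) [Group G], Prop} (hC : Closed P) (hP : Cls P) {A σ : Type}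
    [CommRing A] [SetLike σ A] [AddSubmonoidClass σ A] (𝒜 : ℕ → σ) [GradedRing 𝒜] (n : ℕ)
    (hn : n ≤ 3) (G : Subgroup (GL (Fin n) A))
    (h : P (G.map (Matrix.GeneralLinearGroup.map (n := Fin n) (GradedRing.projZeroRingHom 𝒜)))) :
    P G := by
  let E : GL (Fin n) A →* GL (Fin 3) A := Units.map (blk n hn A)
  have hE : Function.Injective E := Units.map_injective (blk_injective n hn A)
  let π : GL (Fin n) A →* GL (Fin n) A :=
    Matrix.GeneralLinearGroup.map (n := Fin n) (GradedRing.projZeroRingHom 𝒜)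
  let π3 : GL (Fin 3) A →* GL (Fin 3) A :=
    Matrix.GeneralLinearGroup.map (n := Fin 3) (GradedRing.projZeroRingHom 𝒜)
  have hc : π3.comp E = E.comp π := by
    ext M : 1
    apply Units.ext
    exact (blk_map n hn A A (GradedRing.projZeroRingHom 𝒜) M).symm
  refine hP.of_mulEquiv (G.equivMapOfInjective E hE).symm ?_
  refine graded_case hC hP 𝒜 (G.map E) ?_
  show P ((G.map E).map π3)
  rw [Subgroup.map_map, hc, ← Subgroup.map_map]
  exact hP.of_mulEquiv ((G.map π).equivMapOfInjective E hE) h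

end Pool.Agent.helper36.LT
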