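import Pool.Agent.helper36.LT.MainDet
import Pool.Agent.helper20.T3.Poly
import Pool.Agent.helper43.LatSys.Main
import Pool.Agent.helper50.LT.Lat
import Pool.Agent.helper50.LT.LatSC
import Pool.Agent.helper28.GF.Base
import Pool.Agent.helper7.Wr.Main

set_option autoImplicit false

/-!
# Subgroups of `GL_3(D[X])`, `D` a domain
-/

namespace Pool.Agent.helper36.LT

open Pool.Agent.helper20.T3
open Pool.Agent.helper28.GF
open scoped Polynomial
open Matrix (GeneralLinearGroup)

/-- subgroups of `GL_3(D[X])` which have homomorphisms that are injective on elements of bounded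
degree -/
theorem gl3_sub {P : ∀ (G : Type) [Group G], Prop} (hP : Closed P)
    (hprod : ∀ (G H : Type) [Group G] [Group H], P G → P H → P (G × H))
    (D : Type) [CommRing D] [IsDomain D] (G : Type) [Group G]
    (j : G →* GL (Fin 3) (Polynomial D))
    (h : ∀ n : ℕ, ∃ (Q : Type) (_ : Group Q) (φ : G →* Q), P Q ∧
      ∀ g : G, (∀ a b, ((j g : Matrix (Fin 3) (Fin 3) (Polynomial D)) a b).natDegree ≤ n) →
        φ g = 1 → g = 1) : P G := by
  let k := FractionRing D
  let ι : D →+* k := algebraMap D k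
  have hι : Function.Injective ι := IsFractionRing.injective D k
  obtain ⟨V, iV, L, act, c1, c2, c3, c4⟩ := Pool.Agent.helper43.LatSys.exists_latSys k
  let F : G →* GL (Fin 3) (LaurentSeries k) :=
    (Matrix.GeneralLinearGroup.map (toLS ι)).comp j
  have hF : ∀ (g : G) a b,
      (F g : Matrix (Fin 3) (Fin 3) (LaurentSeries k)) a b =
        toLS ι ((j g : Matrix (Fin 3) (Fin 3) (Polynomial D)) a b) := fun g a b => rfl
  let _ : MulAction G V := MulAction.compHom V F
  have hact : ∀ (g : G) (a : V), g • a = F g • a := fun g a => rfl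
  have hdet : ∀ g : G,
      (F g : Matrix (Fin 3) (Fin 3) (LaurentSeries k)).det.order = 0 := by
    intro g
    have e : (F g : Matrix (Fin 3) (Fin 3) (LaurentSeries k)).det =
        toLS ι ((j g : Matrix (Fin 3) (Fin 3) (Polynomial D)).det) := by
      have := (RingHom.map_det (toLS ι) (j g : Matrix (Fin 3) (Fin 3) (Polynomial D))).symm
      exact this
    rw [e]
    exact order_unit ι _ ((Matrix.isUnit_iff_isUnit_det _).1 (j g).isUnit)
  obtain ⟨actC, hactC⟩ := ex_action L G
    (fun g a b hab => c1 (F g) a b hab) (fun g a => c2 (F g) a)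
    (fun g a => by rw [hact, c3, hdet, add_zero])
  obtain ⟨X, hX⟩ := Pool.Agent.helper50.LT.lat_sys L
  refine main_det hP hprod ⟨0, 1, by decide⟩ G (Cham L) X
    (Pool.Agent.helper50.LT.lat_sc L X hX) ?_ ?_
  · intro g T b c hbc
    rw [hX] at hbc ⊢
    intro i hi
    rw [hactC, hactC, hbc i hi]
  · intro T c hT
    obtain ⟨i, hi⟩ := exists_outside T hT
    obtain ⟨n, hn⟩ := c4 (c.1 i)
    obtain ⟨Q, iQ, φ, hPQ, hφ⟩ := h n
    refine ⟨Q, iQ, φ, hPQ, ?_⟩
    intro g hg hg1
    have hg' : X.r T c (g • c) := hg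
    rw [hX] at hg'
    have h1 : F g • c.1 i = c.1 i := by
      rw [← hact, ← hactC]
      exact (hg' i hi).symm
    have h2 := hn (F g) h1
    refine hφ g ?_ hg1
    intro a b
    refine natDegree_le_of_order ι hι _ n ?_
    rw [← hF]
    exact h2 a b

section gam

variable {m : Type} [Fintype m] [DecidableEq m]

/-- congruence subgroups -/
def Gam {B : Type} [CommRing B] (J : Ideal B) : Subgroup (GL m B) :=
  (Matrix.GeneralLinearGroup.map (n := m) (Ideal.Quotient.mk J)).ker

theorem mem_Gam {B : Type} [CommRing B] (J : Ideal B) (M : GL m B) :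
    M ∈ Gam J ↔ ∀ i j, M i j - (1 : Matrix m m B) i j ∈ J := by
  rw [Gam, MonoidHom.mem_ker]
  constructor
  · intro h i j
    have h2 : Ideal.Quotient.mk J (M i j) = (1 : Matrix m m (B ⧸ J)) i j :=
      congrFun (congrFun (congrArg (fun z : GL m (B ⧸ J) =>
        (z : Matrix m m (B ⧸ J))) h) i) j
    rw [← Ideal.Quotient.eq_zero_iff_mem, map_sub, h2, Matrix.one_apply, Matrix.one_apply]
    split_ifs <;> simp
  · intro h
    apply Units.ext
    ext i j
    show Ideal.Quotient.mk J (M i j) = (1 : Matrix m m (B ⧸ J)) i j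
    have h1 := h i j
    rw [← Ideal.Quotient.eq_zero_iff_mem, map_sub, sub_eq_zero] at h1
    rw [h1, Matrix.one_apply, Matrix.one_apply]
    split_ifs <;> simp

theorem Gam_comm {B : Type} [CommRing B] (J : Ideal B) {M M' : GL m B} (hM : M ∈ Gam J)
    (hM' : M' ∈ Gam J) :
    Matrix.GeneralLinearGroup.map (n := m) (Ideal.Quotient.mk (J ^ 2)) (M * M') =
      Matrix.GeneralLinearGroup.map (n := m) (Ideal.Quotient.mk (J ^ 2)) (M' * M) := by
  rw [mem_Gam] at hM hM'
  apply Units.ext
  ext i j
  show Ideal.Quotient.mk (J ^ 2) ((M * M' : GL m B) i j) =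
    Ideal.Quotient.mk (J ^ 2) ((M' * M : GL m B) i j)
  rw [Ideal.Quotient.eq]
  have e : ((M * M' : GL m B) : Matrix m m B) - ((M' * M : GL m B) : Matrix m m B) =
      ((M : Matrix m m B) - 1) * ((M' : Matrix m m B) - 1) -
      ((M' : Matrix m m B) - 1) * ((M : Matrix m m B) - 1) := by
    rw [Units.val_mul, Units.val_mul]
    noncomm_ring
  have e' : (M * M' : GL m B) i j - (M' * M : GL m B) i j =
      (((M : Matrix m m B) - 1) * ((M' : Matrix m m B) - 1)) i j -
      (((M' : Matrix m m B) - 1) * ((M : Matrix m m B) - 1)) i j := congrFun (congrFun e i) j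
  rw [e', pow_two, Matrix.mul_apply, Matrix.mul_apply]
  refine sub_mem (sum_mem fun s _ => ?_) (sum_mem fun s _ => ?_)
  · exact Ideal.mul_mem_mul (hM _ _) (hM' _ _)
  · exact Ideal.mul_mem_mul (hM' _ _) (hM _ _)

theorem Gam_solvable {B : Type} [CommRing B] (k : ℕ) : ∀ (J : Ideal B), J ^ (2 ^ k) = ⊥ →
    Group.IsSolvable (Gam (m := m) J) := by
  induction k with
  | zero =>
    intro J hJ
    rw [pow_zero, pow_one] at hJ
    have : Subsingleton (Gam (m := m) J) := by
      refine ⟨fun x y => ?_⟩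
      have h : ∀ z : Gam (m := m) J, z = 1 := by
        rintro ⟨M, hM⟩
        rw [mem_Gam, hJ] at hM
        apply Subtype.ext
        apply Units.ext
        ext i j
        exact sub_eq_zero.1 (Ideal.mem_bot.1 (hM i j))
      rw [h x, h y]
    exact Group.isSolvable_of_comm (fun a b => Subsingleton.elim _ _)
  | succ k ih =>
    intro J hJ
    have h1 : (J ^ 2) ^ (2 ^ k) = ⊥ := by
      rw [← pow_mul, ← hJ]; congr 1; ring
    have h2 := ih (J ^ 2) h1
    let f : Gam (m := m) J →* GL m (B ⧸ J ^ 2) :=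
      (Matrix.GeneralLinearGroup.map (n := m) (Ideal.Quotient.mk (J ^ 2))).comp (Gam J).subtype
    have hr : Group.IsSolvable f.range := by
      refine Group.isSolvable_of_comm ?_
      rintro ⟨_, x, rfl⟩ ⟨_, y, rfl⟩
      apply Subtype.ext
      show f x * f y = f y * f x
      rw [← map_mul, ← map_mul]
      exact Gam_comm J x.2 y.2
    have hk : Group.IsSolvable f.ker := by
      let g : f.ker →* Gam (m := m) (J ^ 2) :=
        { toFun := fun x => ⟨((x : Gam (m := m) J) : GL m B), x.2⟩
          map_one' := rfl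
          map_mul' := fun _ _ => rfl }
      refine Group.isSolvable_of_isSolvable_injective (f := g) ?_
      intro x y hxy
      apply Subtype.ext
      apply Subtype.ext
      exact congrArg (fun z : Gam (m := m) (J ^ 2) => (z : GL m B)) hxy
    exact Group.isSolvable_of_ker_le_range f.ker.subtype f.rangeRestrict (by simp)

end gam

/-- domains -/
theorem domain_case {P : ∀ (G : Type) [Group G], Prop} (hP : Closed P) (hC : Cls P)
    (D : Type) [CommRing D] [IsDomain D] (G : Subgroup (GL (Fin 3) D[X]))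
    (h : P (G.map (Matrix.GeneralLinearGroup.map (n := Fin 3) (Polynomial.evalRingHom (0 : D))))) :
    P G := by
  refine gl3_sub hP hC.prod D G G.subtype ?_
  intro n
  let I : Ideal D[X] := Ideal.span {(Polynomial.X : D[X]) ^ (n + 1)}
  let R : Type := D[X] ⧸ I
  let ρ : GL (Fin 3) D[X] →* GL (Fin 3) R :=
    Matrix.GeneralLinearGroup.map (n := Fin 3) (Ideal.Quotient.mk I)
  let e0 : R →+* D := Ideal.Quotient.lift I (Polynomial.evalRingHom (0 : D)) (by
    intro a ha
    obtain ⟨b, rfl⟩ := Ideal.mem_span_singleton'.1 ha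
    simp)
  let J : Ideal R := RingHom.ker e0
  have hJ : ∀ r ∈ J, ∃ s : R, r = s * Ideal.Quotient.mk I Polynomial.X := by
    intro r hr
    obtain ⟨p, rfl⟩ := Ideal.Quotient.mk_surjective r
    have h0 : Polynomial.eval 0 p = 0 := hr
    obtain ⟨q, hq⟩ : Polynomial.X ∣ p := Polynomial.X_dvd_iff.2 (by
      rwa [Polynomial.coeff_zero_eq_eval_zero])
    exact ⟨Ideal.Quotient.mk I q, by rw [hq, map_mul, mul_comm]⟩
  have hJn : J ^ (2 ^ (n + 1)) = ⊥ := by
    have h1 : J ≤ Ideal.span {Ideal.Quotient.mk I Polynomial.X} := by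
      intro r hr
      obtain ⟨s, rfl⟩ := hJ r hr
      exact Ideal.mul_mem_left _ _ (Ideal.mem_span_singleton_self _)
    have h2 : Ideal.span {Ideal.Quotient.mk I (Polynomial.X : D[X])} ^ (n + 1) = ⊥ := by
      rw [Ideal.span_singleton_pow, ← map_pow,
        Ideal.Quotient.eq_zero_iff_mem.2 (Ideal.mem_span_singleton_self _)]
      simp
    have h3 : J ^ (n + 1) = ⊥ := le_bot_iff.1 ((Ideal.pow_right_mono h1 _).trans h2.le)
    exact le_bot_iff.1 ((Ideal.pow_le_pow_right (Nat.lt_two_pow_self (n := n + 1)).le).trans h3.le)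
  have hsol := Gam_solvable (m := Fin 3) (n + 1) J hJn
  let Q : Subgroup (GL (Fin 3) R) := G.map ρ
  have hQ : P Q := by
    let π : Q →* GL (Fin 3) D := (Matrix.GeneralLinearGroup.map (n := Fin 3) e0).comp Q.subtype
    have hπ : ∀ g : GL (Fin 3) D[X], Matrix.GeneralLinearGroup.map (n := Fin 3) e0 (ρ g) =
        Matrix.GeneralLinearGroup.map (n := Fin 3) (Polynomial.evalRingHom (0 : D)) g := by
      intro g
      rfl
    have hr : P π.range := by
      have : π.range = G.map (Matrix.GeneralLinearGroup.map (n := Fin 3)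
          (Polynomial.evalRingHom (0 : D))) := by
        ext x
        constructor
        · rintro ⟨⟨_, g, hg, rfl⟩, rfl⟩
          exact ⟨g, hg, (hπ g).symm⟩
        · rintro ⟨g, hg, rfl⟩
          exact ⟨⟨ρ g, g, hg, rfl⟩, hπ g⟩
      rw [this]
      exact h
    refine hC.solvable_by π.rangeRestrict hr ?_
    let g : π.rangeRestrict.ker →* Gam (m := Fin 3) J :=
      { toFun := fun x => ⟨((x : Q) : GL (Fin 3) R), by
          rw [mem_Gam]
          intro i j
          have h1 : π (x : Q) = 1 := congrArg Subtype.val x.2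
          have h2 : e0 (((x : Q) : GL (Fin 3) R) i j) = (1 : Matrix (Fin 3) (Fin 3) D) i j :=
            congrFun (congrFun (congrArg (fun z : GL (Fin 3) D =>
              (z : Matrix (Fin 3) (Fin 3) D)) h1) i) j
          show e0 _ = 0
          rw [map_sub, h2, Matrix.one_apply, Matrix.one_apply]
          split_ifs <;> simp⟩
        map_one' := rfl
        map_mul' := fun _ _ => rfl }
    refine Group.isSolvable_of_isSolvable_injective (f := g) ?_
    intro x y hxy
    apply Subtype.ext
    apply Subtype.ext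
    exact congrArg (fun z : Gam (m := Fin 3) J => (z : GL (Fin 3) R)) hxy
  refine ⟨Q, inferInstance, ρ.subgroupMap G, hQ, ?_⟩
  intro g hg h1
  have h2 : ρ (g : GL (Fin 3) D[X]) = 1 := congrArg Subtype.val h1
  apply Subtype.ext
  apply Units.ext
  ext1 a b
  have h3 : Ideal.Quotient.mk I (((g : GL (Fin 3) D[X]) : Matrix (Fin 3) (Fin 3) D[X]) a b) =
      (1 : Matrix (Fin 3) (Fin 3) R) a b :=
    congrFun (congrFun (congrArg (fun z : GL (Fin 3) R => (z : Matrix (Fin 3) (Fin 3) R)) h2) a) b
  have h4 : (((g : GL (Fin 3) D[X]) : Matrix (Fin 3) (Fin 3) D[X]) a b) -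
      (1 : Matrix (Fin 3) (Fin 3) D[X]) a b ∈ I := by
    rw [← Ideal.Quotient.eq_zero_iff_mem, map_sub, h3, Matrix.one_apply, Matrix.one_apply]
    split_ifs <;> simp
  have h5 : (((g : GL (Fin 3) D[X]) : Matrix (Fin 3) (Fin 3) D[X]) a b).natDegree ≤ n := hg a b
  have h6 : ((((g : GL (Fin 3) D[X]) : Matrix (Fin 3) (Fin 3) D[X]) a b) -
      (1 : Matrix (Fin 3) (Fin 3) D[X]) a b).natDegree ≤ n := by
    refine (Polynomial.natDegree_sub_le _ _).trans (max_le h5 ?_)
    rw [Matrix.one_apply]
    split_ifs <;> simp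
  have h7 := Ideal.mem_span_singleton.1 h4
  by_contra h8
  have h9 := Polynomial.natDegree_le_of_dvd h7 (sub_ne_zero.2 h8)
  rw [Polynomial.natDegree_X_pow] at h9
  omega

end Pool.Agent.helper36.LT
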