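import Pool.Agent.helper36.LT.Reduct
import Pool.Agent.helper36.LT.Bfs
import Pool.Agent.helper26.LT.Realise
import Pool.Agent.helper66.LT.Approx
import Pool.Agent.helper91.LT.TreeMem
import Pool.Agent.helper18.LT.LiftTree
import Pool.Agent.helper15.LTQ.Main
import Pool.Agent.helper20.LT9.E

set_option autoImplicit false

/-!
# The main theorem on chamber systems of large type
-/

namespace Pool.Agent.helper36.LT

theorem mods {P : ∀ (G : Type) [Group G], Prop} (hP : Closed P) (S : Type) [Finite S] :
    Mods P S where
  proper := fun G B _ _ X => LT.proper hP G S B X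
  approx := fun Q _ => Pool.Agent.helper66.LT.approx hP S Q
  tree_mem := fun N _ φ => Pool.Agent.helper91.LT.tree_mem hP N φ
  lift_tree := fun N _ _ X hX => Pool.Agent.helper18.LT.lift_tree' N X (cx_sc X hX)
  bfs := bfs
  rank_data := Pool.Agent.helper20.LT9.rank_data
  quotient := fun H B _ _ X => Pool.Agent.helper15.LTQ.quotient H B X

/-- The main theorem: `G` acts on a simply connected chamber system of large type, and `f` is a
homomorphism to a group of the class which is injective on the stabilisers. -/
theorem main_thm {P : ∀ (G : Type) [Group G], Prop} (hP : Closed P) {S : Type} [Finite S]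
    (hS : ∃ s t : S, s ≠ t) (G B Q : Type) [Group G] [Group Q] [MulAction G B] (X : Sys S B)
    (hX : X.SC) (hG : X.Inv G) (f : G →* Q) (hf : X.InjStab f) (hQ : P Q) : P G :=
  main hP (mods hP S) hS G B Q X hX hG f hf hQ

end Pool.Agent.helper36.LT
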