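import Pool.Agent.helper36.LT.Main
import Pool.Agent.helper50.LT.GLdir

set_option autoImplicit false

/-!
# The main theorem with a homomorphism for each class
-/

namespace Pool.Agent.helper36.LT

open Pool.Agent.helper50.LT (closed_iso)

/-- finite products -/
theorem prod_mem {P : ∀ (G : Type) [Group G], Prop} (hP : Closed P)
    (hprod : ∀ (G H : Type) [Group G] [Group H], P G → P H → P (G × H)) (ι : Type) [Finite ι] :
    ∀ (Q : ι → Type) [∀ i, Group (Q i)], (∀ i, P (Q i)) → P (∀ i, Q i) := by
  refine Finite.induction_empty_option (P := fun (ι : Type) => ∀ (Q : ι → Type)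
    [∀ i, Group (Q i)], (∀ i, P (Q i)) → P (∀ i, Q i)) ?_ ?_ ?_ ι
  · intro α β e h Q _ hQ
    have h1 : P (∀ i, Q (e i)) := h (fun i => Q (e i)) (fun i => hQ (e i))
    let E : (∀ b, Q b) ≃* (∀ i, Q (e i)) :=
      { toFun := fun x i => x (e i)
        invFun := fun y b => e.apply_symm_apply b ▸ y (e.symm b)
        left_inv := by
          intro x
          funext b
          have : ∀ (b c : β) (h : c = b), (h ▸ x c : Q b) = x b := by
            rintro b _ rfl
            rfl
          exact this _ _ _
        right_inv := by
          intro y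
          funext i
          have : ∀ (i j : α) (h : e j = e i) (h' : j = i), (h ▸ y j : Q (e i)) = y i := by
            intro i j h h'
            subst h'
            rfl
          exact this _ _ _ (e.symm_apply_apply i)
        map_mul' := fun _ _ => rfl }
    exact closed_iso hP E.symm h1
  · intro Q _ _
    have h1 : P PUnit.{1} := hP.comm PUnit
    let E : PUnit.{1} ≃* (∀ i : PEmpty.{1}, Q i) :=
      { toFun := fun _ i => i.elim
        invFun := fun _ => PUnit.unit
        left_inv := fun _ => rfl
        right_inv := fun x => by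
          funext i
          exact i.elim
        map_mul' := fun _ _ => by
          funext i
          exact i.elim }
    exact closed_iso hP E h1
  · intro α _ h Q _ hQ
    have h1 : P (∀ i : α, Q (some i)) := h (fun i => Q (some i)) (fun i => hQ _)
    have h2 : P (Q none × ∀ i : α, Q (some i)) := hprod _ _ (hQ none) h1
    let E : (Q none × ∀ i : α, Q (some i)) ≃* (∀ i : Option α, Q i) :=
      { toFun := fun x i => match i with
          | none => x.1
          | some j => x.2 j
        invFun := fun y => (y none, fun i => y (some i))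
        left_inv := fun _ => rfl
        right_inv := fun y => by
          funext i
          cases i <;> rfl
        map_mul' := fun x y => by
          funext i
          cases i <;> rfl }
    exact closed_iso hP E h2

/-- the inheritance theorem with a homomorphism for each class -/
theorem main_det {P : ∀ (G : Type) [Group G], Prop} (hP : Closed P)
    (hprod : ∀ (G H : Type) [Group G] [Group H], P G → P H → P (G × H)) {S : Type} [Finite S]
    (hS : ∃ s t : S, s ≠ t) (G B : Type) [Group G] [MulAction G B] (X : Sys S B)
    (hX : X.SC) (hG : X.Inv G)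
    (hdet : ∀ (T : Set S) (b : B), IsTy T → ∃ (Q : Type) (_ : Group Q) (f : G →* Q), P Q ∧
      ∀ g ∈ X.stab G T b, f g = 1 → g = 1) : P G := by
  classical
  choose Q hQ f hPQ hf using hdet
  apply Pool.Agent.helper66.LT.approx' hP G B X hX hG
  intro F G' B' _ _ X' p q hX' hG' hfin horb hst
  let I : Type := Ty S × F
  have : Finite (Ty S) := Subtype.finite
  let R : I → Type := fun i => Q i.1.1 i.2.1 i.1.2
  let hR : ∀ i, Group (R i) := fun i => hQ i.1.1 i.2.1 i.1.2
  have hPR : P (∀ i, R i) := prod_mem hP hprod I R (fun i => hPQ i.1.1 i.2.1 i.1.2)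
  let φ : G →* (∀ i, R i) := MonoidHom.pi (fun i => (f i.1.1 i.2.1 i.1.2 : G →* R i))
  refine main_thm hP hS G' B' (∀ i, R i) X' hX' hG' (φ.comp p) ?_ hPR
  intro T b' hT g' hg' h1
  obtain ⟨h2, h3⟩ := hst T b' g' hT hg'
  apply h3
  obtain ⟨g, hg⟩ := horb b'
  have h4 : f T (g • q b') hT (p g') = 1 := congrFun h1 (⟨T, hT⟩, ⟨g • q b', hg⟩)
  have h5 : g * p g' * g⁻¹ ∈ X.stab G T (g • q b') := by
    have := hG g T _ _ h2
    show X.r T (g • q b') ((g * p g' * g⁻¹) • g • q b')
    rwa [mul_smul, inv_smul_smul, mul_smul]
  have h6 : g * p g' * g⁻¹ = 1 := by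
    apply hf T (g • q b') hT _ h5
    rw [map_mul, map_mul, h4, mul_one, ← map_mul, mul_inv_cancel, map_one]
  have h7 : p g' = g⁻¹ * (g * p g' * g⁻¹) * g := by group
  rw [h7, h6]
  group

end Pool.Agent.helper36.LT
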