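import Pool.Agent.helper36.LT.Structs

set_option autoImplicit false

/-!
# M3: the reductions

`main` (the main theorem) and `cocompact_int` (cocompact actions and the infinite cyclic group),
from the statements of the modules M1, M2, M4, M5, M7, M8, M9, which are collected in the
structure `Mods`.
-/

namespace Pool.Agent.helper36.LT

open Pool.Agent.helper34

/-- the statements of the other modules for the class `P` and the set of types `S` -/
structure Mods (P : ∀ (G : Type) [Group G], Prop) (S : Type) [Finite S] : Prop where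
  proper : ∀ (G B : Type) [Group G] [MulAction G B] (X : Sys S B), X.SC → X.Inv G →
    (∀ T b, IsTy T → (X.stab G T b).Finite) → P G
  approx : ∀ (Q : Type) [Group Q], (∀ (G B : Type) [Group G] [MulAction G B] (f : G →* Q)
      (X : Sys S B), X.SC → X.Inv G → X.InjStab f → FinOrb G B → P G) →
    ∀ (G B : Type) [Group G] [MulAction G B] (f : G →* Q) (X : Sys S B), X.SC → X.Inv G →
      X.InjStab f → P G
  tree_mem : ∀ (N : Type) [Group N] (φ : N →* Multiplicative ℤ), ActsOnTree N φ → P N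
  lift_tree : ∀ {B C : Type} (N : Type) [Group N] [MulAction N B]
    (X : Sys S B) (_ : X.SC) (_ : X.Inv N) (Y : Sys S C) (q : B → C)
    (_ : Function.Surjective q) (_ : ∀ b b', q b = q b' ↔ ∃ n : N, n • b = b')
    (_ : ∀ T b b', IsTy T → (Y.r T (q b) (q b') ↔ ∃ n : N, X.r T b (n • b')))
    (Mk : Set S → C → Prop)
    (_ : ∀ T b, IsTy T → (Mk T (q b) ↔ ∃ n ∈ X.stab N T b, n ≠ 1))
    (_ : ∀ T T' b, IsTy T → IsTy T' → T ⊆ T' → Mk T (q b) → X.stab N T b = X.stab N T' b)
    (_ : RankData Y Mk) (φ : N →* Multiplicative ℤ) (_ : X.InjStab φ), ActsOnTree N φ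
  bfs : ∀ {B : Type} (Y : Sys S B) (_ : ∃ s t : S, s ≠ t) (_ : Y.SC), Nonempty (BFS Y)
  rank_data : ∀ {B : Type} (Y : Sys S B) (_ : ∃ s t : S, s ≠ t) (_ : BFS Y)
    (Mk : Set S → B → Prop) (_ : Marks Y Mk), Nonempty (RankData Y Mk)
  quotient : ∀ (H B : Type) [Group H] [MulAction H B] (X : Sys S B) (_ : X.SC)
    (_ : X.Inv H) (_ : FinOrb H B) (φ : H →* Multiplicative ℤ) (_ : X.InjStab φ)
    (_ : ∀ T b, IsTy T → (∃ h ∈ X.stab H T b, h ≠ 1) → ∀ k, ∃ h ∈ X.stab H T b, φ h = k),
    ∃ (N : Subgroup H) (_ : N.Normal) (C : Type) (Y : Sys S C) (_ : MulAction (H ⧸ N) C)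
      (q : B → C) (Mk : Set S → C → Prop),
      Y.SC ∧ Y.Inv (H ⧸ N) ∧ (∀ T c, IsTy T → (Y.stab (H ⧸ N) T c).Finite) ∧
      Function.Surjective q ∧ (∀ b b', q b = q b' ↔ ∃ n : N, n • b = b') ∧
      (∀ T b b', IsTy T → (Y.r T (q b) (q b') ↔ ∃ n : N, X.r T b (n • b'))) ∧
      (∀ T b, IsTy T → (Mk T (q b) ↔ ∃ n ∈ X.stab N T b, n ≠ 1)) ∧
      (∀ T T' b, IsTy T → IsTy T' → T ⊆ T' → Mk T (q b) → X.stab N T b = X.stab N T' b) ∧
      Marks Y Mk ∧ ∀ (T : Set S) (b : B), IsTy T → ∀ h ∈ X.stab H T b, ∃ k : ℕ, k ≠ 0 ∧ h ^ k ∈ N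

section Grp

variable {P : ∀ (G : Type) [Group G], Prop}

theorem Closed.iso (hP : Closed P) {G G' : Type} [Group G] [Group G'] (e : G ≃* G') (h : P G) :
    P G' := by
  refine hP.colim Unit (fun _ => G) (fun _ _ _ => MonoidHom.id G) G' (fun _ => e.toMonoidHom)
    ?_ ?_ ?_ ?_ ?_ ?_
  · intro i x; rfl
  · intro i j k hij hjk x; rfl
  · intro i j h x; rfl
  · intro y
    exact ⟨(), e.symm y, e.apply_symm_apply y⟩
  · intro i x hx
    refine ⟨(), le_rfl, ?_⟩
    exact (map_eq_one_iff e e.injective).1 hx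
  · intro _; exact h

theorem Closed.inj (hP : Closed P) {G G' : Type} [Group G] [Group G'] (f : G →* G')
    (hf : Function.Injective f) (h : P G') : P G :=
  hP.iso (MonoidHom.ofInjective hf).symm (hP.subgroup G' h f.range)

theorem Closed.le (hP : Closed P) {G : Type} [Group G] {H K : Subgroup G} (hHK : H ≤ K)
    (h : P K) : P H :=
  hP.inj (Subgroup.inclusion hHK) (Subgroup.inclusion_injective hHK) h

theorem Closed.over (hP : Closed P) {G : Type} [Group G] {H K : Subgroup G} (hHK : H ≤ K)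
    (hi : H.relIndex K ≠ 0) (h : P H) : P K :=
  hP.overgroup K (H.subgroupOf K) ⟨hi⟩ (hP.iso (Subgroup.subgroupOfEquivOfLe hHK).symm h)

theorem Closed.ext (hP : Closed P) {G Q : Type} [Group G] [Group Q] (f : G →* Q) (hQ : P Q)
    (h : ∀ c : Q, P ((Subgroup.zpowers c).comap f)) : P G := by
  refine hP.extension G Q f hQ ?_
  rintro V ⟨Z, hZ, hcyc⟩
  obtain ⟨z, hz⟩ := hcyc
  have hC : Subgroup.zpowers ((z : V) : Q) = Z.map V.subtype := by
    apply le_antisymm
    · rw [Subgroup.zpowers_le]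
      exact ⟨z, z.2, rfl⟩
    · rintro _ ⟨v, hv, rfl⟩
      obtain ⟨n, hn⟩ := Subgroup.mem_zpowers_iff.1 (hz ⟨v, hv⟩)
      refine Subgroup.mem_zpowers_iff.2 ⟨n, ?_⟩
      have := congrArg (fun t : Z => ((t : V) : Q)) hn
      simpa using this
  have hle : Subgroup.zpowers ((z : V) : Q) ≤ V := by
    rw [Subgroup.zpowers_le]
    exact (z : V).2
  refine hP.over (H := (Subgroup.zpowers ((z : V) : Q)).comap f) (K := V.comap f)
    (Subgroup.comap_mono hle) ?_ (h _)
  rw [Subgroup.relIndex_comap]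
  refine mt (Subgroup.relIndex_eq_zero_of_le_right (Subgroup.map_comap_le f V)) ?_
  rw [hC, Subgroup.relIndex]
  have h2 : (Z.map V.subtype).subgroupOf V = Z := Subgroup.comap_map_eq_self_of_injective
    V.subtype_injective Z
  rw [h2]
  exact hZ.index_ne_zero

theorem exists_log {G Q : Type} [Group G] [Group Q] (f : G →* Q) (c : Q)
    (hc : Function.Injective (fun n : ℤ => c ^ n)) :
    ∃ φ : (Subgroup.zpowers c).comap f →* Multiplicative ℤ,
      ∀ x, c ^ (Multiplicative.toAdd (φ x)) = f x := by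
  have h1 : ∀ x : (Subgroup.zpowers c).comap f, ∃ n : ℤ, c ^ n = f x := fun x =>
    Subgroup.mem_zpowers_iff.1 x.2
  choose n hn using h1
  refine ⟨MonoidHom.mk' (fun x => Multiplicative.ofAdd (n x)) ?_, hn⟩
  intro x y
  apply Multiplicative.toAdd.injective
  apply hc
  show c ^ (n (x * y)) = c ^ (n x + n y)
  rw [zpow_add, hn, hn, hn, Subgroup.coe_mul, map_mul]

end Grp

variable {S B : Type}

theorem Sys.Inv.sub {X : Sys S B} {G : Type} [Group G] [MulAction G B] (h : X.Inv G)
    (H : Subgroup G) : X.Inv H := fun g T b c hr => h g T b c hr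

theorem Sys.InjStab.sub {X : Sys S B} {G Q : Type} [Group G] [Group Q] [MulAction G B]
    {f : G →* Q} (h : X.InjStab f) (H : Subgroup G) : X.InjStab (f.comp H.subtype) :=
  fun T b hT g hg hf => Subtype.ext (h T b hT g hg hf)

/-- the main theorem, from the case of cocompact actions and the infinite cyclic group -/
theorem main_of {P : ∀ (G : Type) [Group G], Prop} (hP : Closed P) [Finite S] (hM : Mods P S)
    (hco : ∀ (H B : Type) [Group H] [MulAction H B] (φ : H →* Multiplicative ℤ) (X : Sys S B),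
      X.SC → X.Inv H → X.InjStab φ → FinOrb H B → P H)
    (G B Q : Type) [Group G] [Group Q] [MulAction G B] (X : Sys S B)
    (hX : X.SC) (hG : X.Inv G) (f : G →* Q) (hf : X.InjStab f) (hQ : P Q) : P G := by
  refine hP.ext f hQ ?_
  intro c
  by_cases hc : Function.Injective (fun n : ℤ => c ^ n)
  · obtain ⟨φ, hφ⟩ := exists_log f c hc
    refine hM.approx (Multiplicative ℤ) hco _ B φ X hX (hG.sub _) ?_
    intro T b hT g hg h1
    apply Subtype.ext
    refine hf T b hT g hg ?_
    rw [← hφ g, h1]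
    simp
  · rw [injective_zpow_iff_not_isOfFinOrder, not_not] at hc
    refine hM.proper _ B X hX (hG.sub _) ?_
    intro T b hT
    have hfin : ((Subgroup.zpowers c : Subgroup Q) : Set Q).Finite := by
      have := hc.finite_zpowers
      exact this
    refine Set.Finite.of_finite_image (f := fun g => f g) (hfin.subset ?_) ?_
    · rintro _ ⟨g, _, rfl⟩
      exact g.2
    · intro g hg g' hg' h
      have h1 : g * g'⁻¹ = 1 := by
        apply Subtype.ext
        refine hf T (g' • b) hT _ ?_ ?_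
        · show X.r T (g' • b) (((g : G) * (g' : G)⁻¹) • (g' : G) • b)
          rw [← mul_smul, inv_mul_cancel_right]
          exact X.trans _ _ _ _ hT (X.symm _ _ _ hT hg') hg
        · have h2 : f g = f g' := h
          simp [h2]
      exact mul_inv_eq_one.1 h1


theorem int_core {P : ∀ (G : Type) [Group G], Prop} (hP : Closed P) [Finite S] (hM : Mods P S)
    (hS : ∃ s t : S, s ≠ t) (H B : Type) [Group H] [MulAction H B] (X : Sys S B) (hX : X.SC)
    (hH : X.Inv H) (hF : FinOrb H B) (φ : H →* Multiplicative ℤ) (hφ : X.InjStab φ)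
    (hsurj : ∀ T b, IsTy T → (∃ h ∈ X.stab H T b, h ≠ 1) → ∀ k, ∃ h ∈ X.stab H T b, φ h = k) :
    P H := by
  obtain ⟨N, hN, C, Y, act, q, Mk, hYsc, hYinv, hYfin, hq, hq', hr, hMk, hst, hMarks, hpow⟩ :=
    hM.quotient H B X hX hH hF φ hφ hsurj
  obtain ⟨D⟩ := hM.bfs Y hS hYsc
  obtain ⟨R⟩ := hM.rank_data Y hS D Mk hMarks
  have hPN : P N := hM.tree_mem N (φ.comp N.subtype)
    (hM.lift_tree N X hX (hH.sub N) Y q hq hq' hr Mk hMk hst R (φ.comp N.subtype) (hφ.sub N))
  have hPq : P (H ⧸ N) := hM.proper (H ⧸ N) C Y hYsc hYinv hYfin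
  refine hP.ext (QuotientGroup.mk' N) hPq ?_
  intro c
  by_cases hc : Function.Injective (fun n : ℤ => c ^ n)
  · obtain ⟨lg, hlg⟩ := exists_log (QuotientGroup.mk' N) c hc
    refine hP.ext ((φ.comp ((Subgroup.zpowers c).comap (QuotientGroup.mk' N)).subtype).prod lg)
      (hP.comm _) ?_
    rintro ⟨k, l⟩
    by_cases hl : l = 1
    · subst hl
      have hmem : ∀ x : (Subgroup.zpowers ((k, 1) : Multiplicative ℤ × Multiplicative ℤ)).comap
          ((φ.comp ((Subgroup.zpowers c).comap (QuotientGroup.mk' N)).subtype).prod lg),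
          ((x : (Subgroup.zpowers c).comap (QuotientGroup.mk' N)) : H) ∈ N := by
        intro x
        obtain ⟨m, hm⟩ := Subgroup.mem_zpowers_iff.1 (Subgroup.mem_comap.1 x.2)
        have h1 : lg x = 1 := by
          have := congrArg Prod.snd hm
          simpa using this.symm
        have h2 := hlg x
        rw [h1, toAdd_one, zpow_zero] at h2
        exact (QuotientGroup.eq_one_iff _).1 h2.symm
      let g : (Subgroup.zpowers ((k, 1) : Multiplicative ℤ × Multiplicative ℤ)).comap
          ((φ.comp ((Subgroup.zpowers c).comap (QuotientGroup.mk' N)).subtype).prod lg) →* N :=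
        MonoidHom.mk' (fun x => ⟨_, hmem x⟩) (fun x y => rfl)
      refine hP.inj g ?_ hPN
      intro x y hxy
      exact Subtype.ext (Subtype.ext (congrArg (fun t : N => (t : H)) hxy))
    · refine hM.proper _ B X hX ((hH.sub _).sub _) ?_
      intro T b hT
      refine (Set.finite_singleton 1).subset ?_
      intro e he
      obtain ⟨m, hm⟩ := Subgroup.mem_zpowers_iff.1 (Subgroup.mem_comap.1 e.2)
      have he' : ((e : (Subgroup.zpowers c).comap (QuotientGroup.mk' N)) : H) ∈ X.stab H T b := he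
      obtain ⟨j, hj, hjN⟩ := hpow T b hT _ he'
      have h1 : lg e = 1 := by
        have h2 := hlg e
        have h3 : (c ^ (Multiplicative.toAdd (lg e))) ^ j = 1 := by
          rw [h2, ← map_pow]
          exact (QuotientGroup.eq_one_iff _).2 hjN
        rw [← zpow_natCast, ← zpow_mul] at h3
        have h4 : Multiplicative.toAdd (lg e) * (j : ℤ) = 0 := by
          apply hc
          simpa using h3
        have h5 : Multiplicative.toAdd (lg e) = 0 :=
          (mul_eq_zero.1 h4).resolve_right (by exact_mod_cast hj)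
        exact Multiplicative.toAdd.injective h5
      have h6 : m = 0 := by
        have h7 : l ^ m = 1 := by
          have := congrArg Prod.snd hm
          simpa [h1] using this
        have h8 : m * Multiplicative.toAdd l = 0 := by
          have := congrArg Multiplicative.toAdd h7
          simpa [toAdd_zpow] using this
        refine (mul_eq_zero.1 h8).resolve_right ?_
        intro h9
        exact hl (Multiplicative.toAdd.injective h9)
      have h10 : φ ((e : (Subgroup.zpowers c).comap (QuotientGroup.mk' N)) : H) = 1 := by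
        rw [h6, zpow_zero] at hm
        have := congrArg Prod.fst hm
        simpa using this.symm
      have h11 := hφ T b hT _ he' h10
      exact Subtype.ext (Subtype.ext h11)
  · rw [injective_zpow_iff_not_isOfFinOrder, not_not] at hc
    have hle : N ≤ (Subgroup.zpowers c).comap (QuotientGroup.mk' N) := by
      intro x hx
      rw [Subgroup.mem_comap]
      have : QuotientGroup.mk' N x = 1 := (QuotientGroup.eq_one_iff x).2 hx
      rw [this]
      exact one_mem _
    refine hP.over hle ?_ hPN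
    have h1 : ((⊥ : Subgroup (H ⧸ N)).comap (QuotientGroup.mk' N)).relIndex
        ((Subgroup.zpowers c).comap (QuotientGroup.mk' N)) ≠ 0 := by
      rw [Subgroup.relIndex_comap]
      refine mt (Subgroup.relIndex_eq_zero_of_le_right (Subgroup.map_comap_le _ _)) ?_
      rw [Subgroup.relIndex_bot_left]
      have : Finite (Subgroup.zpowers c) := hc.finite_zpowers
      exact Nat.card_pos.ne'
    rwa [MonoidHom.comap_bot, QuotientGroup.ker_mk'] at h1

theorem Sys.stab_zpow {X : Sys S B} {H : Type} [Group H] [MulAction H B] (hH : X.Inv H)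
    {T : Set S} {b : B} (hT : IsTy T) {h : H} (hh : h ∈ X.stab H T b) (n : ℤ) :
    h ^ n ∈ X.stab H T b := by
  have hpw : ∀ n : ℕ, h ^ n ∈ X.stab H T b := by
    intro n
    induction n with
    | zero =>
      show X.r T b ((h ^ 0) • b)
      rw [pow_zero, one_smul]
      exact X.refl _ _ hT
    | succ n ih =>
      show X.r T b ((h ^ (n + 1)) • b)
      rw [pow_succ', mul_smul]
      exact X.trans _ _ _ _ hT hh (hH h T _ _ ih)
  have hinv : ∀ h ∈ X.stab H T b, h⁻¹ ∈ X.stab H T b := by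
    intro h hh
    show X.r T b (h⁻¹ • b)
    have := hH h⁻¹ T _ _ hh
    rw [inv_smul_smul] at this
    exact X.symm _ _ _ hT this
  obtain ⟨m, rfl | rfl⟩ := n.eq_nat_or_neg
  · rw [zpow_natCast]
    exact hpw m
  · rw [zpow_neg, zpow_natCast]
    exact hinv _ (hpw m)

theorem FinOrb.of_finiteIndex {G B : Type} [Group G] [MulAction G B] (h : FinOrb G B)
    (H : Subgroup G) [H.FiniteIndex] : FinOrb H B := by
  obtain ⟨F, hF, h⟩ := h
  have : Finite (G ⧸ H) := inferInstance
  refine ⟨⋃ q : G ⧸ H, (fun b => (q.out)⁻¹ • b) '' F, Set.finite_iUnion fun q => hF.image _, ?_⟩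
  intro b
  obtain ⟨g, hg⟩ := h b
  obtain ⟨x, hx⟩ := QuotientGroup.mk_out_eq_mul H g
  refine ⟨x⁻¹, Set.mem_iUnion.2 ⟨(g : G ⧸ H), g • b, hg, ?_⟩⟩
  show ((g : G ⧸ H).out)⁻¹ • g • b = ((x : G)⁻¹) • b
  rw [hx, mul_inv_rev, mul_smul, inv_smul_smul]

theorem exists_scale [Finite S] (H B : Type) [Group H] [MulAction H B] (X : Sys S B)
    (hH : X.Inv H) (hF : FinOrb H B) (φ : H →* Multiplicative ℤ) (hφ : X.InjStab φ) :
    ∃ K : ℤ, K ≠ 0 ∧ ∀ T b, IsTy T → (∃ h ∈ X.stab H T b, h ≠ 1) →
      ∃ h ∈ X.stab H T b, φ h = Multiplicative.ofAdd K := by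
  classical
  obtain ⟨F, hFf, hF⟩ := hF
  have : Fintype S := Fintype.ofFinite S
  have h1 : ∀ (T : Set S) (b : B), ∃ k : ℤ, k ≠ 0 ∧ (IsTy T → (∃ h ∈ X.stab H T b, h ≠ 1) →
      ∃ h ∈ X.stab H T b, φ h = Multiplicative.ofAdd k) := by
    intro T b
    by_cases h : IsTy T ∧ ∃ h ∈ X.stab H T b, h ≠ 1
    · obtain ⟨hT, h, hh, hne⟩ := h
      refine ⟨Multiplicative.toAdd (φ h), ?_, fun _ _ => ⟨h, hh, rfl⟩⟩
      intro h0
      exact hne (hφ T b hT h hh (Multiplicative.toAdd.injective h0))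
    · exact ⟨1, one_ne_zero, fun h2 h3 => absurd ⟨h2, h3⟩ h⟩
  choose k hk hk' using h1
  have hzp := fun T b hT h hh n => Sys.stab_zpow (X := X) hH (T := T) (b := b) hT (h := h) hh n
  refine ⟨∏ T : Set S, ∏ b ∈ hFf.toFinset, k T b, ?_, ?_⟩
  · exact Finset.prod_ne_zero_iff.2 fun T _ => Finset.prod_ne_zero_iff.2 fun b _ => hk T b
  · rintro T b hT ⟨h, hh, hne⟩
    obtain ⟨g, hg⟩ := hF b
    have h2 : g * h * g⁻¹ ∈ X.stab H T (g • b) := by
      show X.r T (g • b) ((g * h * g⁻¹) • g • b)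
      rw [← mul_smul, inv_mul_cancel_right, mul_smul]
      exact hH g T _ _ hh
    obtain ⟨h', hh', hφ'⟩ := hk' T (g • b) hT ⟨_, h2, by
      intro h3
      apply hne
      have h4 : g * h = g := mul_inv_eq_one.1 h3
      exact mul_eq_left.1 h4⟩
    have hdvd : k T (g • b) ∣ ∏ T : Set S, ∏ b ∈ hFf.toFinset, k T b := by
      refine dvd_trans ?_ (Finset.dvd_prod_of_mem _ (Finset.mem_univ T))
      exact Finset.dvd_prod_of_mem (fun b => k T b) (hFf.mem_toFinset.2 hg)
    obtain ⟨m, hm⟩ := hdvd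
    have h5 := hzp T _ hT _ hh' m
    refine ⟨g⁻¹ * h' ^ m * g, ?_, ?_⟩
    · show X.r T b ((g⁻¹ * h' ^ m * g) • b)
      have h6 := hH g⁻¹ T _ _ h5
      rw [inv_smul_smul] at h6
      rw [mul_smul, mul_smul]
      exact h6
    · rw [map_mul, map_mul, map_zpow, hφ', map_inv, hm, mul_right_comm, inv_mul_cancel, one_mul]
      rw [← ofAdd_zsmul, smul_eq_mul, mul_comm]

/-- the main theorem for cocompact actions and the infinite cyclic group (uses `quotient`, `bfs`,
`rank_data`, `lift_tree`, `tree_mem`, `proper`) -/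
theorem cocompact_int {P : ∀ (G : Type) [Group G], Prop} (hP : Closed P) [Finite S]
    (hM : Mods P S)
    (hS : ∃ s t : S, s ≠ t) (H B : Type) [Group H] [MulAction H B] (X : Sys S B) (hX : X.SC)
    (hH : X.Inv H) (hF : FinOrb H B) (φ : H →* Multiplicative ℤ) (hφ : X.InjStab φ) : P H := by
  obtain ⟨K, hK, hsc⟩ := exists_scale H B X hH hF φ hφ
  have hinj : Function.Injective (fun n : ℤ => (Multiplicative.ofAdd K) ^ n) := by
    intro a b hab
    have h1 : Multiplicative.toAdd ((Multiplicative.ofAdd K) ^ a) =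
      Multiplicative.toAdd ((Multiplicative.ofAdd K) ^ b) := congrArg _ hab
    rw [toAdd_zpow, toAdd_zpow, toAdd_ofAdd, smul_eq_mul, smul_eq_mul] at h1
    exact mul_right_cancel₀ hK h1
  obtain ⟨φ', hφ'⟩ := exists_log φ (Multiplicative.ofAdd K) hinj
  have hfi : ((Subgroup.zpowers (Multiplicative.ofAdd K)).comap φ).FiniteIndex := by
    have : NeZero K.natAbs := ⟨Int.natAbs_ne_zero.2 hK⟩
    have : Finite (Multiplicative (ZMod K.natAbs)) :=
      inferInstanceAs (Finite (ZMod K.natAbs))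
    have h1 := Subgroup.finiteIndex_ker
      ((AddMonoidHom.toMultiplicative (Int.castAddHom (ZMod K.natAbs))).comp φ)
    refine Subgroup.finiteIndex_of_le (H := ((AddMonoidHom.toMultiplicative
      (Int.castAddHom (ZMod K.natAbs))).comp φ).ker) ?_
    intro x hx
    have h2 : ((Multiplicative.toAdd (φ x) : ℤ) : ZMod K.natAbs) = 0 := hx
    rw [ZMod.intCast_zmod_eq_zero_iff_dvd] at h2
    rw [Subgroup.mem_comap, Subgroup.mem_zpowers_iff]
    obtain ⟨m, hm⟩ := Int.natAbs_dvd.1 h2
    refine ⟨m, ?_⟩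
    apply Multiplicative.toAdd.injective
    rw [toAdd_zpow, toAdd_ofAdd, smul_eq_mul, hm, mul_comm]
  refine hP.overgroup H _ hfi ?_
  refine int_core hP hM hS _ B X hX (hH.sub _) (hF.of_finiteIndex _) φ' ?_ ?_
  · intro T b hT g hg h1
    apply Subtype.ext
    refine hφ T b hT g hg ?_
    rw [← hφ' g, h1, toAdd_one, zpow_zero]
  · rintro T b hT ⟨h, hh, hne⟩ k
    obtain ⟨h1, hh1, hφ1⟩ := hsc T b hT ⟨h, hh, fun h0 => hne (Subtype.ext h0)⟩
    have hm : h1 ^ (Multiplicative.toAdd k) ∈
        (Subgroup.zpowers (Multiplicative.ofAdd K)).comap φ := by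
      rw [Subgroup.mem_comap, map_zpow, hφ1]
      exact Subgroup.zpow_mem_zpowers _ _
    refine ⟨⟨_, hm⟩, Sys.stab_zpow hH hT hh1 _, ?_⟩
    apply Multiplicative.toAdd.injective
    apply hinj
    show Multiplicative.ofAdd K ^ _ = Multiplicative.ofAdd K ^ _
    rw [hφ']
    show φ (h1 ^ (Multiplicative.toAdd k)) = _
    rw [map_zpow, hφ1]

/-- the main theorem -/
theorem main {P : ∀ (G : Type) [Group G], Prop} (hP : Closed P) [Finite S] (hM : Mods P S)
    (hS : ∃ s t : S, s ≠ t) (G B Q : Type) [Group G] [Group Q] [MulAction G B] (X : Sys S B)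
    (hX : X.SC) (hG : X.Inv G) (f : G →* Q) (hf : X.InjStab f) (hQ : P Q) : P G :=
  main_of hP hM (fun H B _ _ φ X h1 h2 h3 h4 => cocompact_int hP hM hS H B X h1 h2 h4 φ h3)
    G B Q X hX hG f hf hQ

end Pool.Agent.helper36.LT
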