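import Pool.Agent.helper36.LT.Defs

set_option autoImplicit false

/-!
Structures shared by the modules
-/

namespace Pool.Agent.helper36.LT

open Pool.Agent.helper34

variable {S B : Type}

/-! ## Structures -/

/-- The state of the breadth first search from the chamber `b0` (levels are the distance in the
graph `two chambers are in a common rank two class`). Every chamber `≠ b0` has either exactly one
edge state `{s, t}` (`Ed b s t`), or exactly one vertex state `s` (`Ve b s`). -/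
structure BFS (Y : Sys S B) where
  b0 : B
  lev : B → ℕ
  Ed : B → S → S → Prop
  Ve : B → S → Prop
  lev0 : ∀ b, lev b = 0 ↔ b = b0
  ed_symm : ∀ b s t, Ed b s t → Ed b t s
  ed_ne : ∀ b s t, Ed b s t → s ≠ t
  ed_uniq : ∀ b s t u v, Ed b s t → Ed b u v → (s = u ∧ t = v) ∨ (s = v ∧ t = u)
  ve_uniq : ∀ b s t, Ve b s → Ve b t → s = t
  ed_ve : ∀ b s t u, Ed b s t → ¬ Ve b u
  ed_b0 : ∀ s t, ¬ Ed b0 s t
  ve_b0 : ∀ s, ¬ Ve b0 s
  state : ∀ b, b ≠ b0 → (∃ s t, Ed b s t) ∨ ∃ s, Ve b s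
  /-- flat panels -/
  flat_ed : ∀ b b' s w, Ed b s w → Y.r {s} b b' → lev b' = lev b ∧ (Ed b' s w ∨ Ve b' w)
  flat_ve : ∀ b b' s w, Ve b w → s ≠ w → Y.r {s} b b' → b' ≠ b → lev b' = lev b ∧ Ed b' s w
  /-- a chamber with vertex state `s` has a gate in its `s`-panel -/
  ve_gate : ∀ b s, Ve b s → ∃ g, Y.r {s} b g ∧ lev b = lev g + 1 ∧
    (g = b0 ∨ ∃ u v, Ed g u v ∧ s ≠ u ∧ s ≠ v)
  /-- gates -/
  gate_ve : ∀ g b s, (g = b0 ∨ ∃ u v, Ed g u v ∧ s ≠ u ∧ s ≠ v) → Y.r {s} g b → b ≠ g →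
    lev b = lev g + 1 ∧ Ve b s
  /-- rank two classes -/
  ed_low : ∀ b s t, Ed b s t → ∃ g, Y.r {s, t} b g ∧ lev b = lev g + 1
  low : ∀ b b' s t, s ≠ t → ¬ Ed b s t → ¬ Ve b s → ¬ Ve b t → Y.r {s, t} b b' →
    lev b ≤ lev b' ∧ lev b' ≤ lev b + 1
  /-- the low part of a rank two class: three cases -/
  low3 : ∀ b b' s t, s ≠ t → (b = b0 ∨ ∃ u v, Ed b u v ∧ s ≠ u ∧ s ≠ v ∧ t ≠ u ∧ t ≠ v) →
    Y.r {s, t} b b' → lev b' = lev b → b' = b
  low2 : ∀ b b' s t w, s ≠ t → Ve b w → w ≠ s → w ≠ t → Y.r {s, t} b b' → lev b' = lev b →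
    Y.r {s} b b' ∨ Y.r {t} b b'
  low1 : ∀ b b' s t w, s ≠ t → Ed b s w → w ≠ t → (∀ b'', Y.r {s} b b'' → ¬ Ve b'' w) →
    Y.r {s, t} b b' → lev b' = lev b → Y.r {s} b b'

/-- marks on the classes -/
structure Marks (Y : Sys S B) (Mk : Set S → B → Prop) : Prop where
  congr : ∀ T b c, IsTy T → Y.r T b c → Mk T b → Mk T c
  up : ∀ T T' b, IsTy T → IsTy T' → T ⊆ T' → Mk T b → Mk T' b
  /-- two marked panels of different types meet in marked chambers only -/
  two : ∀ s t b, s ≠ t → Mk {s} b → Mk {t} b → Mk ∅ b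
  /-- two adjacent chambers in marked panels of a different type are marked -/
  four : ∀ s t b c, s ≠ t → b ≠ c → Y.r {s} b c → Mk {t} b → Mk {t} c → Mk ∅ b

/-- marks as a predicate on vertices -/
def VMk (Y : Sys S B) (Mk : Set S → B → Prop) (v : Vert Y) : Prop :=
  ∃ b, v = cl Y v.1 b ∧ Mk v.1.1 b

/-- rank data: a well-founded order of the vertices such that the descending links are rooted trees
(root `par x`, the neighbour of `y` in the direction of the root is `nx x y`) -/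
structure RankData (Y : Sys S B) (Mk : Set S → B → Prop) where
  lt : Vert Y → Vert Y → Prop
  wf : WellFounded lt
  total : ∀ x y, (cx Y).edge x y → lt x y ∨ lt y x
  par : Vert Y → Vert Y
  nx : Vert Y → Vert Y → Vert Y
  dep : Vert Y → Vert Y → ℕ
  par_lt : ∀ x y, (cx Y).edge x y → lt y x → (cx Y).edge x (par x) ∧ lt (par x) x
  nx_tri : ∀ x y, (cx Y).edge x y → lt y x → y ≠ par x →
    (cx Y).tri x y (nx x y) ∧ lt (nx x y) x ∧ dep x (nx x y) < dep x y
  tri_nx : ∀ x y z, (cx Y).tri x y z → lt y x → lt z x →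
    (y ≠ par x ∧ z = nx x y) ∨ (z ≠ par x ∧ y = nx x z)
  mark_nx : ∀ x y, (cx Y).edge x y → lt y x → y ≠ par x → VMk Y Mk x → VMk Y Mk y →
    VMk Y Mk (nx x y)

/-- the group `N` acts on the set `V` and on an oriented tree with vertex set `V`, and `φ` is
injective on vertex stabilisers -/
def ActsOnTree (N : Type) [Group N] (φ : N →* Multiplicative ℤ) : Prop :=
  ∃ (V : Type) (_ : MulAction N V) (par : V → V → Prop),
    (∀ (n : N) x p, par x p → par (n • x) (n • p)) ∧ (∀ x p, par x p → ¬ par p x) ∧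
    (SimpleGraph.fromRel par).IsTree ∧ ∀ (x : V) (n : N), n • x = x → φ n = 1 → n = 1

end Pool.Agent.helper36.LT
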